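import Pool.Agent.Helper90.WM.T5

/-!
# The asymptotic formula, in terms of the zeros
-/

set_option autoImplicit false

open Complex Filter Topology Set MeasureTheory H370
open Pool.Agent.H295R2 (Zs fz Mx mu m0 Nice Lap JJ avg phi step GR II)
open scoped ENNReal

namespace Pool.Agent.Helper90.WM

/-- the nontrivial zeros -/
def NT : Set ℂ := {ρ | riemannZeta ρ = 0 ∧ 0 < ρ.re ∧ ρ.re < 1}

theorem NT_of_Pz {p : ℂ} (hp : p ∈ Pz) : p + 1 / 2 ∈ NT := by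
  have h2 : (p + 1 / 2).re = 1 / 2 := by rw [Complex.add_re, hp.1]; norm_num
  exact ⟨hp.2, by rw [h2]; norm_num, by rw [h2]; norm_num⟩

theorem Pz_of_NT (hR : RHSimple) {ρ : ℂ} (h : ρ ∈ NT) : ρ - 1 / 2 ∈ Pz := by
  refine ⟨?_, by rw [sub_add_cancel]; exact h.1⟩
  rw [Complex.sub_re, (hR ρ h.1 h.2.1 h.2.2).1]
  norm_num

/-- the shift -/
noncomputable def shiftEquiv (hR : RHSimple) : NT ≃ Pz where
  toFun ρ := ⟨(ρ : ℂ) - 1 / 2, Pz_of_NT hR ρ.2⟩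
  invFun p := ⟨(p : ℂ) + 1 / 2, NT_of_Pz p.2⟩
  left_inv ρ := Subtype.ext (sub_add_cancel _ _)
  right_inv p := Subtype.ext (add_sub_cancel_right _ _)

theorem im_sub_half (ρ : ℂ) : (ρ - 1 / 2).im = ρ.im := by
  rw [Complex.sub_im]; norm_num

theorem Ar_shift (ρ : ℂ) : ‖Ar (ρ - 1 / 2)‖ = 1 / ‖ρ * deriv riemannZeta ρ‖ := by
  unfold Ar
  rw [sub_add_cancel, norm_div, norm_one]

theorem Zd_shift (ρ : ℂ) : Zd (ρ - 1 / 2) = 1 / ‖deriv riemannZeta ρ‖ ^ 2 := by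
  unfold Zd
  rw [sub_add_cancel]

/-- the conclusion -/
theorem concl (hR : RHSimple) (hQ : GQ (fun p => ‖Ar p‖ₑ) ≠ ⊤) :
    Summable (fun ρ : NT => (1 / ‖(ρ : ℂ) * deriv riemannZeta ρ‖) ^ 2) ∧
    Tendsto (fun x : ℝ => II x / Real.log x) atTop
      (𝓝 (∑' ρ : NT, (1 / ‖(ρ : ℂ) * deriv riemannZeta ρ‖) ^ 2)) ∧
    ∃ C : ℝ, ∀ x : ℝ, 2 ≤ x → II x ≤ C * Real.log x := by
  have h1 : Summable (fun ρ : NT => (1 / ‖(ρ : ℂ) * deriv riemannZeta ρ‖) ^ 2) := by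
    have := (shiftEquiv hR).summable_iff.2 (Ar_summable hQ)
    refine this.congr fun ρ => ?_
    simp only [Function.comp_apply, shiftEquiv, Equiv.coe_fn_mk]
    rw [Ar_shift]
  have h2 : ∑' ρ : NT, (1 / ‖(ρ : ℂ) * deriv riemannZeta ρ‖) ^ 2 = ∑' p : Pz, ‖Ar p‖ ^ 2 := by
    rw [← (shiftEquiv hR).tsum_eq]
    refine tsum_congr fun ρ => ?_
    simp only [shiftEquiv, Equiv.coe_fn_mk]
    rw [Ar_shift]
  have h3 : Tendsto (fun x : ℝ => II x / Real.log x) atTop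
      (𝓝 (∑' ρ : NT, (1 / ‖(ρ : ℂ) * deriv riemannZeta ρ‖) ^ 2)) := by
    rw [h2]
    have h4 := (asym hR hQ).comp Real.tendsto_log_atTop
    refine h4.congr' ?_
    filter_upwards [eventually_ge_atTop 1] with x hx
    simp only [Function.comp_apply]
    rw [Pool.Agent.H295R2.II_eq hx]
  refine ⟨h1, h3, ?_⟩
  set S := ∑' ρ : NT, (1 / ‖(ρ : ℂ) * deriv riemannZeta ρ‖) ^ 2
  have h5 := h3.eventually (gt_mem_nhds (show S < S + 1 by linarith))
  obtain ⟨x0, hx0⟩ := eventually_atTop.1 h5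
  set x1 := max x0 2 with hx1
  have hx12 : (2 : ℝ) ≤ x1 := le_max_right _ _
  have hJ : 0 ≤ JJ (Real.log x1) := Pool.Agent.H295R2.JJ_nonneg _
  have hl2 : 0 < Real.log 2 := Real.log_pos (by norm_num)
  have hS0 : 0 ≤ S := tsum_nonneg fun _ => by positivity
  refine ⟨S + 1 + JJ (Real.log x1) / Real.log 2, fun x hx => ?_⟩
  have hlx : Real.log 2 ≤ Real.log x := Real.log_le_log (by norm_num) hx
  have hlx0 : 0 < Real.log x := by linarith
  rcases le_or_gt x1 x with h | h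
  · have h6 := hx0 x ((le_max_left _ _).trans h)
    rw [div_lt_iff₀ hlx0] at h6
    have : 0 ≤ JJ (Real.log x1) / Real.log 2 * Real.log x := by positivity
    linarith
  · rw [Pool.Agent.H295R2.II_eq (by linarith)]
    have h7 : JJ (Real.log x) ≤ JJ (Real.log x1) :=
      Pool.Agent.H295R2.JJ_mono (Real.log_le_log (by linarith) h.le)
    have h8 : JJ (Real.log x1) ≤ JJ (Real.log x1) / Real.log 2 * Real.log x := by
      rw [div_mul_eq_mul_div, le_div_iff₀ hl2]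
      exact mul_le_mul_of_nonneg_left hlx hJ
    have h9 : 0 ≤ (S + 1) * Real.log x := by positivity
    linarith

theorem concl_log (hR : RHSimple)
    (h : Summable (fun ρ : NT => (1 / ‖(ρ : ℂ) * deriv riemannZeta ρ‖) ^ 2 * Real.log (|(ρ : ℂ).im| + 3))) :
    GQ (fun p => ‖Ar p‖ₑ) ≠ ⊤ := by
  apply GQ_of_log
  rw [← (shiftEquiv hR).summable_iff]
  refine h.congr fun ρ => ?_
  simp only [Function.comp_apply, shiftEquiv, Equiv.coe_fn_mk]
  rw [Ar_shift, im_sub_half]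

theorem concl_J (hR : RHSimple) {C ε : ℝ} (hε : 0 < ε)
    (h : ∀ T : ℝ, 2 ≤ T → ∀ Z : Finset ℂ, (∀ ρ ∈ Z, ρ ∈ NT ∧ 0 < ρ.im ∧ ρ.im ≤ T) →
      ∑ ρ ∈ Z, 1 / ‖deriv riemannZeta ρ‖ ^ 2 ≤ C * T ^ 2 / Real.log T ^ (2 + ε)) :
    GQ (fun p => ‖Ar p‖ₑ) ≠ ⊤ := by
  classical
  apply GQ_of_log
  apply log_of_J hε (C := C)
  intro T hT Z hZ
  have h1 := h T hT (Z.image (· + 1 / 2)) (by
    intro ρ hρ
    obtain ⟨p, hp, rfl⟩ := Finset.mem_image.1 hρ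
    obtain ⟨h2, h3, h4⟩ := hZ p hp
    have h5 : (p + 1 / 2).im = p.im := by rw [Complex.add_im]; norm_num
    exact ⟨NT_of_Pz h2, by rw [h5]; exact h3, by rw [h5]; exact h4⟩)
  rw [Finset.sum_image fun p _ q _ h => add_right_cancel h] at h1
  exact h1

theorem concl_pairs (hR : RHSimple) {S : ℝ}
    (h : ∀ Z : Finset ℂ, (∀ ρ ∈ Z, ρ ∈ NT) →
      ∑ ρ ∈ Z, ∑ ρ' ∈ Z, (if |ρ.im - ρ'.im| ≤ 1 then
        (1 / ‖ρ * deriv riemannZeta ρ‖) * (1 / ‖ρ' * deriv riemannZeta ρ'‖) else 0) ≤ S) :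
    GQ (fun p => ‖Ar p‖ₑ) ≠ ⊤ := by
  classical
  apply GQ_of_pairs
  set g : Pz → Pz → ℝ := fun p q => if |(p : ℂ).im - (q : ℂ).im| ≤ 1 then ‖Ar p‖ * ‖Ar q‖ else 0 with hg
  have hg0 : ∀ p q, 0 ≤ g p q := fun p q => by
    simp only [hg]; split_ifs <;> positivity
  have e1 : ∀ p q : Pz, (if |(p : ℂ).im - (q : ℂ).im| ≤ 1 then ‖Ar p‖ₑ * ‖Ar q‖ₑ else 0) =
      ENNReal.ofReal (g p q) := by
    intro p q
    simp only [hg]
    split_ifs
    · rw [ENNReal.ofReal_mul (norm_nonneg _), ofReal_norm, ofReal_norm]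
    · rw [ENNReal.ofReal_zero]
  simp_rw [e1]
  refine ne_top_of_le_ne_top (b := ENNReal.ofReal S) ENNReal.ofReal_ne_top ?_
  rw [← ENNReal.tsum_prod, ENNReal.tsum_eq_iSup_sum]
  refine iSup_le fun T => ?_
  rw [← ENNReal.ofReal_sum_of_nonneg fun pq _ => hg0 pq.1 pq.2]
  apply ENNReal.ofReal_le_ofReal
  set U : Finset Pz := T.image Prod.fst ∪ T.image Prod.snd with hU
  have hTU : T ⊆ U ×ˢ U := by
    intro pq hpq
    rw [Finset.mem_product, hU]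
    exact ⟨Finset.mem_union_left _ (Finset.mem_image_of_mem _ hpq),
      Finset.mem_union_right _ (Finset.mem_image_of_mem _ hpq)⟩
  have hinj : Set.InjOn (fun p : Pz => (p : ℂ) + 1 / 2) U := fun p _ q _ h =>
    Subtype.ext (add_right_cancel h)
  have h1 := h (U.image fun p : Pz => (p : ℂ) + 1 / 2) (by
    intro ρ hρ
    obtain ⟨p, _, rfl⟩ := Finset.mem_image.1 hρ
    exact NT_of_Pz p.2)
  rw [Finset.sum_image hinj] at h1
  simp_rw [Finset.sum_image hinj] at h1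
  calc ∑ pq ∈ T, g pq.1 pq.2 ≤ ∑ pq ∈ U ×ˢ U, g pq.1 pq.2 :=
        Finset.sum_le_sum_of_subset_of_nonneg hTU fun _ _ _ => hg0 _ _
    _ = ∑ p ∈ U, ∑ q ∈ U, g p q := Finset.sum_product _ _ _
    _ ≤ S := by
        refine le_trans (le_of_eq ?_) h1
        refine Finset.sum_congr rfl fun p _ => Finset.sum_congr rfl fun q _ => ?_
        have h5 : ∀ p : ℂ, (p + 1 / 2).im = p.im := fun p => by rw [Complex.add_im]; norm_num
        have h6 : ∀ p : ℂ, ‖Ar p‖ = 1 / ‖(p + 1 / 2) * deriv riemannZeta (p + 1 / 2)‖ := by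
          intro p
          unfold Ar
          rw [norm_div, norm_one]
        simp only [hg, h5, h6]

end Pool.Agent.Helper90.WM
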