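import Pool.Agent.Helper90.WM.Lm

/-!
# Averages of `M(e^s) e^{-s/2}`
-/

set_option autoImplicit false

open Complex Filter Topology Set MeasureTheory H370
open Pool.Agent.H295R2 (Zs fz Mx mu m0 Nice Lap JJ avg phi)
open scoped ENNReal

namespace Pool.Agent.Helper90.WM

theorem Nice_ii {k : ℝ → ℂ} {C a u₀ : ℝ} (h : Nice k C a u₀) (x y : ℝ) :
    IntervalIntegrable k volume x y := by
  have h1 : IntervalIntegrable (fun u => C * Real.exp (a * u)) volume x y :=
    Continuous.intervalIntegrable (by fun_prop) _ _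
  refine h1.mono_fun h.meas.aestronglyMeasurable (Eventually.of_forall fun u => ?_)
  simp only
  rw [Real.norm_eq_abs]
  exact (h.bound u).trans (le_abs_self _)

theorem Nice_avg_continuous {k : ℝ → ℂ} {C a u₀ : ℝ} (h : Nice k C a u₀) (η : ℝ) :
    Continuous (avg η k) := by
  unfold Pool.Agent.H295R2.avg
  refine continuous_const.mul ?_
  have h1 : ∀ u : ℝ, ∫ v in (0:ℝ)..η, k (u + v) = (∫ v in (0:ℝ)..(u + η), k v) - ∫ v in (0:ℝ)..u, k v := by
    intro u
    rw [intervalIntegral.integral_comp_add_left (fun v => k v) u, add_zero,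
      intervalIntegral.integral_interval_sub_left (Nice_ii h _ _) (Nice_ii h _ _)]
  simp_rw [h1]
  have h2 := intervalIntegral.continuous_primitive (μ := volume) (fun a b => Nice_ii h a b) 0
  exact (h2.comp (continuous_id.add continuous_const)).sub h2

theorem Nice_avg {k : ℝ → ℂ} {C a u₀ η : ℝ} (h : Nice k C a u₀) (ha : 0 ≤ a) (hη : 0 < η) :
    Nice (avg η k) (C * Real.exp (a * η)) a (u₀ - η) where
  meas := (Nice_avg_continuous h η).measurable
  bound := by
    intro u
    have hC := h.C_nonneg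
    have h2 : ‖∫ v in (0:ℝ)..η, k (u + v)‖ ≤ (C * Real.exp (a * η) * Real.exp (a * u)) * |η - 0| := by
      refine intervalIntegral.norm_integral_le_of_norm_le_const fun v hv => ?_
      rw [uIoc_of_le hη.le] at hv
      refine (h.bound _).trans ?_
      rw [mul_assoc, ← Real.exp_add]
      apply mul_le_mul_of_nonneg_left _ hC
      apply Real.exp_le_exp.2
      nlinarith [hv.2]
    rw [sub_zero, abs_of_pos hη] at h2
    unfold Pool.Agent.H295R2.avg
    rw [norm_mul, norm_div, norm_one, Complex.norm_real, Real.norm_of_nonneg hη.le]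
    calc 1 / η * ‖∫ v in (0:ℝ)..η, k (u + v)‖ ≤ 1 / η * ((C * Real.exp (a * η) * Real.exp (a * u)) * η) := by
          gcongr
      _ = _ := by field_simp
  zero := by
    intro u hu
    unfold Pool.Agent.H295R2.avg
    have : ∫ v in (0:ℝ)..η, k (u + v) = ∫ v in (0:ℝ)..η, (0:ℂ) := by
      apply intervalIntegral.integral_congr
      intro v hv
      rw [uIcc_of_le hη.le] at hv
      exact h.zero _ (by linarith [hv.2])
    rw [this]
    simp

theorem Nice_Lap_avg {k : ℝ → ℂ} {C a u₀ η : ℝ} (h : Nice k C a u₀) (ha : 0 ≤ a) (hη : 0 < η) {s : ℂ}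
    (hs : a < s.re) : Lap (avg η k) s = phi η s * Lap k s := by
  have hs0 : s ≠ 0 := by
    rintro rfl
    rw [Complex.zero_re] at hs
    linarith
  unfold Pool.Agent.H295R2.Lap Pool.Agent.H295R2.avg
  have h1 : ∀ u : ℝ, (1 / (η : ℂ) * ∫ v in (0:ℝ)..η, k (u + v)) * Complex.exp (-(s * u)) =
      (1 / (η : ℂ)) * ∫ v in Ioc (0:ℝ) η, k (u + v) * Complex.exp (-(s * u)) := by
    intro u
    rw [intervalIntegral.integral_of_le hη.le, mul_assoc, ← integral_mul_const]
  simp_rw [h1]
  rw [integral_const_mul]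
  have hmeas : AEStronglyMeasurable (Function.uncurry fun (u v : ℝ) => k (u + v) * Complex.exp (-(s * u)))
      (volume.prod (volume.restrict (Ioc (0:ℝ) η))) := by
    refine Measurable.aestronglyMeasurable ?_
    refine Measurable.mul (h.meas.comp (measurable_fst.add measurable_snd)) ?_
    have : Continuous (fun p : ℝ × ℝ => Complex.exp (-(s * p.1))) := by fun_prop
    exact this.measurable
  have hint : Integrable (Function.uncurry fun (u v : ℝ) => k (u + v) * Complex.exp (-(s * u)))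
      (volume.prod (volume.restrict (Ioc (0:ℝ) η))) := by
    rw [integrable_prod_iff' hmeas]
    refine ⟨Eventually.of_forall fun v => h.shift_integrable hs v, ?_⟩
    simp only [Function.uncurry_apply_pair]
    simp_rw [Pool.Agent.H295R2.Nice.shift_norm]
    have : Continuous (fun v : ℝ => Real.exp (s.re * v) * ∫ u : ℝ, ‖k u * Complex.exp (-(s * u))‖) := by
      fun_prop
    exact (this.integrableOn_Icc (a := 0) (b := η)).mono_set Ioc_subset_Icc_self
  rw [integral_integral_swap hint]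
  simp_rw [h.Lap_shift s]
  rw [integral_mul_const, ← intervalIntegral.integral_of_le hη.le, integral_exp_mul_complex hs0]
  unfold Pool.Agent.H295R2.phi Pool.Agent.H295R2.Lap
  have hη' : (η : ℂ) ≠ 0 := by exact_mod_cast hη.ne'
  simp only [Complex.ofReal_zero, mul_zero, Complex.exp_zero]
  field_simp

/-- the smoothing factor, as an entire function -/
noncomputable def ph (η : ℝ) (w : ℂ) : ℂ := dslope Complex.exp 0 (w * η)

theorem ph_diff (η : ℝ) : Differentiable ℂ (ph η) := by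
  have h1 : Differentiable ℂ (dslope Complex.exp 0) := by
    rw [← differentiableOn_univ, Complex.differentiableOn_dslope univ_mem]
    exact Complex.differentiable_exp.differentiableOn
  exact h1.comp (by fun_prop)

theorem ph_eq {η : ℝ} (hη : 0 < η) {w : ℂ} (hw : w ≠ 0) : ph η w = phi η w := by
  have hη' : (η : ℂ) ≠ 0 := by exact_mod_cast hη.ne'
  unfold ph Pool.Agent.H295R2.phi
  rw [dslope_of_ne _ (mul_ne_zero hw hη'), slope_def_field, Complex.exp_zero, sub_zero]

theorem ds_bound {z : ℂ} (hz : z.re ≤ 1 / 4) : ‖dslope Complex.exp 0 z‖ ≤ 3 ∧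
    ‖dslope Complex.exp 0 z‖ * ‖z‖ ≤ 3 := by
  rcases eq_or_ne z 0 with rfl | h0
  · rw [dslope_same]
    simp
  have hn : 0 < ‖z‖ := norm_pos_iff.2 h0
  rw [dslope_of_ne _ h0, slope_def_field, Complex.exp_zero, sub_zero, norm_div]
  have h1 : ‖Complex.exp z - 1‖ ≤ 3 := by
    refine (norm_sub_le _ _).trans ?_
    rw [Complex.norm_exp, norm_one]
    have h2 : Real.exp z.re ≤ Real.exp (1 / 2) := Real.exp_le_exp.2 (by linarith)
    have h4 : Real.exp (1 / 2) ≤ 2 := by
      have := Real.exp_one_lt_d9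
      have h5 : Real.exp (1 / 2) ^ 2 = Real.exp 1 := by
        rw [← Real.exp_nat_mul]; norm_num
      nlinarith [Real.exp_pos (1 / 2)]
    linarith
  constructor
  · rw [div_le_iff₀ hn]
    rcases le_or_gt ‖z‖ 1 with h | h
    · have := Complex.norm_exp_sub_one_le h
      linarith
    · linarith
  · rw [div_mul_cancel₀ _ hn.ne']
    exact h1

theorem ph_bound {η : ℝ} (hη : 0 < η) (hη1 : η ≤ 1) {w : ℂ} (hw : |w.re| ≤ 1 / 4) : ‖ph η w‖ ≤ 3 := by
  refine (ds_bound ?_).1
  rw [Complex.re_mul_ofReal]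
  have := (abs_le.1 hw).2
  nlinarith

theorem ph_bound' {η : ℝ} (hη : 0 < η) {p : ℂ} (hp : p.re = 0) : ‖ph η p‖ * (η * |p.im|) ≤ 3 := by
  have h1 := (ds_bound (z := p * η) (by rw [Complex.re_mul_ofReal, hp, zero_mul]; norm_num)).2
  have h2 : ‖p * (η : ℂ)‖ = η * |p.im| := by
    rw [norm_mul, Complex.norm_real, Real.norm_of_nonneg hη.le, mul_comm]
    congr 1
    rw [← Complex.abs_im_eq_norm.2 hp]
  rw [h2] at h1
  exact h1

theorem ph_weight {L : ℝ} (hL : 1 ≤ L) {p : ℂ} (hp : p.re = 0) :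
    ‖ph (Real.exp (-L)) p‖ ^ 2 * Real.log (|p.im| + 3) ≤ 50 * L := by
  set η := Real.exp (-L) with hη
  have hη0 : 0 < η := Real.exp_pos _
  have hη1 : η ≤ 1 := Real.exp_le_one_iff.2 (by linarith)
  have h3 : ‖ph η p‖ ≤ 3 := ph_bound hη0 hη1 (by rw [hp]; norm_num)
  have hn := norm_nonneg (ph η p)
  have hηe : η * Real.exp L = 1 := by rw [hη, ← Real.exp_add]; simp
  have hlog4 : Real.log 4 ≤ 2 := by
    have : Real.log 4 = 2 * Real.log 2 := by
      rw [show (4 : ℝ) = 2 ^ 2 by norm_num, Real.log_pow]; norm_num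
    rw [this]
    linarith [Real.log_two_lt_d9]
  have hlog0 : 0 ≤ Real.log (|p.im| + 3) := Real.log_nonneg (by linarith [abs_nonneg p.im])
  have heL : 1 ≤ Real.exp L := Real.one_le_exp (by linarith)
  rcases le_or_gt |p.im| (Real.exp L) with h | h
  · have h4 : Real.log (|p.im| + 3) ≤ L + 2 := by
      calc Real.log (|p.im| + 3) ≤ Real.log (4 * Real.exp L) :=
            Real.log_le_log (by positivity) (by linarith)
        _ = Real.log 4 + L := by rw [Real.log_mul (by norm_num) (Real.exp_pos _).ne', Real.log_exp]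
        _ ≤ _ := by linarith
    have h5 : ‖ph η p‖ ^ 2 ≤ 9 := by nlinarith
    calc ‖ph η p‖ ^ 2 * Real.log (|p.im| + 3) ≤ 9 * (L + 2) := by gcongr
      _ ≤ _ := by linarith
  · set u := η * |p.im| with hu
    have hu1 : 1 < u := by
      rw [hu, ← hηe]
      exact mul_lt_mul_of_pos_left h hη0
    have h6 := ph_bound' hη0 hp
    have hgu : |p.im| = u * Real.exp L := by
      rw [hu]
      calc |p.im| = |p.im| * (η * Real.exp L) := by rw [hηe, mul_one]
        _ = _ := by ring
    have h4 : Real.log (|p.im| + 3) ≤ 2 + u + L := by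
      calc Real.log (|p.im| + 3) ≤ Real.log (4 * (u * Real.exp L)) := by
            apply Real.log_le_log (by positivity)
            rw [← hgu]
            linarith
        _ = Real.log 4 + (Real.log u + L) := by
            rw [Real.log_mul (by norm_num) (by positivity), Real.log_mul (by positivity) (Real.exp_pos _).ne',
              Real.log_exp]
        _ ≤ _ := by
            have := Real.log_le_sub_one_of_pos (show 0 < u by linarith)
            linarith
    have h7 : ‖ph η p‖ ^ 2 * u ^ 2 ≤ 9 := by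
      rw [← mul_pow]
      have : 0 ≤ ‖ph η p‖ * u := by positivity
      nlinarith
    have h8 : Real.log (|p.im| + 3) ≤ (3 + L) * u ^ 2 := by
      have a1 : u ≤ u ^ 2 := by nlinarith
      have a2 : 0 ≤ (2 + L) * (u ^ 2 - 1) := mul_nonneg (by linarith) (by nlinarith)
      nlinarith
    calc ‖ph η p‖ ^ 2 * Real.log (|p.im| + 3) ≤ ‖ph η p‖ ^ 2 * ((3 + L) * u ^ 2) := by gcongr
      _ = (‖ph η p‖ ^ 2 * u ^ 2) * (3 + L) := by ring
      _ ≤ 9 * (3 + L) := by gcongr
      _ ≤ _ := by linarith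

/-- short variation of `M` -/
theorem Mx_var {x y : ℝ} (hx : 0 ≤ x) (hxy : x ≤ y) : |Mx y - Mx x| ≤ y - x + 1 := by
  unfold Pool.Agent.H295R2.Mx
  have hf : ⌊x⌋₊ ≤ ⌊y⌋₊ := Nat.floor_le_floor hxy
  have h1 : Finset.Icc 1 ⌊y⌋₊ = Finset.Icc 1 ⌊x⌋₊ ∪ Finset.Ioc ⌊x⌋₊ ⌊y⌋₊ := by
    ext m
    simp only [Finset.mem_Icc, Finset.mem_union, Finset.mem_Ioc]
    omega
  have h2 : Disjoint (Finset.Icc 1 ⌊x⌋₊) (Finset.Ioc ⌊x⌋₊ ⌊y⌋₊) := by
    rw [Finset.disjoint_left]
    intro m hm hm'
    rw [Finset.mem_Icc] at hm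
    rw [Finset.mem_Ioc] at hm'
    omega
  rw [h1, Finset.sum_union h2, add_sub_cancel_left]
  calc |∑ k ∈ Finset.Ioc ⌊x⌋₊ ⌊y⌋₊, mu k| ≤ ∑ k ∈ Finset.Ioc ⌊x⌋₊ ⌊y⌋₊, |mu k| :=
        Finset.abs_sum_le_sum_abs _ _
    _ ≤ ∑ k ∈ Finset.Ioc ⌊x⌋₊ ⌊y⌋₊, (1 : ℝ) :=
        Finset.sum_le_sum fun k _ => Pool.Agent.H295R2.abs_mu_le k
    _ = (⌊y⌋₊ : ℝ) - ⌊x⌋₊ := by
        rw [Finset.sum_const, Nat.card_Ioc, nsmul_eq_mul, mul_one, Nat.cast_sub hf]
    _ ≤ _ := by
        have a1 := Nat.floor_le (hx.trans hxy)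
        have a2 := Nat.lt_floor_add_one x
        linarith

theorem m0_var {s v η : ℝ} (hs : 0 ≤ s) (hv : 0 ≤ v) (hvη : v ≤ η) (hη1 : η ≤ 1)
    (hηs : η * Real.exp s ≤ 1) : ‖m0 (s + v) - m0 s‖ ≤ 4 * Real.exp (-(s / 2)) := by
  have hes : 0 < Real.exp s := Real.exp_pos s
  have h1 : Real.exp v - 1 ≤ 2 * v := by
    have h2 : Real.exp v ≤ 1 + 2 * v := by
      have := Real.abs_exp_sub_one_le (x := v) (by rw [abs_of_nonneg hv]; linarith)
      rw [abs_of_nonneg hv] at this
      have h3 := le_abs_self (Real.exp v - 1)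
      linarith
    linarith
  have h2 : |Mx (Real.exp (s + v)) - Mx (Real.exp s)| ≤ 3 := by
    have h3 := Mx_var hes.le (Real.exp_le_exp.2 (by linarith : s ≤ s + v))
    have h4 : Real.exp (s + v) - Real.exp s = Real.exp s * (Real.exp v - 1) := by
      rw [Real.exp_add]; ring
    rw [h4] at h3
    have h5 : Real.exp s * (Real.exp v - 1) ≤ 2 * (η * Real.exp s) := by
      calc Real.exp s * (Real.exp v - 1) ≤ Real.exp s * (2 * v) := by gcongr
        _ ≤ Real.exp s * (2 * η) := by gcongr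
        _ = _ := by ring
    linarith
  have h6 : m0 (s + v) - m0 s = (((Mx (Real.exp (s + v)) - Mx (Real.exp s)) * Real.exp (-((s + v) / 2)) +
      Mx (Real.exp s) * (Real.exp (-((s + v) / 2)) - Real.exp (-(s / 2))) : ℝ) : ℂ) := by
    unfold Pool.Agent.H295R2.m0
    rw [← Complex.ofReal_sub]
    congr 1
    ring
  rw [h6, Complex.norm_real, Real.norm_eq_abs]
  refine (abs_add_le _ _).trans ?_
  rw [abs_mul, abs_mul, abs_of_pos (Real.exp_pos _)]
  have h7 : Real.exp (-((s + v) / 2)) ≤ Real.exp (-(s / 2)) := Real.exp_le_exp.2 (by linarith)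
  have h8 : |Real.exp (-((s + v) / 2)) - Real.exp (-(s / 2))| ≤ Real.exp (-(s / 2)) * η := by
    rw [abs_sub_comm, abs_of_nonneg (by linarith)]
    have h9 : Real.exp (-((s + v) / 2)) = Real.exp (-(s / 2)) * Real.exp (-(v / 2)) := by
      rw [← Real.exp_add]; ring_nf
    rw [h9]
    have h10 := Real.add_one_le_exp (-(v / 2))
    have h11 : 0 < Real.exp (-(s / 2)) := Real.exp_pos _
    nlinarith
  have h12 : |Mx (Real.exp s)| ≤ Real.exp s := Pool.Agent.H295R2.abs_Mx_le hes.le
  calc |Mx (Real.exp (s + v)) - Mx (Real.exp s)| * Real.exp (-((s + v) / 2)) +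
        |Mx (Real.exp s)| * |Real.exp (-((s + v) / 2)) - Real.exp (-(s / 2))|
      ≤ 3 * Real.exp (-(s / 2)) + Real.exp s * (Real.exp (-(s / 2)) * η) := by gcongr
    _ = (3 + η * Real.exp s) * Real.exp (-(s / 2)) := by ring
    _ ≤ _ := by
        have h11 : 0 < Real.exp (-(s / 2)) := Real.exp_pos _
        nlinarith

theorem avg_var {C a : ℝ} (h : Nice m0 C a 0) {s η : ℝ} (hs : 0 ≤ s) (hη : 0 < η) (hη1 : η ≤ 1)
    (hηs : η * Real.exp s ≤ 1) : ‖avg η m0 s - m0 s‖ ≤ 4 * Real.exp (-(s / 2)) := by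
  have hη' : (η : ℂ) ≠ 0 := by exact_mod_cast hη.ne'
  have hi : IntervalIntegrable (fun v => m0 (s + v)) volume 0 η := by
    have := (Nice_ii h (s + 0) (s + η)).comp_add_left s
    simpa using this
  have e1 : avg η m0 s - m0 s = (1 / (η : ℂ)) * ∫ v in (0:ℝ)..η, (m0 (s + v) - m0 s) := by
    unfold Pool.Agent.H295R2.avg
    rw [intervalIntegral.integral_sub hi (by simp), intervalIntegral.integral_const, sub_zero,
      Complex.real_smul, mul_sub]
    congr 1
    field_simp
  rw [e1, norm_mul, norm_div, norm_one, Complex.norm_real, Real.norm_of_nonneg hη.le]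
  have h2 : ‖∫ v in (0:ℝ)..η, (m0 (s + v) - m0 s)‖ ≤ (4 * Real.exp (-(s / 2))) * |η - 0| := by
    refine intervalIntegral.norm_integral_le_of_norm_le_const fun v hv => ?_
    rw [uIoc_of_le hη.le] at hv
    exact m0_var hs hv.1.le hv.2 hη1 hηs
  rw [sub_zero, abs_of_pos hη] at h2
  calc 1 / η * ‖∫ v in (0:ℝ)..η, (m0 (s + v) - m0 s)‖ ≤ 1 / η * ((4 * Real.exp (-(s / 2))) * η) := by gcongr
    _ = _ := by field_simp

end Pool.Agent.Helper90.WM
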