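import Pool.Agent.Helper90.WM.Hei

/-!
# The explicit formula with a Gaussian kernel
-/

set_option autoImplicit false

open Complex Filter Topology Set MeasureTheory H370
open Pool.Agent.H295R2 (Zs fz)
open scoped ENNReal

namespace Pool.Agent.Helper90.WM

/-- the kernel -/
noncomputable def KK (w : ℂ) : ℂ := Complex.exp (w ^ 2) / w

/-- the zeros of the zeta function on the critical line, shifted to the imaginary axis -/
def Pz : Set ℂ := {p | p.re = 0 ∧ riemannZeta (p + 1 / 2) = 0}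

/-- the residue of `1 / (s ζ(s))` -/
noncomputable def Ar (p : ℂ) : ℂ := 1 / ((p + 1 / 2) * deriv riemannZeta (p + 1 / 2))

theorem Pz_Zs {p : ℂ} (hp : p ∈ Pz) : Zs (p + 1 / 2) = 0 := by
  have hne1 : p + 1 / 2 ≠ 1 := by
    intro h
    have := congrArg Complex.re h
    norm_num [hp.1] at this
  rw [← Pool.Agent.H295R2.Zs_eq hne1, hp.2, mul_zero]

theorem Zs_shift_diff : Differentiable ℂ (fun w : ℂ => Zs (w + 1 / 2)) :=
  Pool.Agent.H295R2.Zs_differentiable.comp (by fun_prop)

theorem Pz_fin {K : Set ℂ} (hK : IsCompact K) : (K ∩ Pz).Finite := by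
  refine (finite_zeros Zs_shift_diff (z₁ := 1) ?_ hK).subset fun p hp => ⟨hp.1, Pz_Zs hp.2⟩
  exact Pool.Agent.H295R2.Zs_ne_zero_of_one_le (by norm_num)

theorem Pz_countable : Pz.Countable := by
  have h : Pz ⊆ ⋃ n : ℕ, (Metric.closedBall (0 : ℂ) n ∩ Pz) := by
    intro p hp
    obtain ⟨n, hn⟩ := exists_nat_ge ‖p‖
    exact mem_iUnion.2 ⟨n, by simpa using hn, hp⟩
  exact (countable_iUnion fun n : ℕ => (Pz_fin (isCompact_closedBall 0 (n : ℝ))).countable).mono h

instance : Countable Pz := Pz_countable.to_subtype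

/-- the zeros up to height `T` -/
noncomputable def below (T : ℝ) : Finset ℂ :=
  (Pz_fin (isCompact_Icc.reProdIm (isCompact_Icc (a := -T) (b := T)) : IsCompact
    (Set.Icc (-(1 / 4) : ℝ) (1 / 4) ×ℂ Set.Icc (-T) T))).toFinset

theorem mem_below {T : ℝ} {p : ℂ} : p ∈ below T ↔ p ∈ Pz ∧ |p.im| ≤ T := by
  unfold below
  rw [Set.Finite.mem_toFinset, abs_le]
  constructor
  · rintro ⟨h1, h2⟩
    exact ⟨h2, h1.2⟩
  · rintro ⟨h1, h2⟩
    refine ⟨⟨?_, h2⟩, h1⟩
    show p.re ∈ Set.Icc (-(1 / 4) : ℝ) (1 / 4)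
    rw [h1.1]
    constructor <;> norm_num

/-- the integrand -/
noncomputable def Ph (φ : ℂ → ℂ) (z w : ℂ) : ℂ := F w * φ w * (Complex.exp ((w - z) ^ 2) / (w - z))

/-- the residue theorem -/
theorem residues (hR : RHSimple) {φ : ℂ → ℂ} (hφ : Differentiable ℂ φ) {z : ℂ} (h0 : 0 < z.re)
    (h1 : z.re < 1 / 4) {U : ℝ} (hU0 : 0 < U) (hU : |z.im| < U)
    (hgood : ∀ x ∈ Set.Icc (-(1 / 4) : ℝ) (1 / 4), ∀ e : ℝ, e = 1 ∨ e = -1 →
      Zs ((x : ℂ) + (e * U : ℝ) * I + 1 / 2) ≠ 0) :
    RI (-(1 / 4)) (1 / 4) (-U) U (Ph φ z) =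
      2 * Real.pi * I * (F z * φ z - ∑ p ∈ below U, Ar p * φ p * KK (z - p)) := by
  classical
  have hzn : z ∉ below U := by
    intro h
    have := (mem_below.1 h).1.1
    linarith
  have hzU := abs_lt.1 hU
  -- zeros in the closed rectangle
  have hzero : ∀ w ∈ Set.Icc (-(1 / 4) : ℝ) (1 / 4) ×ℂ Set.Icc (-U) U, Zs (w + 1 / 2) = 0 →
      w ∈ below U ∧ w ∈ Set.Ioo (-(1 / 4) : ℝ) (1 / 4) ×ℂ Set.Ioo (-U) U := by
    intro w hw hz
    obtain ⟨h2, h3, _⟩ := zero_line hR (w := w) (by linarith [hw.1.1]) hz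
    have him : w.im ∈ Set.Icc (-U) U := hw.2
    refine ⟨mem_below.2 ⟨⟨h2, h3⟩, abs_le.2 him⟩, ?_, ?_⟩
    · show w.re ∈ Set.Ioo (-(1 / 4) : ℝ) (1 / 4)
      rw [h2]
      constructor <;> norm_num
    · show w.im ∈ Set.Ioo (-U) U
      have e0 : w = (0 : ℝ) + (w.im : ℝ) * I := by
        apply Complex.ext <;> simp [h2]
      refine ⟨lt_of_le_of_ne him.1 ?_, lt_of_le_of_ne him.2 ?_⟩
      · intro h
        apply hgood 0 ⟨by norm_num, by norm_num⟩ (-1) (Or.inr rfl)
        rw [neg_one_mul, h, ← e0]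
        exact hz
      · intro h
        apply hgood 0 ⟨by norm_num, by norm_num⟩ 1 (Or.inl rfl)
        rw [one_mul, ← h, ← e0]
        exact hz
  set r : ℂ → ℂ := fun p => if p = z then F z * φ z else
    Ar p * φ p * (Complex.exp ((p - z) ^ 2) / (p - z)) with hr
  have hcont : ∀ w : ℂ, w ≠ z → ContinuousAt (fun w => φ w * (Complex.exp ((w - z) ^ 2) / (w - z))) w := by
    intro w hw
    refine hφ.continuous.continuousAt.mul (ContinuousAt.div (by fun_prop) (by fun_prop)
      (sub_ne_zero.2 hw))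
  have key := rect_residues (a := -(1 / 4)) (b := 1 / 4) (c := -U) (d := U) (by norm_num) (by linarith)
    (insert z (below U)) (Ph φ z) r ?_ ?_ ?_
  · rw [key, Finset.sum_insert hzn]
    congr 1
    have e1 : r z = F z * φ z := by simp [hr]
    rw [e1, sub_eq_add_neg, ← Finset.sum_neg_distrib]
    congr 1
    refine Finset.sum_congr rfl fun p hp => ?_
    have hpz : p ≠ z := fun h => hzn (h ▸ hp)
    simp only [hr, if_neg hpz, KK]
    have e2 : (p - z) ^ 2 = (z - p) ^ 2 := by ring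
    rw [e2, ← neg_sub z p, div_neg, mul_neg]
  · intro p hp
    rcases Finset.mem_insert.1 hp with h | h
    · rw [h]
      exact ⟨⟨by linarith, h1⟩, hzU⟩
    · obtain ⟨h2, h3⟩ := mem_below.1 h
      refine (hzero p ⟨?_, abs_le.1 h3⟩ (Pz_Zs h2)).2
      show p.re ∈ Set.Icc (-(1 / 4) : ℝ) (1 / 4)
      rw [h2.1]
      constructor <;> norm_num
  · intro w hw hwP
    have hwz : w ≠ z := fun h => hwP (h ▸ Finset.mem_insert_self _ _)
    have hwb : w ∉ below U := fun h => hwP (Finset.mem_insert_of_mem h)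
    have hZ : Zs (w + 1 / 2) ≠ 0 := fun h => hwb (hzero w hw h).1
    have h2 : DifferentiableAt ℂ F w := F_diff (by linarith [hw.1.1]) hZ
    unfold Ph
    refine (h2.mul hφ.differentiableAt).mul (DifferentiableAt.div (by fun_prop) (by fun_prop)
      (sub_ne_zero.2 hwz))
  · intro p hp
    rcases Finset.mem_insert.1 hp with h | h
    · subst h
      simp only [hr, if_true]
      have hZ : Zs (p + 1 / 2) ≠ 0 := by
        intro hz
        have := (zero_line hR (w := p) (by linarith) hz).1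
        linarith
      have h2 : ContinuousAt (fun w => F w * φ w * Complex.exp ((w - p) ^ 2)) p := by
        refine ((F_diff (by linarith) hZ).continuousAt.mul hφ.continuous.continuousAt).mul (by fun_prop)
      have h3 : Tendsto (fun w => F w * φ w * Complex.exp ((w - p) ^ 2)) (𝓝[≠] p)
          (𝓝 (F p * φ p)) := by
        have h4 := h2.tendsto
        rw [sub_self, zero_pow two_ne_zero, Complex.exp_zero, mul_one] at h4
        exact h4.mono_left nhdsWithin_le_nhds
      refine h3.congr' ?_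
      filter_upwards [self_mem_nhdsWithin] with w hw
      have hw' : w - p ≠ 0 := sub_ne_zero.2 hw
      unfold Ph
      field_simp
    · have hpz : p ≠ z := fun he => hzn (he ▸ h)
      simp only [hr, if_neg hpz]
      obtain ⟨h2, h3⟩ := mem_below.1 h
      have hd : deriv riemannZeta (p + 1 / 2) ≠ 0 :=
        (hR _ h2.2 (by rw [Complex.add_re, h2.1]; norm_num) (by rw [Complex.add_re, h2.1]; norm_num)).2
      have h4 := (F_res h2.1 h2.2 hd).mul ((hcont p hpz).tendsto.mono_left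
        (nhdsWithin_le_nhds (s := {p}ᶜ)))
      unfold Ar
      rw [mul_assoc]
      refine h4.congr' (Eventually.of_forall fun w => ?_)
      unfold Ph
      ring

end Pool.Agent.Helper90.WM
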