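import Pool.Agent.Helper90.WM.EF

/-!
# The explicit formula: passage to the limit
-/

set_option autoImplicit false

open Complex Filter Topology Set MeasureTheory H370
open Pool.Agent.H295R2 (Zs fz)
open scoped ENNReal

namespace Pool.Agent.Helper90.WM

theorem norm_ker_le {z w : ℂ} {δ : ℝ} (hδ : 0 < δ) (h1 : |w.re - z.re| ≤ 1) (h2 : δ ≤ ‖w - z‖) :
    ‖Complex.exp ((w - z) ^ 2) / (w - z)‖ ≤ Real.exp 1 / δ * Real.exp (-(w.im - z.im) ^ 2) := by
  rw [norm_div, Complex.norm_exp]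
  have e1 : ((w - z) ^ 2).re = (w.re - z.re) ^ 2 - (w.im - z.im) ^ 2 := by
    rw [sq, Complex.mul_re, Complex.sub_re, Complex.sub_im]; ring
  rw [e1]
  have h3 : (w.re - z.re) ^ 2 ≤ 1 := by
    rw [← sq_abs]
    nlinarith [abs_nonneg (w.re - z.re)]
  have h4 : Real.exp ((w.re - z.re) ^ 2 - (w.im - z.im) ^ 2) ≤ Real.exp 1 * Real.exp (-(w.im - z.im) ^ 2) := by
    rw [← Real.exp_add]
    exact Real.exp_le_exp.2 (by linarith)
  calc Real.exp ((w.re - z.re) ^ 2 - (w.im - z.im) ^ 2) / ‖w - z‖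
      ≤ (Real.exp 1 * Real.exp (-(w.im - z.im) ^ 2)) / δ := by gcongr
    _ = _ := by ring

theorem rpow_shift (t y : ℝ) :
    (1 + |y|) ^ (-(3 / 4) : ℝ) ≤ (1 + |t|) ^ (-(3 / 4) : ℝ) * (1 + |y - t|) := by
  have hy : 0 < 1 + |y| := by positivity
  have ht : 0 < 1 + |t| := by positivity
  have hyt : 1 ≤ 1 + |y - t| := by linarith [abs_nonneg (y - t)]
  have h1 : 1 + |t| ≤ (1 + |y|) * (1 + |y - t|) := by
    have h2 : |t| ≤ |y| + |y - t| := by
      have := abs_sub_abs_le_abs_sub t y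
      rw [abs_sub_comm] at this
      linarith
    nlinarith [abs_nonneg y, abs_nonneg (y - t)]
  have h3 : (1 + |t|) ^ (3 / 4 : ℝ) ≤ (1 + |y|) ^ (3 / 4 : ℝ) * (1 + |y - t|) := by
    calc (1 + |t|) ^ (3 / 4 : ℝ) ≤ ((1 + |y|) * (1 + |y - t|)) ^ (3 / 4 : ℝ) :=
          Real.rpow_le_rpow ht.le h1 (by norm_num)
      _ = (1 + |y|) ^ (3 / 4 : ℝ) * (1 + |y - t|) ^ (3 / 4 : ℝ) :=
          Real.mul_rpow hy.le (by linarith)
      _ ≤ (1 + |y|) ^ (3 / 4 : ℝ) * (1 + |y - t|) ^ (1 : ℝ) :=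
          mul_le_mul_of_nonneg_left (Real.rpow_le_rpow_of_exponent_le hyt (by norm_num)) (by positivity)
      _ = _ := by rw [Real.rpow_one]
  rw [Real.rpow_neg hy.le, Real.rpow_neg ht.le]
  have h4 : 0 < (1 + |y|) ^ (3 / 4 : ℝ) := by positivity
  have h5 : 0 < (1 + |t|) ^ (3 / 4 : ℝ) := by positivity
  rw [inv_mul_eq_div, le_div_iff₀ h5, inv_mul_le_iff₀ h4]
  exact h3

theorem gauss_two (u : ℝ) : (1 + |u|) * Real.exp (-u ^ 2) ≤ 2 * Real.exp (-(1 / 2) * u ^ 2) := by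
  have h1 : 1 + |u| ≤ 2 * Real.exp (1 / 2 * u ^ 2) := by
    have h2 := Real.add_one_le_exp (1 / 2 * u ^ 2)
    have h3 : |u| ≤ 1 + u ^ 2 := by
      rw [← sq_abs u]
      nlinarith [sq_nonneg (|u| - 1), sq_nonneg (|u|)]
    linarith
  calc (1 + |u|) * Real.exp (-u ^ 2) ≤ 2 * Real.exp (1 / 2 * u ^ 2) * Real.exp (-u ^ 2) :=
        mul_le_mul_of_nonneg_right h1 (Real.exp_pos _).le
    _ = _ := by rw [mul_assoc, ← Real.exp_add]; ring_nf

theorem log_sq_tendsto (C s B : ℝ) (hC : 0 < C) :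
    Tendsto (fun n : ℕ => B * (C * Real.exp (C * Real.log n ^ 2)) * Real.exp (-((n : ℝ) - s) ^ 2)) atTop
      (𝓝 0) := by
  have h1 : ∀ᶠ n : ℕ in atTop, C * Real.log n ^ 2 - ((n : ℝ) - s) ^ 2 ≤ -(n : ℝ) := by
    have h2 : ∀ᶠ x : ℝ in atTop, ‖Real.log x ^ 2‖ ≤ (1 / C) * ‖x‖ := by
      have := Real.isLittleO_pow_log_id_atTop (n := 2)
      exact this.bound (by positivity)
    have h3 := tendsto_natCast_atTop_atTop.eventually h2
    have h4 : ∀ᶠ n : ℕ in atTop, |s| * 2 + 4 ≤ (n : ℝ) :=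
      tendsto_natCast_atTop_atTop.eventually (eventually_ge_atTop (|s| * 2 + 4))
    filter_upwards [h3, h4] with n h5 h6
    have h7 : Real.log n ^ 2 ≤ 1 / C * n := by
      have h8 := (le_abs_self _).trans h5
      rwa [Real.norm_eq_abs, abs_of_nonneg (Nat.cast_nonneg n)] at h8
    have h8 : C * Real.log n ^ 2 ≤ n := by
      calc C * Real.log n ^ 2 ≤ C * (1 / C * n) := mul_le_mul_of_nonneg_left h7 hC.le
        _ = n := by field_simp
    have h9 : (n : ℝ) / 2 + 2 ≤ (n : ℝ) - s := by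
      have := le_abs_self s
      linarith
    have h10 : ((n : ℝ) / 2 + 2) ^ 2 ≤ ((n : ℝ) - s) ^ 2 := by
      apply pow_le_pow_left₀ (by positivity) h9
    nlinarith [sq_nonneg (n : ℝ)]
  have h2 : Tendsto (fun n : ℕ => |B| * C * Real.exp (-(n : ℝ))) atTop (𝓝 0) := by
    have h3 : Tendsto (fun n : ℕ => Real.exp (-(n : ℝ))) atTop (𝓝 0) :=
      Real.tendsto_exp_neg_atTop_nhds_zero.comp tendsto_natCast_atTop_atTop
    have := h3.const_mul (|B| * C)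
    rwa [mul_zero] at this
  refine squeeze_zero_norm' ?_ h2
  filter_upwards [h1] with n hn
  rw [Real.norm_eq_abs, abs_mul, abs_mul, abs_of_pos (Real.exp_pos _),
    abs_of_pos (by positivity : 0 < C * Real.exp (C * Real.log n ^ 2))]
  calc |B| * (C * Real.exp (C * Real.log n ^ 2)) * Real.exp (-((n : ℝ) - s) ^ 2)
      = |B| * C * Real.exp (C * Real.log n ^ 2 - ((n : ℝ) - s) ^ 2) := by
        rw [show C * Real.log n ^ 2 - ((n : ℝ) - s) ^ 2 = C * Real.log n ^ 2 + -((n : ℝ) - s) ^ 2 by ring,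
          Real.exp_add]
        ring
    _ ≤ |B| * C * Real.exp (-(n : ℝ)) := by
        apply mul_le_mul_of_nonneg_left (Real.exp_le_exp.2 hn) (by positivity)

/-- the vertical integrals -/
noncomputable def HH (φ : ℂ → ℂ) (z : ℂ) : ℂ :=
  (1 / (2 * Real.pi)) * ((∫ y : ℝ, Ph φ z (⟨1 / 4, y⟩ : ℂ)) - ∫ y : ℝ, Ph φ z (⟨-(1 / 4), y⟩ : ℂ))

theorem mk_quarter (a y : ℝ) : (⟨a, y⟩ : ℂ) = (a : ℂ) + y * I := by
  apply Complex.ext <;> simp

theorem Ph_lines (hR : RHSimple) : ∃ C : ℝ, 0 < C ∧ ∀ (φ : ℂ → ℂ) (B : ℝ), 0 ≤ B →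
    (∀ w : ℂ, |w.re| ≤ 1 / 4 → ‖φ w‖ ≤ B) → ∀ z : ℂ, 0 < z.re → z.re ≤ 1 / 8 → ∀ a : ℝ,
    (a = 1 / 4 ∨ a = -(1 / 4)) → ∀ y : ℝ, ‖Ph φ z (⟨a, y⟩ : ℂ)‖ ≤
      C * B * (1 + |z.im|) ^ (-(3 / 4) : ℝ) * Real.exp (-(1 / 2) * (y - z.im) ^ 2) := by
  obtain ⟨C, hC0, hC⟩ := F_lines hR
  refine ⟨C * (Real.exp 1 / (1 / 8)) * 2, by positivity, fun φ B hB hφ z h0 h1 a ha y => ?_⟩
  have hF : ‖F (⟨a, y⟩ : ℂ)‖ ≤ C * (1 + |y|) ^ (-(3 / 4) : ℝ) := by
    rw [mk_quarter]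
    rcases ha with rfl | rfl
    · exact (hC y).1
    · exact (hC y).2
  have hφ' : ‖φ (⟨a, y⟩ : ℂ)‖ ≤ B := by
    apply hφ
    show |a| ≤ 1 / 4
    rcases ha with rfl | rfl
    · rw [abs_of_pos (by norm_num)]
    · rw [abs_neg, abs_of_pos (by norm_num)]
  have hd : (1 / 8 : ℝ) ≤ |((⟨a, y⟩ : ℂ) - z).re| := by
    rw [Complex.sub_re]
    show (1 / 8 : ℝ) ≤ |a - z.re|
    rcases ha with rfl | rfl
    · exact le_trans (by linarith) (le_abs_self _)
    · rw [← abs_neg]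
      exact le_trans (by linarith) (le_abs_self _)
  have hk := norm_ker_le (z := z) (w := (⟨a, y⟩ : ℂ)) (δ := 1 / 8) (by norm_num) (by
    show |a - z.re| ≤ 1
    rw [abs_le]
    rcases ha with rfl | rfl <;> constructor <;> linarith)
    (hd.trans (Complex.abs_re_le_norm _))
  have hk' : ‖Complex.exp (((⟨a, y⟩ : ℂ) - z) ^ 2) / ((⟨a, y⟩ : ℂ) - z)‖ ≤
      Real.exp 1 / (1 / 8) * Real.exp (-(y - z.im) ^ 2) := hk
  unfold Ph
  rw [norm_mul, norm_mul]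
  calc ‖F (⟨a, y⟩ : ℂ)‖ * ‖φ (⟨a, y⟩ : ℂ)‖ * ‖Complex.exp (((⟨a, y⟩ : ℂ) - z) ^ 2) / ((⟨a, y⟩ : ℂ) - z)‖
      ≤ (C * (1 + |y|) ^ (-(3 / 4) : ℝ)) * B * (Real.exp 1 / (1 / 8) * Real.exp (-(y - z.im) ^ 2)) := by
        gcongr
    _ ≤ (C * ((1 + |z.im|) ^ (-(3 / 4) : ℝ) * (1 + |y - z.im|))) * B *
          (Real.exp 1 / (1 / 8) * Real.exp (-(y - z.im) ^ 2)) := by
        gcongr
        exact rpow_shift _ _
    _ = C * (Real.exp 1 / (1 / 8)) * B * (1 + |z.im|) ^ (-(3 / 4) : ℝ) *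
          ((1 + |y - z.im|) * Real.exp (-(y - z.im) ^ 2)) := by ring
    _ ≤ C * (Real.exp 1 / (1 / 8)) * B * (1 + |z.im|) ^ (-(3 / 4) : ℝ) *
          (2 * Real.exp (-(1 / 2) * (y - z.im) ^ 2)) :=
        mul_le_mul_of_nonneg_left (gauss_two _) (by positivity)
    _ = _ := by ring

theorem gauss_shift_integrable (t : ℝ) : Integrable (fun y : ℝ => Real.exp (-(1 / 2) * (y - t) ^ 2)) := by
  have := (integrable_exp_neg_mul_sq (by norm_num : (0 : ℝ) < 1 / 2)).comp_sub_right t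
  exact this

theorem gauss_shift_integral (t : ℝ) : ∫ y : ℝ, Real.exp (-(1 / 2) * (y - t) ^ 2) =
    ∫ y : ℝ, Real.exp (-(1 / 2) * y ^ 2) :=
  integral_sub_right_eq_self (fun y : ℝ => Real.exp (-(1 / 2) * y ^ 2)) t

theorem Ph_continuous (hR : RHSimple) {φ : ℂ → ℂ} (hφ : Differentiable ℂ φ) {z : ℂ} (h0 : 0 < z.re)
    (h1 : z.re ≤ 1 / 8) {a : ℝ} (ha : a = 1 / 4 ∨ a = -(1 / 4)) :
    Continuous (fun y : ℝ => Ph φ z (⟨a, y⟩ : ℂ)) := by
  have hc : Continuous (fun y : ℝ => (⟨a, y⟩ : ℂ)) := by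
    have : (fun y : ℝ => (⟨a, y⟩ : ℂ)) = fun y : ℝ => (a : ℂ) + y * I := by
      funext y; exact mk_quarter a y
    rw [this]
    fun_prop
  rw [continuous_iff_continuousAt]
  intro y
  have hare : (⟨a, y⟩ : ℂ).re = a := rfl
  have hZ : Zs ((⟨a, y⟩ : ℂ) + 1 / 2) ≠ 0 := by
    intro hz
    have := (zero_line hR (w := (⟨a, y⟩ : ℂ)) (by rw [hare]; rcases ha with rfl | rfl <;> norm_num) hz).1
    rw [hare] at this
    rcases ha with rfl | rfl <;> norm_num at this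
  have hne : (⟨a, y⟩ : ℂ) - z ≠ 0 := by
    intro h
    have := congrArg Complex.re h
    rw [Complex.sub_re, hare, Complex.zero_re] at this
    rcases ha with rfl | rfl <;> linarith
  have h2 : ContinuousAt (Ph φ z) (⟨a, y⟩ : ℂ) := by
    unfold Ph
    refine ContinuousAt.mul (ContinuousAt.mul ?_ hφ.continuous.continuousAt)
      (ContinuousAt.div (by fun_prop) (by fun_prop) hne)
    exact (F_diff (by rw [hare]; rcases ha with rfl | rfl <;> norm_num) hZ).continuousAt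
  exact ContinuousAt.comp (f := fun y : ℝ => (⟨a, y⟩ : ℂ)) h2 hc.continuousAt

/-- the explicit formula -/
theorem EF (hR : RHSimple) : ∃ C : ℝ, 0 < C ∧ ∀ (φ : ℂ → ℂ) (B : ℝ), Differentiable ℂ φ → 0 ≤ B →
    (∀ w : ℂ, |w.re| ≤ 1 / 4 → ‖φ w‖ ≤ B) → ∀ z : ℂ, 0 < z.re → z.re ≤ 1 / 8 →
    ‖HH φ z‖ ≤ C * B * (1 + |z.im|) ^ (-(3 / 4) : ℝ) ∧
    ∀ Z : Finset ℂ, (∀ p ∈ Z, p ∈ Pz) →
      ‖F z * φ z - HH φ z - ∑ p ∈ Z, Ar p * φ p * KK (z - p)‖ₑ ≤
        ∑' p : Pz, (if (p : ℂ) ∈ Z then 0 else ‖Ar p * φ p‖ₑ) * ‖KK (z - p)‖ₑ := by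
  classical
  obtain ⟨C, hC0, hC⟩ := Ph_lines hR
  obtain ⟨Ch, hCh0, hCh⟩ := heights
  set G : ℝ := ∫ y : ℝ, Real.exp (-(1 / 2) * y ^ 2) with hG
  have hG0 : 0 ≤ G := integral_nonneg fun y => (Real.exp_pos _).le
  refine ⟨C * (G + 1), by positivity, fun φ B hφ hB hφB z h0 h1 => ?_⟩
  have hbd : ∀ a : ℝ, (a = 1 / 4 ∨ a = -(1 / 4)) →
      Integrable (fun y : ℝ => Ph φ z (⟨a, y⟩ : ℂ)) ∧
      ‖∫ y : ℝ, Ph φ z (⟨a, y⟩ : ℂ)‖ ≤ C * B * (1 + |z.im|) ^ (-(3 / 4) : ℝ) * G := by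
    intro a ha
    have h2 := hC φ B hB hφB z h0 h1 a ha
    have h3 := (gauss_shift_integrable z.im).const_mul (C * B * (1 + |z.im|) ^ (-(3 / 4) : ℝ))
    have h4 : Integrable (fun y : ℝ => Ph φ z (⟨a, y⟩ : ℂ)) :=
      h3.mono' (Ph_continuous hR hφ h0 h1 ha).aestronglyMeasurable (Eventually.of_forall h2)
    refine ⟨h4, ?_⟩
    refine (norm_integral_le_integral_norm _).trans ?_
    refine (integral_mono h4.norm h3 h2).trans (le_of_eq ?_)
    rw [integral_const_mul, gauss_shift_integral]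
  obtain ⟨hI1, hB1⟩ := hbd (1 / 4) (Or.inl rfl)
  obtain ⟨hI2, hB2⟩ := hbd (-(1 / 4)) (Or.inr rfl)
  have hpi : (0 : ℝ) < 2 * Real.pi := by positivity
  constructor
  · unfold HH
    rw [norm_mul]
    have e1 : ‖(1 / (2 * Real.pi) : ℂ)‖ = 1 / (2 * Real.pi) := by
      rw [norm_div, norm_one, norm_mul, Complex.norm_real, Complex.norm_ofNat, Real.norm_eq_abs,
        abs_of_pos Real.pi_pos]
    rw [e1]
    have h5 := norm_sub_le (∫ y : ℝ, Ph φ z (⟨1 / 4, y⟩ : ℂ)) (∫ y : ℝ, Ph φ z (⟨-(1 / 4), y⟩ : ℂ))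
    have h6 : 1 / (2 * Real.pi) ≤ 1 / 2 := by
      apply one_div_le_one_div_of_le (by norm_num)
      nlinarith [Real.pi_gt_three]
    have hp : 0 ≤ C * B * (1 + |z.im|) ^ (-(3 / 4) : ℝ) := by positivity
    calc 1 / (2 * Real.pi) * ‖(∫ y : ℝ, Ph φ z (⟨1 / 4, y⟩ : ℂ)) - ∫ y : ℝ, Ph φ z (⟨-(1 / 4), y⟩ : ℂ)‖
        ≤ 1 / 2 * (C * B * (1 + |z.im|) ^ (-(3 / 4) : ℝ) * G + C * B * (1 + |z.im|) ^ (-(3 / 4) : ℝ) * G) := by
          gcongr
          exact h5.trans (add_le_add hB1 hB2)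
      _ = C * B * (1 + |z.im|) ^ (-(3 / 4) : ℝ) * G := by ring
      _ ≤ _ := by nlinarith
  · intro Z hZ
    -- good heights
    have hch : ∀ n : ℕ, ∃ U ∈ Set.Icc (n : ℝ) (n + 1), 3 ≤ n →
        ∀ x ∈ Set.Icc (-(1 / 4) : ℝ) (1 / 4), ∀ e : ℝ, e = 1 ∨ e = -1 →
          Zs ((x : ℂ) + (e * U : ℝ) * I + 1 / 2) ≠ 0 ∧
          ‖F ((x : ℂ) + (e * U : ℝ) * I)‖ ≤ Ch * Real.exp (Ch * Real.log n ^ 2) := by
      intro n
      by_cases hn : 3 ≤ n
      · obtain ⟨U, hU, hU2⟩ := hCh n hn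
        exact ⟨U, hU, fun _ => hU2⟩
      · exact ⟨n, ⟨le_rfl, by linarith⟩, fun h => absurd h hn⟩
    choose U hU hU2 using hch
    have hUtop : Tendsto U atTop atTop :=
      tendsto_atTop_mono (fun n => (hU n).1) tendsto_natCast_atTop_atTop
    -- the pieces
    set V : ℕ → ℂ := fun n => (1 / (2 * Real.pi)) * ((∫ y in (-(U n))..(U n), Ph φ z (⟨1 / 4, y⟩ : ℂ)) -
      ∫ y in (-(U n))..(U n), Ph φ z (⟨-(1 / 4), y⟩ : ℂ)) with hV
    set Hb : ℕ → ℂ := fun n => ∫ x in (-(1 / 4) : ℝ)..(1 / 4), Ph φ z (⟨x, -(U n)⟩ : ℂ) with hHb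
    set Ht : ℕ → ℂ := fun n => ∫ x in (-(1 / 4) : ℝ)..(1 / 4), Ph φ z (⟨x, U n⟩ : ℂ) with hHt
    have hVlim : Tendsto V atTop (𝓝 (HH φ z)) := by
      apply Tendsto.const_mul
      exact (intervalIntegral_tendsto_integral hI1 (tendsto_neg_atTop_atBot.comp hUtop) hUtop).sub
        (intervalIntegral_tendsto_integral hI2 (tendsto_neg_atTop_atBot.comp hUtop) hUtop)
    -- the horizontal sides
    have hhor : ∀ e : ℝ, (e = 1 ∨ e = -1) →
        Tendsto (fun n => ∫ x in (-(1 / 4) : ℝ)..(1 / 4), Ph φ z (⟨x, e * U n⟩ : ℂ)) atTop (𝓝 0) := by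
      intro e he
      have hlim := (log_sq_tendsto Ch |z.im| (B * Real.exp 1) hCh0).mul_const (1 / 2 : ℝ)
      rw [zero_mul] at hlim
      refine squeeze_zero_norm' ?_ hlim
      filter_upwards [eventually_ge_atTop 3, hUtop.eventually (eventually_ge_atTop (|z.im| + 1)),
        tendsto_natCast_atTop_atTop.eventually (eventually_ge_atTop |z.im|)] with n hn hn2 hn4
      have hb : ∀ x ∈ Set.uIoc (-(1 / 4) : ℝ) (1 / 4), ‖Ph φ z (⟨x, e * U n⟩ : ℂ)‖ ≤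
          B * Real.exp 1 * (Ch * Real.exp (Ch * Real.log n ^ 2)) * Real.exp (-((n : ℝ) - |z.im|) ^ 2) := by
        intro x hx
        rw [uIoc_of_le (by norm_num)] at hx
        have hx' : x ∈ Set.Icc (-(1 / 4) : ℝ) (1 / 4) := ⟨hx.1.le, hx.2⟩
        have h2 := (hU2 n hn x hx' e he).2
        rw [← mk_quarter] at h2
        have h3 : ‖φ (⟨x, e * U n⟩ : ℂ)‖ ≤ B := hφB _ (abs_le.2 hx')
        have h5 : U n - |z.im| ≤ |e * U n - z.im| := by
          have h6 := abs_sub_abs_le_abs_sub (e * U n) z.im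
          have h7 : |e * U n| = U n := by
            have hUn : 0 ≤ U n := by linarith [abs_nonneg z.im]
            rcases he with rfl | rfl
            · rw [one_mul, abs_of_nonneg hUn]
            · rw [neg_one_mul, abs_neg, abs_of_nonneg hUn]
          rw [h7] at h6
          exact h6
        have h8 := norm_ker_le (z := z) (w := (⟨x, e * U n⟩ : ℂ)) (δ := 1) one_pos (by
          show |x - z.re| ≤ 1
          rw [abs_le]
          constructor <;> linarith [hx'.1, hx'.2]) (by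
          refine le_trans ?_ (Complex.abs_im_le_norm _)
          rw [Complex.sub_im]
          show 1 ≤ |e * U n - z.im|
          linarith)
        have h9 : Real.exp (-(e * U n - z.im) ^ 2) ≤ Real.exp (-((n : ℝ) - |z.im|) ^ 2) := by
          apply Real.exp_le_exp.2
          have h10 : ((n : ℝ) - |z.im|) ^ 2 ≤ (e * U n - z.im) ^ 2 := by
            rw [← sq_abs (e * U n - z.im)]
            apply pow_le_pow_left₀ (by linarith)
            linarith [(hU n).1]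
          linarith
        unfold Ph
        rw [norm_mul, norm_mul]
        calc ‖F (⟨x, e * U n⟩ : ℂ)‖ * ‖φ (⟨x, e * U n⟩ : ℂ)‖ *
              ‖Complex.exp (((⟨x, e * U n⟩ : ℂ) - z) ^ 2) / ((⟨x, e * U n⟩ : ℂ) - z)‖
            ≤ (Ch * Real.exp (Ch * Real.log n ^ 2)) * B * (Real.exp 1 / 1 * Real.exp (-((n : ℝ) - |z.im|) ^ 2)) := by
              gcongr
              exact h8.trans (mul_le_mul_of_nonneg_left h9 (by positivity))
          _ = _ := by ring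
      have := intervalIntegral.norm_integral_le_of_norm_le_const hb
      refine this.trans (le_of_eq ?_)
      have hh : |(1 / 4 : ℝ) - -(1 / 4)| = 1 / 2 := by norm_num
      rw [hh]
    have hbot : Tendsto Hb atTop (𝓝 0) := by
      have := hhor (-1) (Or.inr rfl)
      simpa [hHb] using this
    have htop : Tendsto Ht atTop (𝓝 0) := by
      have := hhor 1 (Or.inl rfl)
      simpa [hHt] using this
    -- the identity
    have hid : ∀ᶠ n : ℕ in atTop, F z * φ z - V n - (1 / (2 * Real.pi * I)) * (Hb n - Ht n) =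
        ∑ p ∈ below (U n), Ar p * φ p * KK (z - p) := by
      filter_upwards [eventually_ge_atTop 3, hUtop.eventually (eventually_gt_atTop |z.im|)] with n hn hn2
      have h2 := residues hR hφ h0 (by linarith) (by linarith [abs_nonneg z.im]) hn2
        (fun x hx e he => (hU2 n hn x hx e he).1)
      have h3 : RI (-(1 / 4)) (1 / 4) (-(U n)) (U n) (Ph φ z) = Hb n - Ht n +
          I * (∫ y in (-(U n))..(U n), Ph φ z (⟨1 / 4, y⟩ : ℂ)) -
          I * (∫ y in (-(U n))..(U n), Ph φ z (⟨-(1 / 4), y⟩ : ℂ)) := rfl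
      rw [h3] at h2
      have hpi' : (2 * Real.pi * I : ℂ) ≠ 0 := by simp [Real.pi_ne_zero]
      have hpi2 : (2 * Real.pi : ℂ) ≠ 0 := by simp [Real.pi_ne_zero]
      simp only [hV]
      have h4 : F z * φ z - ∑ p ∈ below (U n), Ar p * φ p * KK (z - p) =
          (1 / (2 * Real.pi * I)) * (Hb n - Ht n +
          I * (∫ y in (-(U n))..(U n), Ph φ z (⟨1 / 4, y⟩ : ℂ)) -
          I * (∫ y in (-(U n))..(U n), Ph φ z (⟨-(1 / 4), y⟩ : ℂ))) := by
        rw [h2]; field_simp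
      have h5 : (1 / (2 * Real.pi * I) : ℂ) * I = 1 / (2 * Real.pi) := by field_simp
      have h6 : (1 / (2 * Real.pi * I)) * (Hb n - Ht n +
          I * (∫ y in (-(U n))..(U n), Ph φ z (⟨1 / 4, y⟩ : ℂ)) -
          I * (∫ y in (-(U n))..(U n), Ph φ z (⟨-(1 / 4), y⟩ : ℂ))) =
          (1 / (2 * Real.pi * I)) * (Hb n - Ht n) + (1 / (2 * Real.pi * I) * I) *
            ((∫ y in (-(U n))..(U n), Ph φ z (⟨1 / 4, y⟩ : ℂ)) -
            (∫ y in (-(U n))..(U n), Ph φ z (⟨-(1 / 4), y⟩ : ℂ))) := by ring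
      rw [h6, h5] at h4
      linear_combination h4
    -- the limit
    have hlim : Tendsto (fun n => F z * φ z - V n - (1 / (2 * Real.pi * I)) * (Hb n - Ht n) -
        ∑ p ∈ Z, Ar p * φ p * KK (z - p)) atTop
        (𝓝 (F z * φ z - HH φ z - (1 / (2 * Real.pi * I)) * (0 - 0) -
          ∑ p ∈ Z, Ar p * φ p * KK (z - p))) :=
      ((tendsto_const_nhds.sub hVlim).sub ((hbot.sub htop).const_mul _)).sub_const _
    rw [sub_zero, mul_zero, sub_zero] at hlim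
    refine le_of_tendsto (hlim.enorm) ?_
    have hZb : ∀ᶠ n in atTop, ∀ p ∈ Z, p ∈ below (U n) := by
      rw [Filter.eventually_all_finset]
      intro p hp
      filter_upwards [hUtop.eventually (eventually_ge_atTop |p.im|)] with n hn
      exact mem_below.2 ⟨hZ p hp, hn⟩
    filter_upwards [hid, hZb] with n h2 h3
    rw [h2]
    have h4 : ∑ p ∈ below (U n), Ar p * φ p * KK (z - p) - ∑ p ∈ Z, Ar p * φ p * KK (z - p) =
        ∑ p ∈ below (U n) \ Z, Ar p * φ p * KK (z - p) := by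
      rw [sub_eq_iff_eq_add]
      exact (Finset.sum_sdiff h3).symm
    rw [h4]
    have h5 : ∀ p ∈ below (U n) \ Z, p ∈ Pz := fun p hp => (mem_below.1 (Finset.mem_sdiff.1 hp).1).1
    calc ‖∑ p ∈ below (U n) \ Z, Ar p * φ p * KK (z - p)‖ₑ
        ≤ ∑ p ∈ below (U n) \ Z, ‖Ar p * φ p * KK (z - p)‖ₑ := enorm_sum_le _ _
      _ = ∑ p ∈ below (U n) \ Z, (if p ∈ Z then 0 else ‖Ar p * φ p‖ₑ) * ‖KK (z - p)‖ₑ := by
          refine Finset.sum_congr rfl fun p hp => ?_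
          rw [if_neg (Finset.mem_sdiff.1 hp).2, enorm_mul]
      _ = ∑ p ∈ (below (U n) \ Z).subtype (· ∈ Pz), (if (p : ℂ) ∈ Z then 0 else ‖Ar p * φ p‖ₑ) *
            ‖KK (z - p)‖ₑ := (Finset.sum_subtype_of_mem (fun p => (if p ∈ Z then 0 else ‖Ar p * φ p‖ₑ) *
              ‖KK (z - p)‖ₑ) h5).symm
      _ ≤ _ := ENNReal.sum_le_tsum _

end Pool.Agent.Helper90.WM
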