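import Pool.Agent.Helper90.WM.L2

/-!
# Counting zeros against a Gaussian
-/

set_option autoImplicit false

open Complex Filter Topology Set MeasureTheory H370
open Pool.Agent.H295R2 (Zs fz)
open scoped ENNReal

namespace Pool.Agent.Helper90.WM

theorem Pz_conj {p : ℂ} (hp : p ∈ Pz) : (starRingEnd ℂ) p ∈ Pz := by
  refine ⟨by rw [Complex.conj_re]; exact hp.1, ?_⟩
  have h1 : (starRingEnd ℂ) p + 1 / 2 = (starRingEnd ℂ) (p + 1 / 2) := by
    rw [map_add]
    congr 1
    rw [map_div₀, map_one, Complex.conj_ofNat]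
  rw [h1, riemannZeta_conj, hp.2, map_zero]

theorem Pz_zset {p : ℂ} (hp : p ∈ Pz) {T1 T2 : ℝ} (h1 : T1 < p.im) (h2 : p.im ≤ T2) :
    p + 1 / 2 ∈ zset riemannZeta T1 T2 := by
  have e1 : (p + 1 / 2).re = 1 / 2 := by rw [Complex.add_re, hp.1]; norm_num
  have e2 : (p + 1 / 2).im = p.im := by rw [Complex.add_im]; norm_num
  exact ⟨by rw [e1]; norm_num, by rw [e1]; norm_num, by rw [e2]; exact h1, by rw [e2]; exact h2, hp.2⟩

/-- the zeros in a unit interval -/
def blk (n : ℤ) : Set ℂ := {p | p ∈ Pz ∧ ⌊p.im⌋ = n}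

theorem blk_finite (n : ℤ) : (blk n).Finite := by
  refine (Pz_fin (isCompact_Icc.reProdIm isCompact_Icc : IsCompact
    (Set.Icc (0 : ℝ) 0 ×ℂ Set.Icc (n : ℝ) (n + 1)))).subset fun p hp => ⟨⟨?_, ?_⟩, hp.1⟩
  · show p.re ∈ Set.Icc (0 : ℝ) 0
    rw [hp.1.1]; simp
  · show p.im ∈ Set.Icc (n : ℝ) (n + 1)
    rw [← hp.2]
    exact ⟨Int.floor_le _, (Int.lt_floor_add_one _).le⟩

theorem blk_up {C : ℝ} (hC : ∀ t : ℝ, 3 ≤ t → (NN riemannZeta (t - 1) (t + 1) : ℝ) ≤ C * Real.log t)
    {S : Finset ℂ} {t : ℝ} (ht : 3 ≤ t) (hS : ∀ p ∈ S, p ∈ Pz ∧ t - 1 < p.im ∧ p.im ≤ t + 1) :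
    (S.card : ℝ) ≤ C * Real.log t := by
  classical
  refine le_trans ?_ (hC t ht)
  have h1 := Loc.card_le_NN good_zeta (t - 1) (t + 1) (by linarith)
  have h2 : S.card ≤ (zset_finite good_zeta (t - 1) (t + 1) (by linarith)).toFinset.card := by
    refine Finset.card_le_card_of_injOn (fun p => p + 1 / 2) (fun p hp => ?_) (fun p _ q _ h => ?_)
    · have := hS p hp
      simp only [Set.Finite.coe_toFinset]
      exact Pz_zset this.1 this.2.1 this.2.2
    · exact add_right_cancel h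
  exact_mod_cast h2.trans h1

theorem blk_count : ∃ C : ℝ, 0 < C ∧ ∀ n : ℤ,
    ((blk_finite n).toFinset.card : ℝ) ≤ C * Real.log (|(n : ℝ)| + 2) := by
  classical
  obtain ⟨C, hC0, hC⟩ := zcount good_zeta
  set M : ℕ := ∑ n ∈ Finset.Icc (-4 : ℤ) 4, (blk_finite n).toFinset.card with hM
  refine ⟨C + 2 * M, by positivity, fun n => ?_⟩
  have hlog2 : (1 / 2 : ℝ) ≤ Real.log (|(n : ℝ)| + 2) := by
    have h1 : Real.log 2 ≤ Real.log (|(n : ℝ)| + 2) :=
      Real.log_le_log (by norm_num) (by linarith [abs_nonneg (n : ℝ)])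
    linarith [Real.log_two_gt_d9]
  have hMn : (0 : ℝ) ≤ M := Nat.cast_nonneg _
  rcases lt_or_ge n (-4) with h | h
  · -- reflect
    have h1 : ((blk_finite n).toFinset.image (starRingEnd ℂ)).card = (blk_finite n).toFinset.card :=
      Finset.card_image_of_injective _ (starRingEnd ℂ).injective
    have hn : (n : ℝ) ≤ -5 := by
      have : n ≤ -5 := by omega
      exact_mod_cast this
    have h2 := blk_up hC (S := (blk_finite n).toFinset.image (starRingEnd ℂ)) (t := -n) (by linarith) (by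
      intro p hp
      obtain ⟨q, hq, rfl⟩ := Finset.mem_image.1 hp
      rw [Set.Finite.mem_toFinset] at hq
      refine ⟨Pz_conj hq.1, ?_, ?_⟩
      · rw [Complex.conj_im]
        have := Int.lt_floor_add_one q.im
        rw [hq.2] at this
        linarith
      · rw [Complex.conj_im]
        have := Int.floor_le q.im
        rw [hq.2] at this
        linarith)
    rw [h1] at h2
    have h3 : |(n : ℝ)| = -n := abs_of_neg (by linarith)
    have h4 : Real.log (-n) ≤ Real.log (|(n : ℝ)| + 2) :=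
      Real.log_le_log (by linarith) (by rw [h3]; linarith)
    nlinarith
  · rcases lt_or_ge 4 n with h' | h'
    · have hn : (5 : ℝ) ≤ n := by
        have : 5 ≤ n := by omega
        exact_mod_cast this
      have h2 := blk_up hC (S := (blk_finite n).toFinset) (t := n + 1 / 2) (by linarith) (by
        intro p hp
        rw [Set.Finite.mem_toFinset] at hp
        refine ⟨hp.1, ?_, ?_⟩
        · have := Int.floor_le p.im
          rw [hp.2] at this
          linarith
        · have := Int.lt_floor_add_one p.im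
          rw [hp.2] at this
          linarith)
      have h3 : |(n : ℝ)| = n := abs_of_pos (by linarith)
      have h4 : Real.log (n + 1 / 2) ≤ Real.log (|(n : ℝ)| + 2) :=
        Real.log_le_log (by linarith) (by rw [h3]; linarith)
      nlinarith
    · have h2 : (blk_finite n).toFinset.card ≤ M :=
        Finset.single_le_sum (f := fun n => (blk_finite n).toFinset.card) (fun _ _ => Nat.zero_le _)
          (Finset.mem_Icc.2 ⟨h, h'⟩)
      have h3 : ((blk_finite n).toFinset.card : ℝ) ≤ M := by exact_mod_cast h2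
      nlinarith

theorem fiber_tsum {C : ℝ} (hC : ∀ n : ℤ,
    ((blk_finite n).toFinset.card : ℝ) ≤ C * Real.log (|(n : ℝ)| + 2)) (n : ℤ) (g : Pz → ℝ≥0∞) (B : ℝ≥0∞)
    (hB : ∀ q : Pz, ⌊(q : ℂ).im⌋ = n → g q ≤ B) :
    ∑' q : {q : Pz // ⌊(q : ℂ).im⌋ = n}, g q ≤ ENNReal.ofReal (C * Real.log (|(n : ℝ)| + 2)) * B := by
  classical
  have hcard : ∀ S : Finset {q : Pz // ⌊(q : ℂ).im⌋ = n}, S.card ≤ (blk_finite n).toFinset.card := by
    intro S
    refine Finset.card_le_card_of_injOn (fun q => ((q : Pz) : ℂ)) (fun q _ => ?_) (fun q _ r _ h => ?_)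
    · simp only [Set.Finite.coe_toFinset]
      exact ⟨q.1.2, q.2⟩
    · exact Subtype.ext (Subtype.ext h)
  rw [ENNReal.tsum_eq_iSup_sum]
  refine iSup_le fun S => ?_
  calc ∑ q ∈ S, g q ≤ ∑ q ∈ S, B := Finset.sum_le_sum fun q _ => hB q.1 q.2
    _ = (S.card : ℝ≥0∞) * B := by rw [Finset.sum_const, nsmul_eq_mul]
    _ ≤ ENNReal.ofReal (C * Real.log (|(n : ℝ)| + 2)) * B := by
        gcongr
        rw [← ENNReal.ofReal_natCast]
        apply ENNReal.ofReal_le_ofReal
        refine le_trans ?_ (hC n)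
        exact_mod_cast hcard S

theorem exp_summable : Summable (fun m : ℤ => Real.exp (-(1 / 2) * |(m : ℝ)|)) := by
  have h1 : Summable (fun n : ℕ => Real.exp (-(1 / 2) * (n : ℝ))) := by
    have := Real.summable_exp_nat_mul_iff.2 (show (-(1 / 2) : ℝ) < 0 by norm_num)
    refine this.congr fun n => ?_
    ring_nf
  refine Summable.of_nat_of_neg ?_ ?_
  · refine h1.congr fun n => ?_
    rw [Int.cast_natCast, abs_of_nonneg (Nat.cast_nonneg n)]
  · refine h1.congr fun n => ?_
    rw [Int.cast_neg, Int.cast_natCast, abs_neg, abs_of_nonneg (Nat.cast_nonneg n)]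

/-- `Σ_γ e^{-(x-γ)²/2} ≪ log(|x|+2)` -/
theorem gauss_count : ∃ C : ℝ, 0 < C ∧ ∀ x : ℝ,
    ∑' q : Pz, ENNReal.ofReal (Real.exp (-(1 / 2) * (x - (q : ℂ).im) ^ 2)) ≤
      ENNReal.ofReal (C * Real.log (|x| + 3)) := by
  obtain ⟨C, hC0, hC⟩ := blk_count
  set W : ℝ := ∑' m : ℤ, Real.exp (-(1 / 2) * |(m : ℝ)|) with hW
  have hW0 : 0 ≤ W := tsum_nonneg fun m => (Real.exp_pos _).le
  refine ⟨C * (4 * Real.exp 2) * W + 1, by positivity, fun x => ?_⟩
  have hlog : (1 / 2 : ℝ) ≤ Real.log (|x| + 3) := by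
    have h1 : Real.log 2 ≤ Real.log (|x| + 3) :=
      Real.log_le_log (by norm_num) (by linarith [abs_nonneg x])
    linarith [Real.log_two_gt_d9]
  have hterm : ∀ n : ℤ, ∑' q : {q : Pz // ⌊(q : ℂ).im⌋ = n},
      ENNReal.ofReal (Real.exp (-(1 / 2) * (x - ((q : Pz) : ℂ).im) ^ 2)) ≤
      ENNReal.ofReal (C * (4 * Real.exp 2) * Real.log (|x| + 3) *
        Real.exp (-(1 / 2) * |((n - ⌊x⌋ : ℤ) : ℝ)|)) := by
    intro n
    have h1 := fiber_tsum hC n (fun q : Pz => ENNReal.ofReal (Real.exp (-(1 / 2) * (x - (q : ℂ).im) ^ 2)))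
      (ENNReal.ofReal (Real.exp 2 * Real.exp (-|((n - ⌊x⌋ : ℤ) : ℝ)|))) (by
        intro q hq
        apply ENNReal.ofReal_le_ofReal
        rw [← Real.exp_add]
        apply Real.exp_le_exp.2
        have a1 := Int.floor_le (q : ℂ).im
        have a2 := Int.lt_floor_add_one (q : ℂ).im
        rw [hq] at a1 a2
        have b1 := Int.floor_le x
        have b2 := Int.lt_floor_add_one x
        push_cast
        have h2 : |(n : ℝ) - ⌊x⌋| ≤ |x - (q : ℂ).im| + 1 := by
          rw [abs_le]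
          have h3 := neg_abs_le (x - (q : ℂ).im)
          have h4 := le_abs_self (x - (q : ℂ).im)
          constructor <;> linarith
        have h5 : (x - (q : ℂ).im) ^ 2 = |x - (q : ℂ).im| ^ 2 := (sq_abs _).symm
        rw [h5]
        nlinarith [sq_nonneg (|x - (q : ℂ).im| - 1)])
    refine h1.trans ?_
    have hL0 : 0 ≤ Real.log (|(n : ℝ)| + 2) := Real.log_nonneg (by linarith [abs_nonneg (n : ℝ)])
    rw [← ENNReal.ofReal_mul (by positivity)]
    apply ENNReal.ofReal_le_ofReal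
    set m : ℝ := |((n - ⌊x⌋ : ℤ) : ℝ)| with hm
    have hm0 : 0 ≤ m := abs_nonneg _
    have h6 : Real.log (|(n : ℝ)| + 2) ≤ Real.log (|x| + 3) + m := by
      have h7 : |(n : ℝ)| + 2 ≤ (|x| + 3) * (m + 1) := by
        have h8 : |(n : ℝ)| ≤ m + |(⌊x⌋ : ℝ)| := by
          have := abs_add_le ((n : ℝ) - ⌊x⌋) ⌊x⌋
          rw [sub_add_cancel] at this
          rw [hm]; push_cast; exact this
        have h9 : |(⌊x⌋ : ℝ)| ≤ |x| + 1 := by
          rw [abs_le]
          have b1 := Int.floor_le x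
          have b2 := Int.lt_floor_add_one x
          have h3 := neg_abs_le x
          have h4 := le_abs_self x
          constructor <;> linarith
        nlinarith [abs_nonneg x]
      calc Real.log (|(n : ℝ)| + 2) ≤ Real.log ((|x| + 3) * (m + 1)) :=
            Real.log_le_log (by positivity) h7
        _ = Real.log (|x| + 3) + Real.log (m + 1) := Real.log_mul (by positivity) (by positivity)
        _ ≤ _ := by
            have := Real.log_le_sub_one_of_pos (show 0 < m + 1 by linarith)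
            linarith
    have h10 : Real.log (|(n : ℝ)| + 2) ≤ Real.log (|x| + 3) * (4 * Real.exp (1 / 2 * m)) := by
      have h11 := Real.add_one_le_exp (1 / 2 * m)
      nlinarith
    calc C * Real.log (|(n : ℝ)| + 2) * (Real.exp 2 * Real.exp (-m))
        ≤ C * (Real.log (|x| + 3) * (4 * Real.exp (1 / 2 * m))) * (Real.exp 2 * Real.exp (-m)) := by
          gcongr
      _ = C * (4 * Real.exp 2) * Real.log (|x| + 3) * (Real.exp (1 / 2 * m) * Real.exp (-m)) := by ring
      _ = C * (4 * Real.exp 2) * Real.log (|x| + 3) * Real.exp (-(1 / 2) * m) := by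
          rw [← Real.exp_add]; ring_nf
  calc ∑' q : Pz, ENNReal.ofReal (Real.exp (-(1 / 2) * (x - (q : ℂ).im) ^ 2))
      = ∑' n : ℤ, ∑' q : {q : Pz // ⌊(q : ℂ).im⌋ = n},
          ENNReal.ofReal (Real.exp (-(1 / 2) * (x - ((q : Pz) : ℂ).im) ^ 2)) := by
        rw [← (Equiv.sigmaFiberEquiv (fun q : Pz => ⌊(q : ℂ).im⌋)).tsum_eq, ENNReal.tsum_sigma']
        rfl
    _ ≤ ∑' n : ℤ, ENNReal.ofReal (C * (4 * Real.exp 2) * Real.log (|x| + 3) *
          Real.exp (-(1 / 2) * |((n - ⌊x⌋ : ℤ) : ℝ)|)) := ENNReal.tsum_le_tsum hterm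
    _ = ∑' m : ℤ, ENNReal.ofReal (C * (4 * Real.exp 2) * Real.log (|x| + 3) *
          Real.exp (-(1 / 2) * |(m : ℝ)|)) :=
        (Equiv.subRight ⌊x⌋).tsum_eq (fun m : ℤ => ENNReal.ofReal (C * (4 * Real.exp 2) *
          Real.log (|x| + 3) * Real.exp (-(1 / 2) * |(m : ℝ)|)))
    _ = ENNReal.ofReal (C * (4 * Real.exp 2) * Real.log (|x| + 3) * W) := by
        rw [← ENNReal.ofReal_tsum_of_nonneg (fun m => by positivity) (exp_summable.mul_left _), tsum_mul_left]
    _ ≤ _ := by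
        apply ENNReal.ofReal_le_ofReal
        nlinarith

end Pool.Agent.Helper90.WM
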