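import Pool.Agent.Helper90.WM.Zer

/-!
# Good horizontal lines
-/

set_option autoImplicit false

open Complex Filter Topology Set MeasureTheory
open Pool.Agent.H295R2 (Zs fz)

namespace Pool.Agent.Helper90.WM

theorem fz_conj {s : ℂ} (hs : s ≠ 1) : ‖fz ((starRingEnd ℂ) s)‖ = ‖fz s‖ := by
  have h1 : (starRingEnd ℂ) s ≠ 1 := by
    intro h
    apply hs
    have := congrArg (starRingEnd ℂ) h
    rw [Complex.conj_conj, map_one] at this
    exact this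
  rw [Pool.Agent.H295R2.fz_eq h1, Pool.Agent.H295R2.fz_eq hs, riemannZeta_conj, norm_inv, norm_inv,
    Complex.norm_conj]

/-- `1 / ζ` on good horizontal lines -/
theorem height_up : ∃ C : ℝ, 0 < C ∧ ∀ n : ℕ, 3 ≤ n → ∃ U ∈ Set.Icc (n : ℝ) (n + 1),
    ∀ x ∈ Set.Icc (1 / 4 : ℝ) (3 / 4), riemannZeta (⟨x, U⟩ : ℂ) ≠ 0 ∧
      ‖(riemannZeta (⟨x, U⟩ : ℂ))⁻¹‖ ≤ C * Real.exp (C * Real.log n ^ 2) := by
  obtain ⟨C, hC0, hC⟩ := H370.good_height H370.good_zeta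
  obtain ⟨K, hK1, hK⟩ := Pool.Agent.H295R2.zeta_bounds (a := 3 / 2) (by norm_num)
  refine ⟨K + 2 * C, by linarith, fun n hn => ?_⟩
  obtain ⟨U, hU, hU2⟩ := hC n (by exact_mod_cast hn)
  refine ⟨U, hU, ?_⟩
  have hn3 : (3 : ℝ) ≤ n := by exact_mod_cast hn
  have hU0 : 0 < U := by linarith [hU.1]
  have hne : ∀ x : ℝ, (⟨x, U⟩ : ℂ) ≠ 1 := by
    intro x h
    have := congrArg Complex.im h
    simp at this
    linarith
  -- the function along the line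
  set g : ℝ → ℂ := fun τ => (riemannZeta (⟨3 / 2 - τ, U⟩ : ℂ))⁻¹ with hg
  set g' : ℝ → ℂ := fun τ => deriv riemannZeta (⟨3 / 2 - τ, U⟩ : ℂ) / riemannZeta (⟨3 / 2 - τ, U⟩ : ℂ) *
    (riemannZeta (⟨3 / 2 - τ, U⟩ : ℂ))⁻¹ with hg'
  have hder : ∀ τ ∈ Set.Icc (0 : ℝ) (2 : ℝ), HasDerivAt g (g' τ) τ := by
    intro τ hτ
    have h1 : riemannZeta (⟨3 / 2 - τ, U⟩ : ℂ) ≠ 0 :=
      (hU2 (3 / 2 - τ) ⟨by linarith [hτ.2], by linarith [hτ.1]⟩).1
    have h2 : HasDerivAt (fun τ : ℝ => (⟨3 / 2 - τ, U⟩ : ℂ)) (-1) τ := by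
      have e : (fun τ : ℝ => (⟨3 / 2 - τ, U⟩ : ℂ)) = fun τ : ℝ => (3 / 2 + U * I : ℂ) - (τ : ℂ) := by
        funext τ
        apply Complex.ext <;> simp
      rw [e]
      have h3 := (hasDerivAt_id τ).ofReal_comp.const_sub (3 / 2 + U * I : ℂ)
      simpa using h3
    have h4 : HasDerivAt riemannZeta (deriv riemannZeta (⟨3 / 2 - τ, U⟩ : ℂ)) (⟨3 / 2 - τ, U⟩ : ℂ) :=
      (differentiableAt_riemannZeta (hne _)).hasDerivAt
    have h5 := (h4.comp τ h2).inv h1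
    have e : g' τ = -(deriv riemannZeta (⟨3 / 2 - τ, U⟩ : ℂ) * -1) /
        (riemannZeta (⟨3 / 2 - τ, U⟩ : ℂ)) ^ 2 := by
      simp only [hg']
      field_simp
    rw [e]
    exact h5
  have hgr := norm_le_gronwallBound_of_norm_deriv_right_le (f := g) (f' := g') (δ := K)
    (K := C * Real.log n ^ 2) (ε := 0) (a := 0) (b := 2)
    (fun τ hτ => (hder τ hτ).continuousAt.continuousWithinAt)
    (fun τ hτ => (hder τ ⟨hτ.1, hτ.2.le⟩).hasDerivWithinAt)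
    (by
      have := (hK (⟨3 / 2 - 0, U⟩ : ℂ) (by norm_num)).2
      rw [Pool.Agent.H295R2.fz_eq (hne _)] at this
      exact this)
    (fun τ hτ => by
      rw [add_zero]
      simp only [hg', hg, norm_mul]
      exact mul_le_mul_of_nonneg_right
        (hU2 (3 / 2 - τ) ⟨by linarith [hτ.2], by linarith [hτ.1]⟩).2 (norm_nonneg _))
  intro x hx
  refine ⟨(hU2 x ⟨by linarith [hx.1], by linarith [hx.2]⟩).1, ?_⟩
  have h6 := hgr (3 / 2 - x) ⟨by linarith [hx.2], by linarith [hx.1]⟩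
  rw [gronwallBound_ε0] at h6
  have e : g (3 / 2 - x) = (riemannZeta (⟨x, U⟩ : ℂ))⁻¹ := by
    simp only [hg]
    rw [sub_sub_cancel]
  rw [e] at h6
  refine h6.trans ?_
  have h7 : C * Real.log n ^ 2 * (3 / 2 - x - 0) ≤ (K + 2 * C) * Real.log n ^ 2 := by
    have h8 : 0 ≤ Real.log n ^ 2 := sq_nonneg _
    have h9 : C * (3 / 2 - x - 0) ≤ K + 2 * C := by nlinarith [hx.1]
    nlinarith
  calc K * Real.exp (C * Real.log n ^ 2 * (3 / 2 - x - 0))
      ≤ (K + 2 * C) * Real.exp ((K + 2 * C) * Real.log n ^ 2) := by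
        apply mul_le_mul (by linarith) (Real.exp_le_exp.2 h7) (Real.exp_pos _).le (by linarith)

/-- good horizontal lines in both half planes -/
theorem heights : ∃ C : ℝ, 0 < C ∧ ∀ n : ℕ, 3 ≤ n → ∃ U ∈ Set.Icc (n : ℝ) (n + 1),
    ∀ x ∈ Set.Icc (-(1 / 4) : ℝ) (1 / 4), ∀ e : ℝ, e = 1 ∨ e = -1 →
      Zs ((x : ℂ) + (e * U : ℝ) * I + 1 / 2) ≠ 0 ∧
      ‖F ((x : ℂ) + (e * U : ℝ) * I)‖ ≤ C * Real.exp (C * Real.log n ^ 2) := by
  obtain ⟨C, hC0, hC⟩ := height_up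
  refine ⟨C, hC0, fun n hn => ?_⟩
  obtain ⟨U, hU, hU2⟩ := hC n hn
  refine ⟨U, hU, fun x hx e he => ?_⟩
  have hn3 : (3 : ℝ) ≤ n := by exact_mod_cast hn
  have hU0 : 1 ≤ U := by linarith [hU.1]
  obtain ⟨h1, h2⟩ := hU2 (x + 1 / 2) ⟨by linarith [hx.1], by linarith [hx.2]⟩
  have hne : (⟨x + 1 / 2, U⟩ : ℂ) ≠ 1 := by
    intro h
    have := congrArg Complex.im h
    simp at this
    linarith
  have hup : fz (⟨x + 1 / 2, U⟩ : ℂ) = (riemannZeta (⟨x + 1 / 2, U⟩ : ℂ))⁻¹ :=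
    Pool.Agent.H295R2.fz_eq hne
  have hfz : ‖fz ((x : ℂ) + (e * U : ℝ) * I + 1 / 2)‖ = ‖(riemannZeta (⟨x + 1 / 2, U⟩ : ℂ))⁻¹‖ := by
    rw [← hup]
    rcases he with rfl | rfl
    · congr 2
      apply Complex.ext <;> simp
    · rw [← fz_conj hne]
      congr 2
      apply Complex.ext <;> simp
  have hne2 : ((x : ℂ) + (e * U : ℝ) * I + 1 / 2) ≠ 1 := by
    intro h
    have := congrArg Complex.im h
    simp at this
    rcases he with rfl | rfl
    · rcases this with h | h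
      · norm_num at h
      · linarith
    · rcases this with h | h
      · norm_num at h
      · linarith
  have hpos : 0 < ‖(riemannZeta (⟨x + 1 / 2, U⟩ : ℂ))⁻¹‖ := norm_pos_iff.2 (inv_ne_zero h1)
  constructor
  · intro h0
    have h3 : fz ((x : ℂ) + (e * U : ℝ) * I + 1 / 2) = 0 := by
      unfold fz
      rw [h0, div_zero]
    rw [← hfz, h3, norm_zero] at hpos
    exact lt_irrefl _ hpos
  · unfold F
    rw [norm_div, hfz]
    have h4 : 1 ≤ ‖(x : ℂ) + (e * U : ℝ) * I + 1 / 2‖ := by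
      have h5 := Complex.abs_im_le_norm ((x : ℂ) + (e * U : ℝ) * I + 1 / 2)
      have h6 : ((x : ℂ) + (e * U : ℝ) * I + 1 / 2).im = e * U := by simp
      rw [h6] at h5
      refine le_trans ?_ h5
      rcases he with rfl | rfl
      · rw [one_mul]; exact hU0.trans (le_abs_self _)
      · rw [neg_one_mul, abs_neg]; exact hU0.trans (le_abs_self _)
    rw [div_le_iff₀ (by linarith)]
    calc ‖(riemannZeta (⟨x + 1 / 2, U⟩ : ℂ))⁻¹‖ ≤ C * Real.exp (C * Real.log n ^ 2) := h2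
      _ = C * Real.exp (C * Real.log n ^ 2) * 1 := (mul_one _).symm
      _ ≤ _ := mul_le_mul_of_nonneg_left h4 (by positivity)

end Pool.Agent.Helper90.WM
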