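import Pool.Agent.Helper90.WM.EF2

/-!
# The mean square of the explicit formula
-/

set_option autoImplicit false

open Complex Filter Topology Set MeasureTheory H370
open Pool.Agent.H295R2 (Zs fz)
open scoped ENNReal

namespace Pool.Agent.Helper90.WM

/-- the Gaussian quadratic form over pairs of zeros -/
noncomputable def GQ (c : Pz → ℝ≥0∞) : ℝ≥0∞ :=
  ∑' p : Pz, ∑' q : Pz, c p * c q *
    ENNReal.ofReal (Real.exp (-(1 / 2) * ((p : ℂ).im - (q : ℂ).im) ^ 2))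

theorem KK_norm {σ t : ℝ} (hσ : 0 < σ) {p : ℂ} (hp : p.re = 0) :
    ‖KK ((⟨σ, t⟩ : ℂ) - p)‖ = Real.exp (σ ^ 2 - (t - p.im) ^ 2) / Real.sqrt (σ ^ 2 + (t - p.im) ^ 2) := by
  unfold KK
  rw [norm_div, Complex.norm_exp]
  congr 1
  · congr 1
    rw [sq, Complex.mul_re, Complex.sub_re, Complex.sub_im, hp]
    simp only
    ring
  · rw [Complex.norm_def, Complex.normSq_apply, Complex.sub_re, Complex.sub_im, hp]
    simp only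
    congr 1
    ring

theorem KK_mul {σ t : ℝ} (hσ : 0 < σ) (hσ1 : σ ≤ 1 / 8) {p q : ℂ} (hp : p.re = 0) (hq : q.re = 0) :
    ‖KK ((⟨σ, t⟩ : ℂ) - p)‖ * ‖KK ((⟨σ, t⟩ : ℂ) - q)‖ ≤
      Real.exp (-(1 / 2) * (p.im - q.im) ^ 2) *
        ((σ ^ 2 + (t - p.im) ^ 2)⁻¹ + (σ ^ 2 + (t - q.im) ^ 2)⁻¹) := by
  rw [KK_norm hσ hp, KK_norm hσ hq]
  set a := t - p.im with ha
  set b := t - q.im with hb
  have hab : p.im - q.im = b - a := by rw [ha, hb]; ring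
  rw [hab]
  have hA : 0 < σ ^ 2 + a ^ 2 := by positivity
  have hB : 0 < σ ^ 2 + b ^ 2 := by positivity
  set x := (Real.sqrt (σ ^ 2 + a ^ 2))⁻¹ with hx
  set y := (Real.sqrt (σ ^ 2 + b ^ 2))⁻¹ with hy
  have hx0 : 0 ≤ x := by positivity
  have hy0 : 0 ≤ y := by positivity
  have hx2 : (σ ^ 2 + a ^ 2)⁻¹ = x ^ 2 := by
    rw [hx, inv_pow, Real.sq_sqrt hA.le]
  have hy2 : (σ ^ 2 + b ^ 2)⁻¹ = y ^ 2 := by
    rw [hy, inv_pow, Real.sq_sqrt hB.le]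
  rw [hx2, hy2, div_eq_mul_inv, div_eq_mul_inv]
  have h1 : Real.exp (σ ^ 2 - a ^ 2) * Real.exp (σ ^ 2 - b ^ 2) ≤ 2 * Real.exp (-(1 / 2) * (b - a) ^ 2) := by
    have h2 : Real.exp (2 * σ ^ 2) ≤ 2 := by
      have h3 : 2 * σ ^ 2 ≤ 1 / 2 := by nlinarith
      have h4 : Real.exp (1 / 2) ≤ 2 := by
        have := Real.exp_one_lt_d9
        have h5 : Real.exp (1 / 2) ^ 2 = Real.exp 1 := by
          rw [← Real.exp_nat_mul]; norm_num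
        nlinarith [Real.exp_pos (1 / 2)]
      exact (Real.exp_le_exp.2 h3).trans h4
    calc Real.exp (σ ^ 2 - a ^ 2) * Real.exp (σ ^ 2 - b ^ 2)
        = Real.exp (2 * σ ^ 2) * Real.exp (-(a ^ 2 + b ^ 2)) := by
          rw [← Real.exp_add, ← Real.exp_add]; ring_nf
      _ ≤ 2 * Real.exp (-(1 / 2) * (b - a) ^ 2) := by
          refine mul_le_mul h2 (Real.exp_le_exp.2 ?_) (Real.exp_pos _).le (by norm_num)
          nlinarith [sq_nonneg (a + b)]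
  have h5 : 2 * (x * y) ≤ x ^ 2 + y ^ 2 := by nlinarith [sq_nonneg (x - y)]
  calc Real.exp (σ ^ 2 - a ^ 2) * x * (Real.exp (σ ^ 2 - b ^ 2) * y)
      = (Real.exp (σ ^ 2 - a ^ 2) * Real.exp (σ ^ 2 - b ^ 2)) * (x * y) := by ring
    _ ≤ (2 * Real.exp (-(1 / 2) * (b - a) ^ 2)) * (x * y) := by gcongr
    _ = Real.exp (-(1 / 2) * (b - a) ^ 2) * (2 * (x * y)) := by ring
    _ ≤ _ := mul_le_mul_of_nonneg_left h5 (Real.exp_pos _).le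

theorem cauchy_integrable {σ : ℝ} (hσ : 0 < σ) (g : ℝ) :
    Integrable (fun t : ℝ => (σ ^ 2 + (t - g) ^ 2)⁻¹) ∧
    ∫ t : ℝ, (σ ^ 2 + (t - g) ^ 2)⁻¹ = Real.pi / σ := by
  have e : ∀ t : ℝ, (σ ^ 2 + t ^ 2)⁻¹ = (σ ^ 2)⁻¹ * (1 + (t / σ) ^ 2)⁻¹ := by
    intro t
    rw [← mul_inv]
    congr 1
    field_simp
  have h1 : Integrable (fun t : ℝ => (σ ^ 2 + t ^ 2)⁻¹) := by
    simp_rw [e]
    exact (integrable_inv_one_add_sq.comp_div hσ.ne').const_mul _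
  refine ⟨h1.comp_sub_right g, ?_⟩
  rw [integral_sub_right_eq_self (fun t : ℝ => (σ ^ 2 + t ^ 2)⁻¹) g]
  simp_rw [e]
  rw [integral_const_mul, Measure.integral_comp_div (fun t : ℝ => (1 + t ^ 2)⁻¹) σ,
    integral_univ_inv_one_add_sq, abs_of_pos hσ, smul_eq_mul]
  field_simp

theorem KK_measurable (σ : ℝ) (p : ℂ) : Measurable (fun t : ℝ => ‖KK ((⟨σ, t⟩ : ℂ) - p)‖ₑ) := by
  unfold KK
  have : Continuous (fun t : ℝ => (⟨σ, t⟩ : ℂ) - p) := by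
    have h : (fun t : ℝ => (⟨σ, t⟩ : ℂ) - p) = fun t : ℝ => ((σ : ℂ) + t * I) - p := by
      funext t; rw [mk_quarter]
    rw [h]
    fun_prop
  have hm := this.measurable
  exact ((Complex.measurable_exp.comp (hm.pow_const 2)).div hm).enorm

theorem KK_lintegral {σ : ℝ} (hσ : 0 < σ) (hσ1 : σ ≤ 1 / 8) {p q : ℂ} (hp : p.re = 0) (hq : q.re = 0) :
    ∫⁻ t : ℝ, ‖KK ((⟨σ, t⟩ : ℂ) - p)‖ₑ * ‖KK ((⟨σ, t⟩ : ℂ) - q)‖ₑ ≤
      ENNReal.ofReal (2 * Real.pi / σ) * ENNReal.ofReal (Real.exp (-(1 / 2) * (p.im - q.im) ^ 2)) := by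
  obtain ⟨i1, e1⟩ := cauchy_integrable hσ p.im
  obtain ⟨i2, e2⟩ := cauchy_integrable hσ q.im
  have i3 : Integrable (fun t : ℝ => Real.exp (-(1 / 2) * (p.im - q.im) ^ 2) *
      ((σ ^ 2 + (t - p.im) ^ 2)⁻¹ + (σ ^ 2 + (t - q.im) ^ 2)⁻¹)) :=
    (i1.add i2).const_mul (Real.exp (-(1 / 2) * (p.im - q.im) ^ 2))
  calc ∫⁻ t : ℝ, ‖KK ((⟨σ, t⟩ : ℂ) - p)‖ₑ * ‖KK ((⟨σ, t⟩ : ℂ) - q)‖ₑ
      ≤ ∫⁻ t : ℝ, ENNReal.ofReal (Real.exp (-(1 / 2) * (p.im - q.im) ^ 2) *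
        ((σ ^ 2 + (t - p.im) ^ 2)⁻¹ + (σ ^ 2 + (t - q.im) ^ 2)⁻¹)) := by
        apply lintegral_mono
        intro t
        simp only
        rw [← ofReal_norm, ← ofReal_norm, ← ENNReal.ofReal_mul (norm_nonneg _)]
        exact ENNReal.ofReal_le_ofReal (KK_mul hσ hσ1 hp hq)
    _ = ENNReal.ofReal (∫ t : ℝ, Real.exp (-(1 / 2) * (p.im - q.im) ^ 2) *
        ((σ ^ 2 + (t - p.im) ^ 2)⁻¹ + (σ ^ 2 + (t - q.im) ^ 2)⁻¹)) := by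
        rw [ofReal_integral_eq_lintegral_ofReal i3]
        exact Eventually.of_forall fun t => by
          simp only [Pi.zero_apply]; positivity
    _ = _ := by
        rw [integral_const_mul, integral_add i1 i2, e1, e2, ← ENNReal.ofReal_mul (by positivity)]
        congr 1
        ring

theorem sq_tsum_lintegral {σ : ℝ} (hσ : 0 < σ) (hσ1 : σ ≤ 1 / 8) (c : Pz → ℝ≥0∞) :
    ∫⁻ t : ℝ, (∑' p : Pz, c p * ‖KK ((⟨σ, t⟩ : ℂ) - p)‖ₑ) ^ 2 ≤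
      ENNReal.ofReal (2 * Real.pi / σ) * GQ c := by
  have hm : ∀ p : Pz, Measurable (fun t : ℝ => ‖KK ((⟨σ, t⟩ : ℂ) - (p : ℂ))‖ₑ) := fun p =>
    KK_measurable σ p
  calc ∫⁻ t : ℝ, (∑' p : Pz, c p * ‖KK ((⟨σ, t⟩ : ℂ) - p)‖ₑ) ^ 2
      = ∫⁻ t : ℝ, ∑' p : Pz, ∑' q : Pz, (c p * ‖KK ((⟨σ, t⟩ : ℂ) - p)‖ₑ) *
          (c q * ‖KK ((⟨σ, t⟩ : ℂ) - q)‖ₑ) := by
        refine lintegral_congr fun t => ?_
        rw [sq, ← ENNReal.tsum_mul_right]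
        refine tsum_congr fun p => ?_
        rw [← ENNReal.tsum_mul_left]
    _ = ∑' p : Pz, ∑' q : Pz, ∫⁻ t : ℝ, (c p * ‖KK ((⟨σ, t⟩ : ℂ) - p)‖ₑ) *
          (c q * ‖KK ((⟨σ, t⟩ : ℂ) - q)‖ₑ) := by
        rw [lintegral_tsum]
        · refine tsum_congr fun p => ?_
          rw [lintegral_tsum]
          exact fun q => (((hm p).const_mul _).mul ((hm q).const_mul _)).aemeasurable
        · intro p
          refine (Measurable.tsum fun q : Pz => ?_).aemeasurable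
          exact ((hm p).const_mul _).mul ((hm q).const_mul _)
    _ ≤ ∑' p : Pz, ∑' q : Pz, ENNReal.ofReal (2 * Real.pi / σ) * (c p * c q *
          ENNReal.ofReal (Real.exp (-(1 / 2) * ((p : ℂ).im - (q : ℂ).im) ^ 2))) := by
        refine ENNReal.tsum_le_tsum fun p => ENNReal.tsum_le_tsum fun q => ?_
        have e : ∀ t : ℝ, (c p * ‖KK ((⟨σ, t⟩ : ℂ) - p)‖ₑ) * (c q * ‖KK ((⟨σ, t⟩ : ℂ) - q)‖ₑ) =
            (c p * c q) * (‖KK ((⟨σ, t⟩ : ℂ) - p)‖ₑ * ‖KK ((⟨σ, t⟩ : ℂ) - q)‖ₑ) := by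
          intro t; ring
        simp_rw [e]
        have hmm : Measurable (fun t : ℝ => ‖KK ((⟨σ, t⟩ : ℂ) - (p : ℂ))‖ₑ * ‖KK ((⟨σ, t⟩ : ℂ) - (q : ℂ))‖ₑ) :=
          (hm p).mul (hm q)
        rw [lintegral_const_mul _ hmm]
        calc c p * c q * ∫⁻ t : ℝ, ‖KK ((⟨σ, t⟩ : ℂ) - p)‖ₑ * ‖KK ((⟨σ, t⟩ : ℂ) - q)‖ₑ
            ≤ c p * c q * (ENNReal.ofReal (2 * Real.pi / σ) *
              ENNReal.ofReal (Real.exp (-(1 / 2) * ((p : ℂ).im - (q : ℂ).im) ^ 2))) := by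
              gcongr
              exact KK_lintegral hσ hσ1 p.2.1 q.2.1
          _ = _ := by ring
    _ = _ := by
        unfold GQ
        rw [← ENNReal.tsum_mul_left]
        refine tsum_congr fun p => ?_
        rw [← ENNReal.tsum_mul_left]

theorem enn_add_sq (a b : ℝ≥0∞) : (a + b) ^ 2 ≤ 2 * a ^ 2 + 2 * b ^ 2 := by
  by_cases ha : a = ⊤
  · simp [ha]
  by_cases hb : b = ⊤
  · simp [hb]
  lift a to NNReal using ha
  lift b to NNReal using hb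
  have h : (a + b) ^ 2 ≤ 2 * a ^ 2 + 2 * b ^ 2 := by
    rw [← NNReal.coe_le_coe]
    push_cast
    nlinarith [sq_nonneg ((a : ℝ) - b)]
  exact_mod_cast h

/-- the mean square bound on vertical lines -/
theorem L2bound (hR : RHSimple) : ∃ C : ℝ, 0 < C ∧ ∀ (φ : ℂ → ℂ) (B : ℝ), Differentiable ℂ φ → 0 ≤ B →
    (∀ w : ℂ, |w.re| ≤ 1 / 4 → ‖φ w‖ ≤ B) → ∀ σ : ℝ, 0 < σ → σ ≤ 1 / 8 →
    ∀ Z : Finset ℂ, (∀ p ∈ Z, p ∈ Pz) →
      ∫⁻ t : ℝ, ‖F (⟨σ, t⟩ : ℂ) * φ (⟨σ, t⟩ : ℂ) - ∑ p ∈ Z, Ar p * φ p * KK ((⟨σ, t⟩ : ℂ) - p)‖ₑ ^ 2 ≤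
        ENNReal.ofReal (C * B ^ 2) + ENNReal.ofReal (C / σ) *
          GQ (fun p => if (p : ℂ) ∈ Z then 0 else ‖Ar p * φ p‖ₑ) := by
  obtain ⟨C, hC0, hC⟩ := EF hR
  have hdec : Integrable (fun t : ℝ => (1 + |t|) ^ (-(3 / 2) : ℝ)) := by
    have := integrable_one_add_norm (E := ℝ) (μ := volume) (r := 3 / 2) (by simp; norm_num)
    simpa using this
  set G : ℝ := ∫ t : ℝ, (1 + |t|) ^ (-(3 / 2) : ℝ) with hG
  have hG0 : 0 ≤ G := integral_nonneg fun t => by positivity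
  refine ⟨2 * C ^ 2 * G + 4 * Real.pi, by positivity, fun φ B hφ hB hφB σ h0 h1 Z hZ => ?_⟩
  set c : Pz → ℝ≥0∞ := fun p => if (p : ℂ) ∈ Z then 0 else ‖Ar p * φ p‖ₑ with hc
  have hpt : ∀ t : ℝ, ‖F (⟨σ, t⟩ : ℂ) * φ (⟨σ, t⟩ : ℂ) - ∑ p ∈ Z, Ar p * φ p * KK ((⟨σ, t⟩ : ℂ) - p)‖ₑ ^ 2 ≤
      2 * ENNReal.ofReal ((C * B) ^ 2 * (1 + |t|) ^ (-(3 / 2) : ℝ)) +
      2 * (∑' p : Pz, c p * ‖KK ((⟨σ, t⟩ : ℂ) - p)‖ₑ) ^ 2 := by
    intro t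
    obtain ⟨h2, h3⟩ := hC φ B hφ hB hφB (⟨σ, t⟩ : ℂ) h0 h1
    have h4 := h3 Z hZ
    set z : ℂ := ⟨σ, t⟩ with hz
    have h5 : F z * φ z - ∑ p ∈ Z, Ar p * φ p * KK (z - p) =
        HH φ z + (F z * φ z - HH φ z - ∑ p ∈ Z, Ar p * φ p * KK (z - p)) := by ring
    rw [h5]
    have h6 : ‖HH φ z‖ₑ ^ 2 ≤ ENNReal.ofReal ((C * B) ^ 2 * (1 + |t|) ^ (-(3 / 2) : ℝ)) := by
      rw [← ofReal_norm, ← ENNReal.ofReal_pow (norm_nonneg _)]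
      apply ENNReal.ofReal_le_ofReal
      have h7 : (1 + |t|) ^ (-(3 / 2) : ℝ) = ((1 + |t|) ^ (-(3 / 4) : ℝ)) ^ 2 := by
        rw [← Real.rpow_natCast, ← Real.rpow_mul (by positivity)]
        norm_num
      rw [h7, ← mul_pow]
      exact pow_le_pow_left₀ (norm_nonneg _) h2 2
    calc ‖HH φ z + (F z * φ z - HH φ z - ∑ p ∈ Z, Ar p * φ p * KK (z - p))‖ₑ ^ 2
        ≤ (‖HH φ z‖ₑ + ∑' p : Pz, c p * ‖KK (z - p)‖ₑ) ^ 2 := by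
          gcongr
          exact (enorm_add_le _ _).trans (add_le_add le_rfl h4)
      _ ≤ 2 * ‖HH φ z‖ₑ ^ 2 + 2 * (∑' p : Pz, c p * ‖KK (z - p)‖ₑ) ^ 2 := by
          exact enn_add_sq _ _
      _ ≤ _ := by gcongr
  calc _ ≤ ∫⁻ t : ℝ, (2 * ENNReal.ofReal ((C * B) ^ 2 * (1 + |t|) ^ (-(3 / 2) : ℝ)) +
      2 * (∑' p : Pz, c p * ‖KK ((⟨σ, t⟩ : ℂ) - p)‖ₑ) ^ 2) := lintegral_mono hpt
    _ = 2 * (∫⁻ t : ℝ, ENNReal.ofReal ((C * B) ^ 2 * (1 + |t|) ^ (-(3 / 2) : ℝ))) +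
      2 * ∫⁻ t : ℝ, (∑' p : Pz, c p * ‖KK ((⟨σ, t⟩ : ℂ) - p)‖ₑ) ^ 2 := by
        have hm1 : Measurable (fun t : ℝ => ENNReal.ofReal ((C * B) ^ 2 * (1 + |t|) ^ (-(3 / 2) : ℝ))) := by
          fun_prop
        have hm2 : Measurable (fun t : ℝ => (∑' p : Pz, c p * ‖KK ((⟨σ, t⟩ : ℂ) - p)‖ₑ) ^ 2) :=
          (Measurable.tsum fun p : Pz => (KK_measurable σ p).const_mul _).pow_const 2
        rw [lintegral_add_left (hm1.const_mul 2), lintegral_const_mul _ hm1, lintegral_const_mul _ hm2]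
    _ ≤ 2 * ENNReal.ofReal ((C * B) ^ 2 * G) + 2 * (ENNReal.ofReal (2 * Real.pi / σ) * GQ c) := by
        gcongr
        · rw [← ofReal_integral_eq_lintegral_ofReal (hdec.const_mul _) (Eventually.of_forall fun t => by
            simp only [Pi.zero_apply]; positivity), integral_const_mul]
        · exact sq_tsum_lintegral h0 h1 c
    _ ≤ _ := by
        have e2 : (2 : ℝ≥0∞) = ENNReal.ofReal 2 := by simp
        have hp := Real.pi_pos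
        have hCG : 0 ≤ C ^ 2 * G := by positivity
        rw [e2, ← ENNReal.ofReal_mul (by norm_num), ← mul_assoc (ENNReal.ofReal 2),
          ← ENNReal.ofReal_mul (by norm_num)]
        refine add_le_add (ENNReal.ofReal_le_ofReal ?_) (mul_le_mul_left (ENNReal.ofReal_le_ofReal ?_) _)
        · nlinarith [mul_nonneg Real.pi_pos.le (sq_nonneg B)]
        · rw [← mul_div_assoc, ← mul_assoc]
          gcongr
          linarith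

end Pool.Agent.Helper90.WM
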