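import Pool.Agent.Helper90.WM.L2
import Pool.Graph.R_seed8.H295R2.WM8

/-!
# The Laplace transform of `M(e^s) e^{-s/2}`
-/

set_option autoImplicit false

open Complex Filter Topology Set MeasureTheory H370
open Pool.Agent.H295R2 (Zs fz Mx mu m0 Nice Lap JJ)
open scoped ENNReal

namespace Pool.Agent.Helper90.WM

theorem Mx_zero {u : ℝ} (hu : u < 0) : Mx (Real.exp u) = 0 := by
  unfold Pool.Agent.H295R2.Mx
  have h : ⌊Real.exp u⌋₊ = 0 := Nat.floor_eq_zero.2 (Real.exp_lt_one_iff.2 hu)
  rw [h]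
  simp

theorem m0_meas : Measurable m0 := by
  unfold Pool.Agent.H295R2.m0
  exact Complex.measurable_ofReal.comp ((Pool.Agent.H295R2.Mx_meas.comp Real.measurable_exp).mul
    (by fun_prop))

theorem m0_norm (u : ℝ) : ‖m0 u‖ = |Mx (Real.exp u)| * Real.exp (-(u / 2)) := by
  unfold Pool.Agent.H295R2.m0
  rw [Complex.norm_real, Real.norm_eq_abs, abs_mul, abs_of_pos (Real.exp_pos _)]

theorem m0_zero {u : ℝ} (hu : u < 0) : m0 u = 0 := by
  rw [← norm_eq_zero, m0_norm, Mx_zero hu, abs_zero, zero_mul]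

theorem m0_nice {θ ε : ℝ} (hθ : 1 / 4 ≤ θ) (hz : ∀ s : ℂ, θ < s.re → Zs s ≠ 0) (hε : θ - 1 / 2 < ε)
    (hε1 : ε ≤ 1) : ∃ C, Nice m0 C ε 0 := by
  obtain ⟨C, hC0, hC⟩ := Pool.Agent.H295R2.mertens_bound hθ hz (σ := 1 / 2 + ε) (by linarith) (by linarith)
  refine ⟨C, m0_meas, fun u => ?_, fun u hu => m0_zero hu⟩
  rcases lt_or_ge u 0 with h | h
  · rw [m0_zero h, norm_zero]; positivity
  · rw [m0_norm]
    have h1 := hC (Real.exp u) (Real.one_le_exp h)
    have h2 : Real.exp u ^ (1 / 2 + ε) = Real.exp ((1 / 2 + ε) * u) := by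
      rw [← Real.exp_mul]; ring_nf
    calc |Mx (Real.exp u)| * Real.exp (-(u / 2)) ≤ (C * Real.exp u ^ (1 / 2 + ε)) * Real.exp (-(u / 2)) := by
          gcongr
      _ = C * (Real.exp ((1 / 2 + ε) * u) * Real.exp (-(u / 2))) := by rw [h2]; ring
      _ = C * Real.exp (ε * u) := by rw [← Real.exp_add]; ring_nf

theorem Mx_cast (t : ℝ) : ((Mx t : ℝ) : ℂ) =
    ∑ k ∈ Finset.Icc 1 ⌊t⌋₊, ((ArithmeticFunction.moebius k : ℤ) : ℂ) := by
  unfold Pool.Agent.H295R2.Mx Pool.Agent.H295R2.mu
  push_cast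
  rfl

theorem Lap_m0_far {z : ℂ} (hz : 1 / 2 < z.re) : Lap m0 z = F z := by
  have hs : 1 < (z + 1 / 2).re := by
    rw [Complex.add_re]; norm_num; linarith
  have h1 := Pool.Agent.H295R2.moebius_lseries hs
  have h2 := LSeries_eq_mul_integral (fun n => ((ArithmeticFunction.moebius n : ℤ) : ℂ)) (r := 1)
    zero_le_one hs h1.LSeriesSummable ?_
  · rw [h1.LSeries_eq] at h2
    have hne : z + 1 / 2 ≠ 0 := by
      intro h
      rw [h] at hs
      norm_num at hs
    unfold F
    rw [h2, mul_div_cancel_left₀ _ hne]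
    have h3 := integral_image_eq_integral_abs_deriv_smul (s := Ioi 0) (f := Real.exp) (f' := Real.exp)
      measurableSet_Ioi (fun x _ => (Real.hasDerivAt_exp x).hasDerivWithinAt) (Real.exp_injective.injOn)
      (fun t : ℝ => (∑ k ∈ Finset.Icc 1 ⌊t⌋₊, ((ArithmeticFunction.moebius k : ℤ) : ℂ)) *
        (t : ℂ) ^ (-(z + 1 / 2 + 1)))
    have himg : Real.exp '' Ioi 0 = Ioi 1 := by
      ext y
      simp only [mem_image, mem_Ioi]
      constructor
      · rintro ⟨x, hx, rfl⟩
        exact Real.one_lt_exp_iff.2 hx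
      · intro hy
        have hy0 : 0 < y := by linarith
        exact ⟨Real.log y, Real.log_pos hy, Real.exp_log hy0⟩
    rw [himg] at h3
    rw [h3]
    unfold Pool.Agent.H295R2.Lap
    have h4 : ∫ u : ℝ, m0 u * Complex.exp (-(z * u)) = ∫ u in Ici 0, m0 u * Complex.exp (-(z * u)) := by
      rw [← integral_indicator measurableSet_Ici]
      refine integral_congr_ae (Eventually.of_forall fun u => ?_)
      simp only
      by_cases hu : u ∈ Ici (0 : ℝ)
      · rw [indicator_of_mem hu]
      · rw [indicator_of_notMem hu, m0_zero (not_le.1 hu), zero_mul]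
    rw [h4, integral_Ici_eq_integral_Ioi]
    refine integral_congr_ae (Eventually.of_forall fun u => ?_)
    simp only
    rw [abs_of_pos (Real.exp_pos u), ← Mx_cast]
    unfold Pool.Agent.H295R2.m0
    have h5 : ((Real.exp u : ℝ) : ℂ) ^ (-(z + 1 / 2 + 1)) = Complex.exp (-(z + 1 / 2 + 1) * u) := by
      rw [Complex.cpow_def_of_ne_zero (by exact_mod_cast (Real.exp_pos u).ne'), ← Complex.ofReal_log (Real.exp_pos u).le,
        Real.log_exp]
      ring_nf
    rw [h5, Complex.real_smul]
    push_cast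
    have h6 : Complex.exp (-(z + 1 / 2 + 1) * u) = Complex.exp (-(u / 2)) * Complex.exp (-(z * u)) *
        Complex.exp (-u) := by
      rw [← Complex.exp_add, ← Complex.exp_add]; ring_nf
    have h7 : Complex.exp (-(u : ℂ)) * Complex.exp u = 1 := by
      rw [← Complex.exp_add]; simp
    rw [h6]
    linear_combination (-((Mx (Real.exp u) : ℝ) : ℂ) * (Complex.exp (-(u / 2)) * Complex.exp (-(z * u)))) * h7
  · refine Asymptotics.IsBigO.of_bound 1 (Eventually.of_forall fun n => ?_)
    rw [one_mul, Real.rpow_one, Real.norm_eq_abs, abs_of_nonneg (Nat.cast_nonneg n)]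
    refine (norm_sum_le _ _).trans ?_
    calc ∑ k ∈ Finset.Icc 1 n, ‖((ArithmeticFunction.moebius k : ℤ) : ℂ)‖ ≤ ∑ k ∈ Finset.Icc 1 n, (1 : ℝ) := by
          refine Finset.sum_le_sum fun k _ => ?_
          have := ArithmeticFunction.abs_moebius_le_one (n := k)
          rw [Complex.norm_intCast]
          exact_mod_cast this
      _ = n := by simp

theorem Lap_m0 (hR : RHSimple) {z : ℂ} (hz : 0 < z.re) : Lap m0 z = F z := by
  have h1 : AnalyticOnNhd ℂ (Lap m0) {s | 0 < s.re} := by
    apply DifferentiableOn.analyticOnNhd _ (isOpen_lt continuous_const Complex.continuous_re)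
    intro s hs
    have hs' : 0 < s.re := hs
    obtain ⟨C, hC⟩ := m0_nice (θ := 1 / 2) (ε := min (s.re / 2) 1) (by norm_num) hR.free
      (by rw [sub_self]; positivity) (min_le_right _ _)
    exact (hC.Lap_differentiableAt (by
      have := min_le_left (s.re / 2) 1
      linarith)).differentiableWithinAt
  have h2 : AnalyticOnNhd ℂ F {s | 0 < s.re} := by
    apply DifferentiableOn.analyticOnNhd _ (isOpen_lt continuous_const Complex.continuous_re)
    intro s hs
    have hs' : 0 < s.re := hs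
    exact (F_diff (by linarith) (hR.free _ (by rw [Complex.add_re]; norm_num; exact hs'))).differentiableWithinAt
  have h3 := h1.eqOn_of_preconnected_of_eventuallyEq h2 (convex_halfSpace_re_gt 0).isPreconnected
    (z₀ := 1) (by simp) (by
      have : {s : ℂ | 1 / 2 < s.re} ∈ 𝓝 (1 : ℂ) :=
        (isOpen_lt continuous_const Complex.continuous_re).mem_nhds (by norm_num)
      filter_upwards [this] with z hz
      exact Lap_m0_far hz)
  exact h3 hz

end Pool.Agent.Helper90.WM
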