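import Pool.Graph.R_seed8.H370R2.Rect

/-!
# The residue theorem for a rectangle and a function with simple poles
-/

set_option autoImplicit false

open Complex Filter Topology Set MeasureTheory H370

namespace Pool.Agent.Helper90.WM

theorem rect_residues {a b c d : ℝ} (hab : a < b) (hcd : c < d) (P : Finset ℂ) :
    ∀ (f : ℂ → ℂ) (r : ℂ → ℂ), (∀ p ∈ P, p ∈ Set.Ioo a b ×ℂ Set.Ioo c d) →
      (∀ w ∈ Set.Icc a b ×ℂ Set.Icc c d, w ∉ P → DifferentiableAt ℂ f w) →
      (∀ p ∈ P, Tendsto (fun w => (w - p) * f w) (𝓝[≠] p) (𝓝 (r p))) →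
      RI a b c d f = 2 * Real.pi * I * ∑ p ∈ P, r p := by
  classical
  induction P using Finset.induction_on with
  | empty =>
    intro f r _ hf _
    rw [Finset.sum_empty, mul_zero]
    exact RI_zero hab.le hcd.le fun w hw => (hf w hw (Finset.notMem_empty w)).differentiableWithinAt
  | insert p P hp ih =>
    intro f r hP hf hr
    have hpR : p ∈ Set.Ioo a b ×ℂ Set.Ioo c d := hP p (Finset.mem_insert_self p P)
    have hpI : p ∈ Set.Icc a b ×ℂ Set.Icc c d := ⟨Ioo_subset_Icc_self hpR.1, Ioo_subset_Icc_self hpR.2⟩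
    have hopen : IsOpen (Set.Ioo a b ×ℂ Set.Ioo c d) := isOpen_Ioo.reProdIm isOpen_Ioo
    set g : ℂ → ℂ := fun w => f w - r p / (w - p) with hg
    -- a punctured neighbourhood of `p` without the other poles
    have hU : ((Set.Ioo a b ×ℂ Set.Ioo c d) \ (P : Set ℂ)) ∈ 𝓝 p := by
      refine (hopen.sdiff P.finite_toSet.isClosed).mem_nhds ⟨hpR, ?_⟩
      exact fun h => hp (Finset.mem_coe.1 h)
    set U : Set ℂ := ((Set.Ioo a b ×ℂ Set.Ioo c d) \ (P : Set ℂ)) \ {p} with hUdef
    have hUmem : U ∈ 𝓝[≠] p := diff_mem_nhdsWithin_compl hU {p}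
    have hgd : ∀ w ∈ Set.Icc a b ×ℂ Set.Icc c d, w ∉ P → w ≠ p → DifferentiableAt ℂ g w := by
      intro w hw hwP hwp
      have h1 : DifferentiableAt ℂ f w := hf w hw fun h => by
        rcases Finset.mem_insert.1 h with h | h
        · exact hwp h
        · exact hwP h
      refine h1.sub ?_
      exact (differentiableAt_const _).div (by fun_prop) (sub_ne_zero.2 hwp)
    have hgU : DifferentiableOn ℂ g U := by
      intro w hw
      exact (hgd w ⟨Ioo_subset_Icc_self hw.1.1.1, Ioo_subset_Icc_self hw.1.1.2⟩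
        (fun h => hw.1.2 (Finset.mem_coe.2 h)) (fun h => hw.2 h)).differentiableWithinAt
    have h0 : Tendsto (fun w => (w - p) * g w) (𝓝[≠] p) (𝓝 0) := by
      have h1 := (hr p (Finset.mem_insert_self p P)).sub_const (r p)
      rw [sub_self] at h1
      refine h1.congr' ?_
      filter_upwards [self_mem_nhdsWithin] with w hw
      have hw' : w - p ≠ 0 := sub_ne_zero.2 hw
      simp only [hg]
      field_simp
    have ho : (fun w => g w - g p) =o[𝓝[≠] p] fun w => (w - p)⁻¹ := by
      rw [Asymptotics.isLittleO_iff_tendsto']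
      · have h2 : Tendsto (fun w => (w - p) * g w - (w - p) * g p) (𝓝[≠] p) (𝓝 (0 - (p - p) * g p)) := by
          refine h0.sub ?_
          have : Tendsto (fun w : ℂ => (w - p) * g p) (𝓝 p) (𝓝 ((p - p) * g p)) := by
            apply Continuous.tendsto
            fun_prop
          exact this.mono_left nhdsWithin_le_nhds
        rw [sub_self, zero_mul, sub_zero] at h2
        refine h2.congr' ?_
        filter_upwards [self_mem_nhdsWithin] with w hw
        have hw' : w - p ≠ 0 := sub_ne_zero.2 hw
        field_simp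
      · filter_upwards [self_mem_nhdsWithin] with w hw h
        exact absurd (inv_eq_zero.1 h) (sub_ne_zero.2 hw)
    set g₁ : ℂ → ℂ := Function.update g p (limUnder (𝓝[≠] p) g) with hg₁
    have hd1 := Complex.differentiableOn_update_limUnder_insert_of_isLittleO hUmem hgU ho
    have hins : insert p U ∈ 𝓝 p := by
      filter_upwards [hU] with w hw
      by_cases h : w = p
      · exact Or.inl h
      · exact Or.inr ⟨hw, h⟩
    have hg₁p : DifferentiableAt ℂ g₁ p := (hd1 p (mem_insert p U)).differentiableAt hins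
    have heq : ∀ w, w ≠ p → g₁ =ᶠ[𝓝 w] g := by
      intro w hw
      filter_upwards [isOpen_ne.mem_nhds hw] with v hv
      exact Function.update_of_ne hv _ _
    have hg₁d : ∀ w ∈ Set.Icc a b ×ℂ Set.Icc c d, w ∉ P → DifferentiableAt ℂ g₁ w := by
      intro w hw hwP
      by_cases hwp : w = p
      · rw [hwp]; exact hg₁p
      · exact (hgd w hw hwP hwp).congr_of_eventuallyEq (heq w hwp)
    have hg₁r : ∀ q ∈ P, Tendsto (fun w => (w - q) * g₁ w) (𝓝[≠] q) (𝓝 (r q)) := by
      intro q hq
      have hqp : q ≠ p := fun h => hp (h ▸ hq)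
      have h1 := hr q (Finset.mem_insert_of_mem hq)
      have h2 : Tendsto (fun w : ℂ => (w - q) * (r p / (w - p))) (𝓝[≠] q)
          (𝓝 ((q - q) * (r p / (q - p)))) := by
        have : ContinuousAt (fun w : ℂ => (w - q) * (r p / (w - p))) q := by
          refine ContinuousAt.mul (by fun_prop) (ContinuousAt.div continuousAt_const (by fun_prop)
            (sub_ne_zero.2 hqp))
        exact this.tendsto.mono_left nhdsWithin_le_nhds
      rw [sub_self, zero_mul] at h2
      have h3 := h1.sub h2
      rw [sub_zero] at h3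
      refine h3.congr' ?_
      have h4 : ∀ᶠ w in 𝓝[≠] q, g₁ w = g w := (heq q hqp).filter_mono nhdsWithin_le_nhds
      filter_upwards [h4] with w hw
      rw [hw]
      simp only [hg]
      ring
    have hmain := ih g₁ r (fun q hq => hP q (Finset.mem_insert_of_mem hq)) hg₁d hg₁r
    have hB : ∀ s ∈ Bd a b c d, s ≠ p := fun s hs he => Bd_not_Ioo hs (he ▸ hpR)
    have hBP : ∀ s ∈ Bd a b c d, s ∉ P := fun s hs he => Bd_not_Ioo hs (hP s (Finset.mem_insert_of_mem he))
    have hc1 : ContinuousOn g₁ (Bd a b c d) := fun s hs =>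
      (hg₁d s (Bd_sub hab.le hcd.le hs) (hBP s hs)).continuousAt.continuousWithinAt
    have hc2 : ContinuousOn (fun s : ℂ => (s - p)⁻¹) (Bd a b c d) := by
      apply ContinuousOn.inv₀ (by fun_prop)
      intro s hs
      exact sub_ne_zero.2 (hB s hs)
    have e1 : RI a b c d f = RI a b c d (fun s => g₁ s + r p * (s - p)⁻¹) := by
      apply RI_congr hab.le hcd.le
      intro s hs
      rw [hg₁, Function.update_of_ne (hB s hs)]
      simp only [hg]
      rw [div_eq_mul_inv]
      ring
    rw [e1, RI_add hab.le hcd.le (g := fun s => r p * (s - p)⁻¹) hc1 (continuousOn_const.mul hc2),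
      RI_const_mul, RI_inv hpR, hmain, Finset.sum_insert hp]
    ring

end Pool.Agent.Helper90.WM
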