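import Pool.Agent.Helper90.WM.Av
import Pool.Agent.Helper90.WM.Gau

/-!
# First theorem
-/

set_option autoImplicit false

open Complex Filter Topology Set MeasureTheory H370
open Pool.Agent.H295R2 (Zs fz Mx mu m0 Nice Lap JJ avg phi)
open scoped ENNReal

namespace Pool.Agent.Helper90.WM

theorem Nice_sq {k : ℝ → ℂ} {C a u₀ σ : ℝ} (h : Nice k C a u₀) (hσ : a < σ) :
    Integrable (fun u : ℝ => ‖k u‖ ^ 2 * Real.exp (-(2 * σ * u))) := by
  have h1 := Pool.Agent.H295R2.integrable_ind_exp (by linarith : 2 * (a - σ) < 0) (C ^ 2) u₀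
  refine h1.mono' ((h.meas.norm.pow_const 2).mul (by fun_prop)).aestronglyMeasurable
    (Eventually.of_forall fun u => ?_)
  rw [Real.norm_of_nonneg (by positivity)]
  by_cases hu : u ∈ Ici u₀
  · rw [indicator_of_mem hu]
    calc ‖k u‖ ^ 2 * Real.exp (-(2 * σ * u)) ≤ (C * Real.exp (a * u)) ^ 2 * Real.exp (-(2 * σ * u)) := by
          gcongr
          exact h.bound u
      _ = C ^ 2 * (Real.exp (a * u) ^ 2 * Real.exp (-(2 * σ * u))) := by ring
      _ = _ := by
          rw [← Real.exp_nat_mul, ← Real.exp_add]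
          congr 2
          push_cast
          ring
  · rw [indicator_of_notMem hu, h.zero u (by simpa using hu), norm_zero]
    simp

theorem planch_le {k : ℝ → ℂ} {G : ℂ → ℂ} {C a u₀ σ : ℝ} (h : Nice k C a u₀) (hσ : a < σ)
    (hG : ∀ t : ℝ, Lap k (⟨σ, t⟩ : ℂ) = G (⟨σ, t⟩ : ℂ)) :
    ENNReal.ofReal (∫ u : ℝ, ‖k u‖ ^ 2 * Real.exp (-(2 * σ * u))) ≤ ∫⁻ t : ℝ, ‖G (⟨σ, t⟩ : ℂ)‖ₑ ^ 2 := by
  obtain ⟨i1, e1⟩ := Pool.Agent.H295R2.plancherel_Lap h hσ
  have hpi : (2 * Real.pi : ℝ) ≠ 0 := by positivity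
  set g : ℝ → ℝ := fun t => ‖G (⟨σ, t⟩ : ℂ)‖ ^ 2 with hg
  have e2 : ∀ ξ : ℝ, ‖Lap k (σ + 2 * Real.pi * ξ * Complex.I)‖ ^ 2 = g (2 * Real.pi * ξ) := by
    intro ξ
    have : (σ + 2 * Real.pi * ξ * Complex.I : ℂ) = (⟨σ, 2 * Real.pi * ξ⟩ : ℂ) := by
      rw [mk_quarter]; push_cast; ring
    rw [this, hG]
  simp_rw [e2] at i1 e1
  have i2 : Integrable g := (integrable_comp_mul_left_iff g hpi).1 i1
  rw [← e1, Measure.integral_comp_mul_left g (2 * Real.pi), smul_eq_mul]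
  have hg0 : 0 ≤ ∫ t, g t := integral_nonneg fun t => by simp only [hg]; positivity
  have h1 : |(2 * Real.pi)⁻¹| ≤ 1 := by
    rw [abs_of_pos (by positivity)]
    apply inv_le_one_of_one_le₀
    linarith [Real.pi_gt_three]
  calc ENNReal.ofReal (|(2 * Real.pi)⁻¹| * ∫ t, g t) ≤ ENNReal.ofReal (∫ t, g t) := by
        apply ENNReal.ofReal_le_ofReal
        nlinarith
    _ = ∫⁻ t, ENNReal.ofReal (g t) :=
        ofReal_integral_eq_lintegral_ofReal i2 (Eventually.of_forall fun t => by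
          simp only [Pi.zero_apply, hg]; positivity)
    _ = _ := by
        refine lintegral_congr fun t => ?_
        simp only [hg]
        rw [ENNReal.ofReal_pow (norm_nonneg _), ofReal_norm]

theorem GQ_le : ∃ C : ℝ, 0 < C ∧ ∀ c : Pz → ℝ≥0∞,
    GQ c ≤ ∑' p : Pz, c p ^ 2 * ENNReal.ofReal (C * Real.log (|(p : ℂ).im| + 3)) := by
  obtain ⟨C, hC0, hC⟩ := gauss_count
  refine ⟨2 * C, by positivity, fun c => ?_⟩
  set g : Pz → Pz → ℝ≥0∞ := fun p q =>
    ENNReal.ofReal (Real.exp (-(1 / 2) * ((p : ℂ).im - (q : ℂ).im) ^ 2)) with hg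
  have hsymm : ∀ p q, g p q = g q p := by
    intro p q
    simp only [hg]
    congr 3
    ring
  have h1 : ∀ a b : ℝ≥0∞, a * b ≤ a ^ 2 + b ^ 2 := by
    intro a b
    rcases le_total a b with h | h
    · calc a * b ≤ b * b := by gcongr
        _ = b ^ 2 := (sq b).symm
        _ ≤ _ := le_add_self
    · calc a * b ≤ a * a := by gcongr
        _ = a ^ 2 := (sq a).symm
        _ ≤ _ := le_self_add
  calc GQ c = ∑' p : Pz, ∑' q : Pz, c p * c q * g p q := rfl
    _ ≤ ∑' p : Pz, ∑' q : Pz, (c p ^ 2 * g p q + c q ^ 2 * g p q) := by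
        refine ENNReal.tsum_le_tsum fun p => ENNReal.tsum_le_tsum fun q => ?_
        rw [← add_mul]
        gcongr
        exact h1 _ _
    _ = (∑' p : Pz, ∑' q : Pz, c p ^ 2 * g p q) + ∑' p : Pz, ∑' q : Pz, c q ^ 2 * g p q := by
        rw [← ENNReal.tsum_add]
        refine tsum_congr fun p => ?_
        rw [← ENNReal.tsum_add]
    _ = (∑' p : Pz, ∑' q : Pz, c p ^ 2 * g p q) + ∑' p : Pz, ∑' q : Pz, c p ^ 2 * g p q := by
        congr 1
        rw [ENNReal.tsum_comm]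
        refine tsum_congr fun p => tsum_congr fun q => ?_
        rw [hsymm]
    _ = ∑' p : Pz, c p ^ 2 * (2 * ∑' q : Pz, g p q) := by
        rw [← two_mul, ← ENNReal.tsum_mul_left]
        refine tsum_congr fun p => ?_
        rw [ENNReal.tsum_mul_left]
        ring
    _ ≤ _ := by
        refine ENNReal.tsum_le_tsum fun p => ?_
        gcongr
        calc 2 * ∑' q : Pz, g p q ≤ 2 * ENNReal.ofReal (C * Real.log (|(p : ℂ).im| + 3)) := by
              gcongr
              exact hC _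
          _ = _ := by
              rw [show (2 : ℝ≥0∞) = ENNReal.ofReal 2 by simp, ← ENNReal.ofReal_mul (by norm_num), mul_assoc]

/-- the quantitative bound -/
theorem JJ_bound (hR : RHSimple) : ∃ C : ℝ, 0 < C ∧ ∀ L : ℝ, 8 ≤ L →
    ENNReal.ofReal (JJ L) ≤ ENNReal.ofReal C + ENNReal.ofReal (C * L) *
      ∑' p : Pz, ENNReal.ofReal (‖Ar p‖ ^ 2 * (‖ph (Real.exp (-L)) p‖ ^ 2 * Real.log (|(p : ℂ).im| + 3))) := by
  obtain ⟨C1, hC1, h1⟩ := L2bound hR
  obtain ⟨C2, hC2, h2⟩ := GQ_le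
  have he2 : 0 < Real.exp 2 := Real.exp_pos 2
  refine ⟨32 + 2 * Real.exp 2 * (C1 * 9) + 2 * Real.exp 2 * C1 * C2, by positivity, fun L hL => ?_⟩
  set η := Real.exp (-L) with hη
  have hη0 : 0 < η := Real.exp_pos _
  have hη1 : η ≤ 1 := Real.exp_le_one_iff.2 (by linarith)
  have hL0 : 0 < L := by linarith
  set σ : ℝ := 1 / L with hσ
  have hσ0 : 0 < σ := by positivity
  have hσ1 : σ ≤ 1 / 8 := one_div_le_one_div_of_le (by norm_num) hL
  obtain ⟨Cm, hm⟩ := m0_nice (θ := 1 / 2) (ε := σ / 2) (by norm_num) hR.free (by rw [sub_self]; positivity)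
    (by linarith)
  have hk := Nice_avg hm (by positivity) hη0
  have hσ' : σ / 2 < σ := by linarith
  -- the time side
  have iA := Nice_sq hk hσ'
  have hT : JJ L ≤ 32 + 2 * Real.exp 2 * ∫ u : ℝ, ‖avg η m0 u‖ ^ 2 * Real.exp (-(2 * σ * u)) := by
    have e1 : JJ L = ∫ s in Ioc (0:ℝ) L, ‖m0 s‖ ^ 2 := by
      unfold Pool.Agent.H295R2.JJ
      refine integral_congr_ae (Eventually.of_forall fun s => ?_)
      simp only
      rw [m0_norm, mul_pow, sq_abs, sq (Real.exp _), ← Real.exp_add]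
      ring_nf
    have i1 : IntegrableOn (fun s : ℝ => 32 * Real.exp (-s)) (Ioc 0 L) :=
      (Continuous.integrableOn_Icc (by fun_prop)).mono_set Ioc_subset_Icc_self
    have i2 : IntegrableOn (fun s : ℝ => 2 * Real.exp 2 * (‖avg η m0 s‖ ^ 2 * Real.exp (-(2 * σ * s)))) (Ioc 0 L) :=
      (iA.const_mul _).integrableOn
    have hp : ∀ s ∈ Ioc (0:ℝ) L, ‖m0 s‖ ^ 2 ≤ 32 * Real.exp (-s) +
        2 * Real.exp 2 * (‖avg η m0 s‖ ^ 2 * Real.exp (-(2 * σ * s))) := by
      intro s hs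
      have hv := avg_var hm hs.1.le hη0 hη1 (by
        rw [hη, ← Real.exp_add]
        exact Real.exp_le_one_iff.2 (by linarith [hs.2]))
      have h3 : ‖m0 s‖ ≤ ‖avg η m0 s‖ + 4 * Real.exp (-(s / 2)) := by
        have h4 : m0 s = avg η m0 s - (avg η m0 s - m0 s) := by ring
        calc ‖m0 s‖ = ‖avg η m0 s - (avg η m0 s - m0 s)‖ := by rw [← h4]
          _ ≤ ‖avg η m0 s‖ + ‖avg η m0 s - m0 s‖ := norm_sub_le _ _
          _ ≤ _ := add_le_add le_rfl hv
      have h5 : Real.exp (-(s / 2)) ^ 2 = Real.exp (-s) := by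
        rw [sq, ← Real.exp_add]; ring_nf
      have h6 : 1 ≤ Real.exp 2 * Real.exp (-(2 * σ * s)) := by
        rw [← Real.exp_add]
        apply Real.one_le_exp
        have : σ * s ≤ 1 := by
          rw [hσ, one_div, inv_mul_le_iff₀ hL0, mul_one]
          exact hs.2
        linarith
      have h7 : ‖m0 s‖ ^ 2 ≤ 2 * ‖avg η m0 s‖ ^ 2 + 2 * (4 * Real.exp (-(s / 2))) ^ 2 := by
        have := norm_nonneg (m0 s)
        have := norm_nonneg (avg η m0 s)
        have := Real.exp_pos (-(s / 2))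
        nlinarith [sq_nonneg (‖avg η m0 s‖ - 4 * Real.exp (-(s / 2)))]
      have h8 : ‖avg η m0 s‖ ^ 2 ≤ ‖avg η m0 s‖ ^ 2 * (Real.exp 2 * Real.exp (-(2 * σ * s))) :=
        le_mul_of_one_le_right (by positivity) h6
      rw [mul_pow, h5] at h7
      nlinarith
    rw [e1]
    calc ∫ s in Ioc (0:ℝ) L, ‖m0 s‖ ^ 2 ≤ ∫ s in Ioc (0:ℝ) L, (32 * Real.exp (-s) +
          2 * Real.exp 2 * (‖avg η m0 s‖ ^ 2 * Real.exp (-(2 * σ * s)))) := by
          refine integral_mono_of_nonneg (Eventually.of_forall fun s => by positivity) (i1.add i2) ?_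
          exact (ae_restrict_mem measurableSet_Ioc).mono hp
      _ = (∫ s in Ioc (0:ℝ) L, 32 * Real.exp (-s)) +
          ∫ s in Ioc (0:ℝ) L, 2 * Real.exp 2 * (‖avg η m0 s‖ ^ 2 * Real.exp (-(2 * σ * s))) :=
          integral_add i1 i2
      _ ≤ 32 + 2 * Real.exp 2 * ∫ u : ℝ, ‖avg η m0 u‖ ^ 2 * Real.exp (-(2 * σ * u)) := by
          refine add_le_add ?_ ?_
          · rw [integral_const_mul]
            have h9 : ∫ s in Ioc (0:ℝ) L, Real.exp (-s) ≤ ∫ s in Ioi (0:ℝ), Real.exp (-s) :=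
              setIntegral_mono_set (by
                have := integrableOn_exp_neg_Ioi (0 : ℝ)
                exact this) (Eventually.of_forall fun s => (Real.exp_pos _).le)
                (Eventually.of_forall (Ioc_subset_Ioi_self))
            rw [integral_exp_neg_Ioi_zero] at h9
            linarith
          · rw [integral_const_mul]
            refine mul_le_mul_of_nonneg_left ?_ (by positivity)
            exact setIntegral_le_integral iA (Eventually.of_forall fun s => by positivity)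
  -- the frequency side
  have hG : ∀ t : ℝ, Lap (avg η m0) (⟨σ, t⟩ : ℂ) = (fun z => F z * ph η z) (⟨σ, t⟩ : ℂ) := by
    intro t
    have hz : (⟨σ, t⟩ : ℂ) ≠ 0 := by
      intro h
      have := congrArg Complex.re h
      simp only [Complex.zero_re] at this
      linarith
    simp only
    rw [Nice_Lap_avg hm (by positivity) hη0 (s := (⟨σ, t⟩ : ℂ)) hσ', Lap_m0 hR (z := (⟨σ, t⟩ : ℂ)) hσ0,
      ph_eq hη0 hz, mul_comm]
  have h3 := planch_le (G := fun z => F z * ph η z) hk hσ' hG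
  have h4 := h1 (ph η) 3 (ph_diff η) (by norm_num) (fun w hw => ph_bound hη0 hη1 hw) σ hσ0 hσ1 ∅ (by simp)
  simp only [Finset.sum_empty, sub_zero, Finset.notMem_empty, if_false] at h4
  have h5 := h2 (fun p : Pz => ‖Ar p * ph η p‖ₑ)
  have h6 : ∀ p : Pz, ‖Ar p * ph η p‖ₑ ^ 2 * ENNReal.ofReal (C2 * Real.log (|(p : ℂ).im| + 3)) =
      ENNReal.ofReal C2 * ENNReal.ofReal (‖Ar p‖ ^ 2 * (‖ph η p‖ ^ 2 * Real.log (|(p : ℂ).im| + 3))) := by
    intro p
    rw [← ofReal_norm, ← ENNReal.ofReal_pow (norm_nonneg _), ← ENNReal.ofReal_mul (by positivity),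
      ← ENNReal.ofReal_mul hC2.le, norm_mul]
    congr 1
    ring
  simp_rw [h6] at h5
  rw [ENNReal.tsum_mul_left] at h5
  set S : ℝ≥0∞ := ∑' p : Pz, ENNReal.ofReal (‖Ar p‖ ^ 2 * (‖ph η p‖ ^ 2 * Real.log (|(p : ℂ).im| + 3))) with hS
  calc ENNReal.ofReal (JJ L)
      ≤ ENNReal.ofReal (32 + 2 * Real.exp 2 * ∫ u : ℝ, ‖avg η m0 u‖ ^ 2 * Real.exp (-(2 * σ * u))) :=
        ENNReal.ofReal_le_ofReal hT
    _ = ENNReal.ofReal 32 + ENNReal.ofReal (2 * Real.exp 2) *
          ENNReal.ofReal (∫ u : ℝ, ‖avg η m0 u‖ ^ 2 * Real.exp (-(2 * σ * u))) := by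
        have : 0 ≤ ∫ u : ℝ, ‖avg η m0 u‖ ^ 2 * Real.exp (-(2 * σ * u)) :=
          integral_nonneg fun u => by positivity
        rw [ENNReal.ofReal_add (by norm_num) (by positivity), ENNReal.ofReal_mul (by positivity)]
    _ ≤ ENNReal.ofReal 32 + ENNReal.ofReal (2 * Real.exp 2) *
          (ENNReal.ofReal (C1 * 3 ^ 2) + ENNReal.ofReal (C1 / σ) * (ENNReal.ofReal C2 * S)) := by
        gcongr
        refine h3.trans (h4.trans ?_)
        gcongr
    _ = ENNReal.ofReal (32 + 2 * Real.exp 2 * (C1 * 9)) + ENNReal.ofReal (2 * Real.exp 2 * C1 * C2 * L) * S := by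
        have e1 : C1 / σ = C1 * L := by rw [hσ, div_div_eq_mul_div, div_one]
        have e2 : C1 * 3 ^ 2 = C1 * 9 := by norm_num
        rw [e1, e2, mul_add, ← add_assoc, ← ENNReal.ofReal_mul (by positivity),
          ← ENNReal.ofReal_add (by positivity) (by positivity)]
        congr 1
        rw [← mul_assoc, ← mul_assoc, ← ENNReal.ofReal_mul (by positivity), ← ENNReal.ofReal_mul (by positivity)]
        congr 2
        ring
    _ ≤ _ := by
        have q1 : 0 ≤ 2 * Real.exp 2 * C1 * C2 := by positivity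
        have q2 : 0 ≤ 2 * Real.exp 2 * (C1 * 9) := by positivity
        refine add_le_add (ENNReal.ofReal_le_ofReal (by linarith))
          (mul_le_mul_left (ENNReal.ofReal_le_ofReal ?_) _)
        exact mul_le_mul_of_nonneg_right (by linarith) hL0.le

end Pool.Agent.Helper90.WM
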