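import Pool.Agent.Helper90.WM.T1

/-!
# Approximation by finite sums over zeros
-/

set_option autoImplicit false

open Complex Filter Topology Set MeasureTheory H370
open Pool.Agent.H295R2 (Zs fz Mx mu m0 Nice Lap JJ avg phi step)
open scoped ENNReal

namespace Pool.Agent.Helper90.WM

/-- the finite sum over zeros -/
noncomputable def fS (Z : Finset ℂ) (s : ℝ) : ℂ := ∑ p ∈ Z, Ar p * Complex.exp (p * s)

theorem RK_bound {w : ℂ} (h0 : w ≠ 0) (h1 : |w.re| ≤ 1 / 8) :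
    ‖KK w - 1 / w‖ ^ 2 ≤ 18 * (1 + w.im ^ 2)⁻¹ := by
  have hn : 0 < ‖w‖ := norm_pos_iff.2 h0
  have e1 : KK w - 1 / w = (Complex.exp (w ^ 2) - 1) / w := by
    unfold KK; rw [← sub_div]
  have him : w.im ^ 2 ≤ ‖w‖ ^ 2 := by
    have := Complex.abs_im_le_norm w
    rw [← sq_abs]
    exact pow_le_pow_left₀ (abs_nonneg _) this 2
  rw [e1, norm_div, div_pow, div_le_iff₀ (by positivity), mul_assoc]
  have hpos : 0 < 1 + w.im ^ 2 := by positivity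
  rcases le_or_gt ‖w‖ 1 with h | h
  · have h2 : ‖Complex.exp (w ^ 2) - 1‖ ≤ 2 * ‖w ^ 2‖ :=
      Complex.norm_exp_sub_one_le (by rw [norm_pow]; exact pow_le_one₀ (norm_nonneg _) h)
    rw [norm_pow] at h2
    have h3 : (1 / 2 : ℝ) ≤ (1 + w.im ^ 2)⁻¹ := by
      rw [one_div]
      apply inv_anti₀ hpos
      have : ‖w‖ ^ 2 ≤ 1 := pow_le_one₀ (norm_nonneg _) h
      linarith
    have h4 : ‖Complex.exp (w ^ 2) - 1‖ ^ 2 ≤ (2 * ‖w‖ ^ 2) ^ 2 :=
      pow_le_pow_left₀ (norm_nonneg _) h2 2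
    have h5 : ‖w‖ ^ 2 ≤ 1 := pow_le_one₀ (norm_nonneg _) h
    have h6 : 0 ≤ ‖w‖ ^ 2 := by positivity
    calc ‖Complex.exp (w ^ 2) - 1‖ ^ 2 ≤ (2 * ‖w‖ ^ 2) ^ 2 := h4
      _ = 4 * (‖w‖ ^ 2 * ‖w‖ ^ 2) := by ring
      _ ≤ 4 * (1 * ‖w‖ ^ 2) := by gcongr
      _ ≤ 18 * (1 / 2 * ‖w‖ ^ 2) := by nlinarith
      _ ≤ _ := by gcongr
  · have h2 : ‖Complex.exp (w ^ 2) - 1‖ ≤ 3 := by
      refine (norm_sub_le _ _).trans ?_
      rw [Complex.norm_exp, norm_one]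
      have e2 : (w ^ 2).re = w.re ^ 2 - w.im ^ 2 := by rw [sq, Complex.mul_re]; ring
      have h3 : (w ^ 2).re ≤ 1 / 2 := by
        rw [e2]
        have : w.re ^ 2 ≤ 1 := by
          rw [← sq_abs]
          nlinarith [abs_nonneg w.re]
        have h7 : w.re ^ 2 ≤ (1 / 8) ^ 2 := by
          rw [← sq_abs]
          exact pow_le_pow_left₀ (abs_nonneg _) h1 2
        nlinarith [sq_nonneg w.im]
      have h4 : Real.exp (1 / 2) ≤ 2 := by
        have := Real.exp_one_lt_d9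
        have h5 : Real.exp (1 / 2) ^ 2 = Real.exp 1 := by
          rw [← Real.exp_nat_mul]; norm_num
        nlinarith [Real.exp_pos (1 / 2)]
      linarith [Real.exp_le_exp.2 h3]
    have h5 : (1 : ℝ) ≤ 2 * ((1 + w.im ^ 2)⁻¹ * ‖w‖ ^ 2) := by
      rw [← mul_assoc, mul_comm 2, mul_assoc, inv_mul_eq_div, le_div_iff₀ hpos]
      have : 1 ≤ ‖w‖ ^ 2 := one_le_pow₀ h.le
      linarith
    have h6 : ‖Complex.exp (w ^ 2) - 1‖ ^ 2 ≤ 9 := by nlinarith [norm_nonneg (Complex.exp (w ^ 2) - 1)]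
    linarith

theorem RK_lintegral {σ : ℝ} (hσ : 0 < σ) (hσ1 : σ ≤ 1 / 8) (Z : Finset ℂ) (hZ : ∀ p ∈ Z, p ∈ Pz) (a : ℂ → ℂ) :
    ∫⁻ t : ℝ, ‖∑ p ∈ Z, a p * (KK ((⟨σ, t⟩ : ℂ) - p) - 1 / ((⟨σ, t⟩ : ℂ) - p))‖ₑ ^ 2 ≤
      ENNReal.ofReal ((∑ p ∈ Z, ‖a p‖ ^ 2) * (Z.card * (18 * Real.pi))) := by
  have hg : ∀ p ∈ Z, ∀ t : ℝ, ‖KK ((⟨σ, t⟩ : ℂ) - p) - 1 / ((⟨σ, t⟩ : ℂ) - p)‖ ^ 2 ≤
      18 * (1 + (t - p.im) ^ 2)⁻¹ := by
    intro p hp t
    have hre : ((⟨σ, t⟩ : ℂ) - p).re = σ := by rw [Complex.sub_re, (hZ p hp).1, sub_zero]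
    have him : ((⟨σ, t⟩ : ℂ) - p).im = t - p.im := by rw [Complex.sub_im]
    have := RK_bound (w := (⟨σ, t⟩ : ℂ) - p) (by
      intro h
      rw [h, Complex.zero_re] at hre
      linarith) (by rw [hre, abs_of_pos hσ]; exact hσ1)
    rwa [him] at this
  have hi : ∀ p : ℂ, Integrable (fun t : ℝ => 18 * (1 + (t - p.im) ^ 2)⁻¹) := fun p =>
    (integrable_inv_one_add_sq.comp_sub_right p.im).const_mul 18
  have hint : ∀ p : ℂ, ∫ t : ℝ, 18 * (1 + (t - p.im) ^ 2)⁻¹ = 18 * Real.pi := by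
    intro p
    rw [integral_const_mul, integral_sub_right_eq_self (fun t : ℝ => (1 + t ^ 2)⁻¹) p.im,
      integral_univ_inv_one_add_sq]
  have hpt : ∀ t : ℝ, ‖∑ p ∈ Z, a p * (KK ((⟨σ, t⟩ : ℂ) - p) - 1 / ((⟨σ, t⟩ : ℂ) - p))‖ ^ 2 ≤
      (∑ p ∈ Z, ‖a p‖ ^ 2) * ∑ p ∈ Z, 18 * (1 + (t - p.im) ^ 2)⁻¹ := by
    intro t
    calc ‖∑ p ∈ Z, a p * (KK ((⟨σ, t⟩ : ℂ) - p) - 1 / ((⟨σ, t⟩ : ℂ) - p))‖ ^ 2
        ≤ (∑ p ∈ Z, ‖a p‖ * ‖KK ((⟨σ, t⟩ : ℂ) - p) - 1 / ((⟨σ, t⟩ : ℂ) - p)‖) ^ 2 := by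
          gcongr
          refine (norm_sum_le _ _).trans (le_of_eq ?_)
          exact Finset.sum_congr rfl fun p _ => norm_mul _ _
      _ ≤ (∑ p ∈ Z, ‖a p‖ ^ 2) * ∑ p ∈ Z, ‖KK ((⟨σ, t⟩ : ℂ) - p) - 1 / ((⟨σ, t⟩ : ℂ) - p)‖ ^ 2 :=
          Finset.sum_mul_sq_le_sq_mul_sq _ _ _
      _ ≤ _ := by
          refine mul_le_mul_of_nonneg_left (Finset.sum_le_sum fun p hp => hg p hp t)
            (Finset.sum_nonneg fun _ _ => by positivity)
  calc ∫⁻ t : ℝ, ‖∑ p ∈ Z, a p * (KK ((⟨σ, t⟩ : ℂ) - p) - 1 / ((⟨σ, t⟩ : ℂ) - p))‖ₑ ^ 2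
      ≤ ∫⁻ t : ℝ, ENNReal.ofReal ((∑ p ∈ Z, ‖a p‖ ^ 2) * ∑ p ∈ Z, 18 * (1 + (t - p.im) ^ 2)⁻¹) := by
        refine lintegral_mono fun t => ?_
        rw [← ofReal_norm, ← ENNReal.ofReal_pow (norm_nonneg _)]
        exact ENNReal.ofReal_le_ofReal (hpt t)
    _ = ENNReal.ofReal (∫ t : ℝ, (∑ p ∈ Z, ‖a p‖ ^ 2) * ∑ p ∈ Z, 18 * (1 + (t - p.im) ^ 2)⁻¹) := by
        rw [ofReal_integral_eq_lintegral_ofReal]
        · exact (integrable_finsetSum _ fun p _ => hi p).const_mul _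
        · exact Eventually.of_forall fun t => by simp only [Pi.zero_apply]; positivity
    _ = _ := by
        rw [integral_const_mul, integral_finsetSum _ fun p _ => hi p]
        simp_rw [hint]
        rw [Finset.sum_const, nsmul_eq_mul]

theorem exp_norm_one {p : ℂ} (hp : p.re = 0) (s : ℝ) : ‖Complex.exp (p * s)‖ = 1 := by
  rw [Complex.norm_exp]
  have : (p * s).re = 0 := by rw [Complex.re_mul_ofReal, hp, zero_mul]
  rw [this, Real.exp_zero]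

theorem fS_norm {Z : Finset ℂ} (hZ : ∀ p ∈ Z, p ∈ Pz) (s : ℝ) : ‖fS Z s‖ ≤ ∑ p ∈ Z, ‖Ar p‖ := by
  unfold fS
  refine (norm_sum_le _ _).trans (Finset.sum_le_sum fun p hp => ?_)
  rw [norm_mul, exp_norm_one (hZ p hp).1, mul_one]

/-- the truncated difference is nice -/
theorem diff_nice (hR : RHSimple) {ε : ℝ} (hε : 0 < ε) (hε1 : ε ≤ 1) {Z : Finset ℂ} (hZ : ∀ p ∈ Z, p ∈ Pz) :
    ∃ C, Nice (fun s : ℝ => m0 s - step s * fS Z s) C ε 0 := by
  obtain ⟨C, hC⟩ := m0_nice (θ := 1 / 2) (ε := ε) (by norm_num) hR.free (by rw [sub_self]; exact hε) hε1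
  have hC0 := hC.C_nonneg
  refine ⟨C + ∑ p ∈ Z, ‖Ar p‖, ?_, fun u => ?_, fun u hu => ?_⟩
  · refine hC.meas.sub (Pool.Agent.H295R2.step_nice.meas.mul ?_)
    unfold fS
    have : Continuous (fun s : ℝ => ∑ p ∈ Z, Ar p * Complex.exp (p * s)) := by fun_prop
    exact this.measurable
  · rcases lt_or_ge u 0 with h | h
    · rw [m0_zero h, Pool.Agent.H295R2.step_nice.zero u h]
      simp only [zero_mul, sub_zero, norm_zero]
      have : 0 ≤ ∑ p ∈ Z, ‖Ar p‖ := Finset.sum_nonneg fun _ _ => norm_nonneg _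
      positivity
    · have h1 : 1 ≤ Real.exp (ε * u) := Real.one_le_exp (by positivity)
      have h2 : ‖step u‖ ≤ 1 := by simpa using Pool.Agent.H295R2.step_nice.bound u
      have h3 : 0 ≤ ∑ p ∈ Z, ‖Ar p‖ := Finset.sum_nonneg fun _ _ => norm_nonneg _
      calc ‖m0 u - step u * fS Z u‖ ≤ ‖m0 u‖ + ‖step u * fS Z u‖ := norm_sub_le _ _
        _ ≤ C * Real.exp (ε * u) + 1 * ∑ p ∈ Z, ‖Ar p‖ := by
            rw [norm_mul]
            gcongr
            · exact hC.bound u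
            · exact fS_norm hZ u
        _ ≤ (C + ∑ p ∈ Z, ‖Ar p‖) * Real.exp (ε * u) := by nlinarith
  · rw [m0_zero hu, Pool.Agent.H295R2.step_nice.zero u hu]
    simp

theorem diff_Lap (hR : RHSimple) {Z : Finset ℂ} (hZ : ∀ p ∈ Z, p ∈ Pz) {z : ℂ} (hz : 0 < z.re) :
    Lap (fun s : ℝ => m0 s - step s * fS Z s) z = F z - ∑ p ∈ Z, Ar p * (1 / (z - p)) := by
  have hre : ∀ p ∈ Z, 0 < (z - p).re := fun p hp => by rw [Complex.sub_re, (hZ p hp).1, sub_zero]; exact hz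
  obtain ⟨C, hC⟩ := m0_nice (θ := 1 / 2) (ε := min (z.re / 2) 1) (by norm_num) hR.free
    (by rw [sub_self]; positivity) (min_le_right _ _)
  have i1 := hC.integrable (s := z) (by
    have := min_le_left (z.re / 2) 1
    linarith)
  have i2 : ∀ p ∈ Z, Integrable (fun u : ℝ => step u * Complex.exp (-((z - p) * u))) := fun p hp =>
    Pool.Agent.H295R2.step_nice.integrable (hre p hp)
  have e2 : ∀ p ∈ Z, ∫ u : ℝ, step u * Complex.exp (-((z - p) * u)) = 1 / (z - p) := fun p hp =>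
    Pool.Agent.H295R2.Lap_step (hre p hp)
  have e1 : ∫ u : ℝ, m0 u * Complex.exp (-(z * u)) = F z := Lap_m0 hR hz
  unfold Pool.Agent.H295R2.Lap
  have e3 : ∀ u : ℝ, (m0 u - step u * fS Z u) * Complex.exp (-(z * u)) =
      m0 u * Complex.exp (-(z * u)) - ∑ p ∈ Z, Ar p * (step u * Complex.exp (-((z - p) * u))) := by
    intro u
    unfold fS
    rw [sub_mul, Finset.mul_sum, Finset.sum_mul]
    congr 1
    refine Finset.sum_congr rfl fun p _ => ?_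
    have : Complex.exp (-((z - p) * u)) = Complex.exp (p * u) * Complex.exp (-(z * u)) := by
      rw [← Complex.exp_add]; ring_nf
    rw [this]; ring
  simp_rw [e3]
  rw [integral_sub i1 (integrable_finsetSum _ fun p hp => (i2 p hp).const_mul _), e1,
    integral_finsetSum _ fun p hp => (i2 p hp).const_mul _]
  congr 1
  refine Finset.sum_congr rfl fun p hp => ?_
  rw [integral_const_mul, e2 p hp]

theorem enn_arith {E a b d : ℝ} (hE : 0 ≤ E) (ha : 0 ≤ a) (hb : 0 ≤ b) (hd : 0 ≤ d) (Q : ℝ≥0∞) :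
    ENNReal.ofReal E * (2 * (ENNReal.ofReal a + ENNReal.ofReal b * Q) + 2 * ENNReal.ofReal d) =
      ENNReal.ofReal (E * (2 * a + 2 * d)) + ENNReal.ofReal (E * (2 * b)) * Q := by
  rw [ENNReal.ofReal_mul hE, ENNReal.ofReal_add (by positivity) (by positivity),
    ENNReal.ofReal_mul (by norm_num : (0 : ℝ) ≤ 2), ENNReal.ofReal_mul (by norm_num : (0 : ℝ) ≤ 2),
    ENNReal.ofReal_mul hE, ENNReal.ofReal_mul (by norm_num : (0 : ℝ) ≤ 2), ENNReal.ofReal_ofNat]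
  ring

/-- mean square of the difference between `M(e^s)e^{-s/2}` and a finite sum over zeros -/
theorem fin_bound (hR : RHSimple) : ∃ C : ℝ, 0 < C ∧ ∀ Z : Finset ℂ, (∀ p ∈ Z, p ∈ Pz) →
    ∀ X : ℝ, 8 ≤ X →
      ENNReal.ofReal (∫ s in Ioc (0:ℝ) X, ‖m0 s - fS Z s‖ ^ 2) ≤
        ENNReal.ofReal (C * (1 + (∑ p ∈ Z, ‖Ar p‖ ^ 2) * Z.card)) +
        ENNReal.ofReal (C * X) * GQ (fun p => if (p : ℂ) ∈ Z then 0 else ‖Ar p‖ₑ) := by
  obtain ⟨C1, hC1, h1⟩ := L2bound hR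
  refine ⟨Real.exp 2 * (2 * C1 + 36 * Real.pi), by positivity, fun Z hZ X hX => ?_⟩
  have hX0 : 0 < X := by linarith
  set σ : ℝ := 1 / X with hσ
  have hσ0 : 0 < σ := by positivity
  have hσ1 : σ ≤ 1 / 8 := one_div_le_one_div_of_le (by norm_num) hX
  obtain ⟨C, hC⟩ := diff_nice hR (ε := σ / 2) (by positivity) (by linarith) hZ
  have hσ' : σ / 2 < σ := by linarith
  have iA := Nice_sq hC hσ'
  set k : ℝ → ℂ := fun s : ℝ => m0 s - step s * fS Z s with hk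
  -- the time side
  have hT : ∫ s in Ioc (0:ℝ) X, ‖m0 s - fS Z s‖ ^ 2 ≤
      Real.exp 2 * ∫ u : ℝ, ‖k u‖ ^ 2 * Real.exp (-(2 * σ * u)) := by
    have hp : ∀ s ∈ Ioc (0:ℝ) X, ‖m0 s - fS Z s‖ ^ 2 ≤
        Real.exp 2 * (‖k s‖ ^ 2 * Real.exp (-(2 * σ * s))) := by
      intro s hs
      have e1 : k s = m0 s - fS Z s := by
        simp only [hk]
        unfold Pool.Agent.H295R2.step
        rw [if_pos hs.1.le, one_mul]
      have h6 : 1 ≤ Real.exp 2 * Real.exp (-(2 * σ * s)) := by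
        rw [← Real.exp_add]
        apply Real.one_le_exp
        have : σ * s ≤ 1 := by
          rw [hσ, one_div, inv_mul_le_iff₀ hX0, mul_one]
          exact hs.2
        linarith
      rw [← e1]
      calc ‖k s‖ ^ 2 ≤ ‖k s‖ ^ 2 * (Real.exp 2 * Real.exp (-(2 * σ * s))) :=
            le_mul_of_one_le_right (by positivity) h6
        _ = _ := by ring
    calc ∫ s in Ioc (0:ℝ) X, ‖m0 s - fS Z s‖ ^ 2
        ≤ ∫ s in Ioc (0:ℝ) X, Real.exp 2 * (‖k s‖ ^ 2 * Real.exp (-(2 * σ * s))) := by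
          refine integral_mono_of_nonneg (Eventually.of_forall fun s => by positivity)
            (iA.const_mul _).integrableOn ?_
          exact (ae_restrict_mem measurableSet_Ioc).mono hp
      _ ≤ _ := by
          rw [integral_const_mul]
          refine mul_le_mul_of_nonneg_left ?_ (Real.exp_pos _).le
          exact setIntegral_le_integral iA (Eventually.of_forall fun s => by positivity)
  -- the frequency side
  have h3 := planch_le (G := fun z => F z - ∑ p ∈ Z, Ar p * (1 / (z - p))) hC hσ' (fun t =>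
    diff_Lap hR hZ (z := (⟨σ, t⟩ : ℂ)) hσ0)
  have h4 := h1 (fun _ => 1) 1 (differentiable_const _) zero_le_one (fun w _ => by simp) σ hσ0 hσ1 Z hZ
  simp only [mul_one] at h4
  have h5 := RK_lintegral hσ0 hσ1 Z hZ Ar
  have h6 : ∫⁻ t : ℝ, ‖F (⟨σ, t⟩ : ℂ) - ∑ p ∈ Z, Ar p * (1 / ((⟨σ, t⟩ : ℂ) - p))‖ₑ ^ 2 ≤
      2 * (∫⁻ t : ℝ, ‖F (⟨σ, t⟩ : ℂ) - ∑ p ∈ Z, Ar p * KK ((⟨σ, t⟩ : ℂ) - p)‖ₑ ^ 2) +
      2 * ∫⁻ t : ℝ, ‖∑ p ∈ Z, Ar p * (KK ((⟨σ, t⟩ : ℂ) - p) - 1 / ((⟨σ, t⟩ : ℂ) - p))‖ₑ ^ 2 := by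
    have hm : Measurable (fun t : ℝ => ‖∑ p ∈ Z, Ar p * (KK ((⟨σ, t⟩ : ℂ) - p) - 1 / ((⟨σ, t⟩ : ℂ) - p))‖ₑ ^ 2) := by
      have hc : Continuous (fun t : ℝ => (⟨σ, t⟩ : ℂ)) := by
        have : (fun y : ℝ => (⟨σ, y⟩ : ℂ)) = fun y : ℝ => (σ : ℂ) + y * I := by
          funext y; exact mk_quarter σ y
        rw [this]
        fun_prop
      have hcm := hc.measurable
      refine (Measurable.enorm ?_).pow_const 2
      refine Finset.measurable_sum _ fun p _ => ?_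
      unfold KK
      have h9 : Measurable (fun t : ℝ => (⟨σ, t⟩ : ℂ) - p) := hcm.sub_const p
      exact (((Complex.measurable_exp.comp (h9.pow_const 2)).div h9).sub (h9.const_div 1)).const_mul _
    calc _ ≤ ∫⁻ t : ℝ, (2 * ‖F (⟨σ, t⟩ : ℂ) - ∑ p ∈ Z, Ar p * KK ((⟨σ, t⟩ : ℂ) - p)‖ₑ ^ 2 +
          2 * ‖∑ p ∈ Z, Ar p * (KK ((⟨σ, t⟩ : ℂ) - p) - 1 / ((⟨σ, t⟩ : ℂ) - p))‖ₑ ^ 2) := by
          refine lintegral_mono fun t => ?_
          simp only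
          refine le_trans ?_ (enn_add_sq _ _)
          gcongr
          refine le_trans (le_of_eq ?_) (enorm_add_le _ _)
          congr 1
          simp_rw [mul_sub]
          rw [Finset.sum_sub_distrib]
          ring
      _ = _ := by
          rw [lintegral_add_right _ (hm.const_mul 2), lintegral_const_mul _ hm,
            lintegral_const_mul' _ _ (by simp)]
  set Q : ℝ≥0∞ := GQ (fun p => if (p : ℂ) ∈ Z then 0 else ‖Ar p‖ₑ) with hQ
  set S : ℝ := ∑ p ∈ Z, ‖Ar p‖ ^ 2 with hS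
  have hS0 : 0 ≤ S := Finset.sum_nonneg fun _ _ => by positivity
  calc ENNReal.ofReal (∫ s in Ioc (0:ℝ) X, ‖m0 s - fS Z s‖ ^ 2)
      ≤ ENNReal.ofReal (Real.exp 2 * ∫ u : ℝ, ‖k u‖ ^ 2 * Real.exp (-(2 * σ * u))) :=
        ENNReal.ofReal_le_ofReal hT
    _ = ENNReal.ofReal (Real.exp 2) * ENNReal.ofReal (∫ u : ℝ, ‖k u‖ ^ 2 * Real.exp (-(2 * σ * u))) :=
        ENNReal.ofReal_mul (by positivity)
    _ ≤ ENNReal.ofReal (Real.exp 2) * (2 * (ENNReal.ofReal (C1 * 1 ^ 2) + ENNReal.ofReal (C1 / σ) * Q) +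
          2 * ENNReal.ofReal (S * (Z.card * (18 * Real.pi)))) := by
        gcongr
        exact h3.trans (h6.trans (by gcongr))
    _ = ENNReal.ofReal (Real.exp 2 * (2 * C1 + 2 * (S * (Z.card * (18 * Real.pi))))) +
          ENNReal.ofReal (Real.exp 2 * (2 * C1) * X) * Q := by
        have e1 : C1 / σ = C1 * X := by rw [hσ, div_div_eq_mul_div, div_one]
        have e2 : C1 * 1 ^ 2 = C1 := by norm_num
        rw [e1, e2, enn_arith (Real.exp_pos 2).le hC1.le (by positivity) (by positivity)]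
        congr 3
        ring
    _ ≤ _ := by
        have hp := Real.pi_pos
        have he := Real.exp_pos 2
        have hc : (0 : ℝ) ≤ Z.card := Nat.cast_nonneg _
        refine add_le_add (ENNReal.ofReal_le_ofReal ?_) (mul_le_mul_left (ENNReal.ofReal_le_ofReal ?_) _)
        · have q1 : 0 ≤ S * Z.card := mul_nonneg hS0 hc
          rw [mul_assoc (Real.exp 2)]
          refine mul_le_mul_of_nonneg_left ?_ he.le
          nlinarith [mul_nonneg hC1.le q1]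
        · refine mul_le_mul_of_nonneg_right ?_ hX0.le
          refine mul_le_mul_of_nonneg_left ?_ he.le
          linarith

end Pool.Agent.Helper90.WM
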