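import Pool.Agent.Helper90.WM.T2

/-!
# The asymptotic formula
-/

set_option autoImplicit false

open Complex Filter Topology Set MeasureTheory H370
open Pool.Agent.H295R2 (Zs fz Mx mu m0 Nice Lap JJ avg phi step GR)
open scoped ENNReal

namespace Pool.Agent.Helper90.WM

theorem fS_sq {Z : Finset ℂ} (hZ : ∀ p ∈ Z, p ∈ Pz) (s : ℝ) :
    ‖fS Z s‖ ^ 2 = (∑ p ∈ Z, ∑ q ∈ Z, Ar p * (starRingEnd ℂ) (Ar q) * Complex.exp ((p - q) * s)).re := by
  have h1 : ((Complex.normSq (fS Z s) : ℝ) : ℂ) =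
      ∑ p ∈ Z, ∑ q ∈ Z, Ar p * (starRingEnd ℂ) (Ar q) * Complex.exp ((p - q) * s) := by
    rw [Complex.normSq_eq_conj_mul_self, mul_comm]
    unfold fS
    rw [map_sum, Finset.sum_mul_sum]
    refine Finset.sum_congr rfl fun p _ => Finset.sum_congr rfl fun q hq => ?_
    have h2 : (starRingEnd ℂ) (q * s) = -(q * s) := by
      apply Complex.ext
      · simp [(hZ q hq).1]
      · simp
    rw [map_mul, ← Complex.exp_conj, h2]
    have h3 : Complex.exp ((p - q) * s) = Complex.exp (p * s) * Complex.exp (-(q * s)) := by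
      rw [← Complex.exp_add]; ring_nf
    rw [h3]
    ring
  rw [← h1, Complex.ofReal_re, Complex.normSq_eq_norm_sq]

theorem fS_mean {Z : Finset ℂ} (hZ : ∀ p ∈ Z, p ∈ Pz) : ∃ C : ℝ, 0 ≤ C ∧ ∀ X : ℝ, 0 ≤ X →
    ∫ s in Ioc (0:ℝ) X, ‖fS Z s‖ ^ 2 ≤ (∑ p ∈ Z, ‖Ar p‖ ^ 2) * X + C := by
  classical
  refine ⟨∑ p ∈ Z, ∑ q ∈ Z, ‖Ar p‖ * ‖Ar q‖ * (2 / ‖p - q‖),
    Finset.sum_nonneg fun _ _ => Finset.sum_nonneg fun _ _ => by positivity, fun X hX => ?_⟩
  have i1 : ∀ p ∈ Z, ∀ q ∈ Z, IntegrableOn (fun s : ℝ => Ar p * (starRingEnd ℂ) (Ar q) *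
      Complex.exp ((p - q) * s)) (Ioc 0 X) := fun p _ q _ =>
    (Continuous.integrableOn_Icc (by fun_prop)).mono_set Ioc_subset_Icc_self
  have i2 : IntegrableOn (fun s : ℝ => ∑ p ∈ Z, ∑ q ∈ Z, Ar p * (starRingEnd ℂ) (Ar q) *
      Complex.exp ((p - q) * s)) (Ioc 0 X) :=
    integrable_finsetSum _ fun p hp => integrable_finsetSum _ fun q hq => i1 p hp q hq
  have e1 : ∫ s in Ioc (0:ℝ) X, ‖fS Z s‖ ^ 2 =
      (∑ p ∈ Z, ∑ q ∈ Z, Ar p * (starRingEnd ℂ) (Ar q) * GR (p - q) X).re := by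
    simp_rw [fS_sq hZ]
    have := integral_re i2
    simp only [RCLike.re_eq_complex_re] at this
    rw [this, integral_finsetSum _ fun p hp => integrable_finsetSum _ fun q hq => i1 p hp q hq]
    congr 1
    refine Finset.sum_congr rfl fun p hp => ?_
    rw [integral_finsetSum _ fun q hq => i1 p hp q hq]
    refine Finset.sum_congr rfl fun q hq => ?_
    rw [integral_const_mul]
    rfl
  rw [e1, Complex.re_sum, Finset.sum_mul, ← Finset.sum_add_distrib]
  refine Finset.sum_le_sum fun p hp => ?_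
  rw [Complex.re_sum, ← Finset.add_sum_erase Z _ hp, ← Finset.add_sum_erase Z (fun q => ‖Ar p‖ * ‖Ar q‖ * (2 / ‖p - q‖)) hp]
  have h1 : (Ar p * (starRingEnd ℂ) (Ar p) * GR (p - p) X).re = ‖Ar p‖ ^ 2 * X := by
    rw [sub_self, Pool.Agent.H295R2.GR_zero hX, Complex.mul_conj, Complex.normSq_eq_norm_sq,
      ← Complex.ofReal_mul, Complex.ofReal_re]
  rw [h1]
  have h2 : ∑ q ∈ Z.erase p, (Ar p * (starRingEnd ℂ) (Ar q) * GR (p - q) X).re ≤
      ∑ q ∈ Z.erase p, ‖Ar p‖ * ‖Ar q‖ * (2 / ‖p - q‖) := by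
    refine Finset.sum_le_sum fun q hq => ?_
    have hqp := (Finset.mem_erase.1 hq).1
    have hqZ := (Finset.mem_erase.1 hq).2
    refine (Complex.re_le_norm _).trans ?_
    rw [norm_mul, norm_mul, Complex.norm_conj]
    refine mul_le_mul_of_nonneg_left ?_ (by positivity)
    exact Pool.Agent.H295R2.GR_bound (sub_ne_zero.2 hqp.symm) (by
      rw [Complex.sub_re, (hZ p hp).1, (hZ q hqZ).1, sub_zero]) hX
  have h3 : 0 ≤ ‖Ar p‖ * ‖Ar p‖ * (2 / ‖p - p‖) := by positivity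
  linarith

theorem GQ_diag (c : Pz → ℝ≥0∞) : ∑' p : Pz, c p ^ 2 ≤ GQ c := by
  unfold GQ
  refine ENNReal.tsum_le_tsum fun p => ?_
  refine le_trans (le_of_eq ?_) (ENNReal.le_tsum p)
  rw [sub_self, zero_pow two_ne_zero, mul_zero, Real.exp_zero, ENNReal.ofReal_one, mul_one, sq]

theorem Ar_summable (hQ : GQ (fun p => ‖Ar p‖ₑ) ≠ ⊤) : Summable (fun p : Pz => ‖Ar p‖ ^ 2) := by
  have h1 : ∑' p : Pz, ‖Ar p‖ₑ ^ 2 ≠ ⊤ := ne_top_of_le_ne_top hQ (GQ_diag _)
  have h2 := ENNReal.summable_toReal h1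
  refine h2.congr fun p => ?_
  rw [ENNReal.toReal_pow, toReal_enorm]

theorem GQ_tail (hQ : GQ (fun p => ‖Ar p‖ₑ) ≠ ⊤) {ε : ℝ} (hε : 0 < ε) : ∃ Z : Finset ℂ, (∀ p ∈ Z, p ∈ Pz) ∧
    GQ (fun p => if (p : ℂ) ∈ Z then 0 else ‖Ar p‖ₑ) ≤ ENNReal.ofReal ε := by
  classical
  set G : Pz → ℝ≥0∞ := fun p => ∑' q : Pz, ‖Ar p‖ₑ * ‖Ar q‖ₑ *
    ENNReal.ofReal (Real.exp (-(1 / 2) * ((p : ℂ).im - (q : ℂ).im) ^ 2)) with hG
  have h1 := ENNReal.tendsto_tsum_compl_atTop_zero (f := G) hQ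
  have h2 := (h1.eventually (ge_mem_nhds (show (0 : ℝ≥0∞) < ENNReal.ofReal ε by simpa using hε))).exists
  obtain ⟨T, hT⟩ := h2
  refine ⟨T.map (Function.Embedding.subtype _), fun p hp => ?_, ?_⟩
  · obtain ⟨q, _, rfl⟩ := Finset.mem_map.1 hp
    exact q.2
  · have hmem : ∀ p : Pz, (p : ℂ) ∈ T.map (Function.Embedding.subtype _) ↔ p ∈ T := by
      intro p
      rw [Finset.mem_map]
      constructor
      · rintro ⟨q, hq, hqp⟩
        have : q = p := Subtype.ext hqp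
        rwa [← this]
      · exact fun h => ⟨p, h, rfl⟩
    refine le_trans ?_ hT
    unfold GQ
    calc _ ≤ ∑' p : Pz, (if p ∈ T then 0 else G p) := by
          refine ENNReal.tsum_le_tsum fun p => ?_
          by_cases hp : p ∈ T
          · simp [hmem, hp]
          · simp only [hmem, hp, if_false, hG]
            refine ENNReal.tsum_le_tsum fun q => ?_
            gcongr
            split_ifs
            · exact zero_le
            · exact le_rfl
      _ = ∑' p : {x // x ∉ T}, G p := by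
          have e := tsum_subtype (s := {x : Pz | x ∉ T}) (f := G)
          refine Eq.trans ?_ e.symm
          refine tsum_congr fun p => ?_
          by_cases hp : p ∈ T
          · simp [hp]
          · simp [hp]

/-- the asymptotic formula -/
theorem asym (hR : RHSimple) (hQ : GQ (fun p => ‖Ar p‖ₑ) ≠ ⊤) :
    Tendsto (fun X : ℝ => JJ X / X) atTop (𝓝 (∑' p : Pz, ‖Ar p‖ ^ 2)) := by
  classical
  have hsum := Ar_summable hQ
  set S : ℝ := ∑' p : Pz, ‖Ar p‖ ^ 2 with hS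
  have hS0 : 0 ≤ S := tsum_nonneg fun p => by positivity
  obtain ⟨C, hC0, hC⟩ := fin_bound hR
  have hSZ : ∀ Z : Finset ℂ, (∀ p ∈ Z, p ∈ Pz) → ∑ p ∈ Z, ‖Ar p‖ ^ 2 ≤ S := by
    intro Z hZ
    have h1 : ∑ p ∈ Z, ‖Ar p‖ ^ 2 = ∑ p ∈ Z.subtype (· ∈ Pz), ‖Ar (p : ℂ)‖ ^ 2 :=
      (Finset.sum_subtype_of_mem (fun p => ‖Ar p‖ ^ 2) hZ).symm
    rw [h1]
    exact hsum.sum_le_tsum _ fun p _ => by positivity
  have hup : ∀ a : ℝ, S < a → ∀ᶠ X : ℝ in atTop, JJ X / X < a := by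
    intro a ha
    set d : ℝ := a - S with hd
    have hd0 : 0 < d := by linarith
    set ε : ℝ := d / (4 * (S + 1)) with hε
    have hε0 : 0 < ε := by positivity
    have hεS : ε * S ≤ d / 4 := by
      rw [hε, div_mul_eq_mul_div, div_le_iff₀ (by positivity)]
      nlinarith
    set r : ℝ := d / (4 * (1 + 1 / ε) * C) with hr
    have hr0 : 0 < r := by positivity
    obtain ⟨Z, hZ, hZr⟩ := GQ_tail hQ hr0
    obtain ⟨CZ, hCZ0, hCZ⟩ := fS_mean hZ
    set D : ℝ := C * (1 + (∑ p ∈ Z, ‖Ar p‖ ^ 2) * Z.card) with hD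
    have hD0 : 0 ≤ D := by
      have : 0 ≤ ∑ p ∈ Z, ‖Ar p‖ ^ 2 := Finset.sum_nonneg fun _ _ => by positivity
      positivity
    have key : ∀ X : ℝ, 8 ≤ X → JJ X ≤ (1 + ε) * (S * X + CZ) + (1 + 1 / ε) * (D + C * X * r) := by
      intro X hX
      have hX0 : 0 < X := by linarith
      have h1 := hC Z hZ X hX
      have h2 : ∫ s in Ioc (0:ℝ) X, ‖m0 s - fS Z s‖ ^ 2 ≤ D + C * X * r := by
        have h3 : ENNReal.ofReal (∫ s in Ioc (0:ℝ) X, ‖m0 s - fS Z s‖ ^ 2) ≤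
            ENNReal.ofReal (D + C * X * r) := by
          refine h1.trans ?_
          rw [ENNReal.ofReal_add hD0 (by positivity), ENNReal.ofReal_mul (by positivity : (0 : ℝ) ≤ C * X)]
          gcongr
        exact (ENNReal.ofReal_le_ofReal_iff (by positivity)).1 h3
      have h4 := (hCZ X hX0.le)
      have e1 : JJ X = ∫ s in Ioc (0:ℝ) X, ‖m0 s‖ ^ 2 := by
        unfold Pool.Agent.H295R2.JJ
        refine integral_congr_ae (Eventually.of_forall fun s => ?_)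
        simp only
        rw [m0_norm, mul_pow, sq_abs, sq (Real.exp _), ← Real.exp_add]
        ring_nf
      have hcf : Continuous (fS Z) := by unfold fS; fun_prop
      have i1 : IntegrableOn (fun s : ℝ => ‖fS Z s‖ ^ 2) (Ioc 0 X) :=
        (Continuous.integrableOn_Icc (by fun_prop)).mono_set Ioc_subset_Icc_self
      have hi0 : IntegrableOn (fun s : ℝ => ‖m0 s‖ ^ 2) (Ioc 0 X) := by
        refine (Pool.Agent.H295R2.JJ_integrable X).congr (Eventually.of_forall fun s => ?_)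
        simp only
        rw [m0_norm, mul_pow, sq_abs, sq (Real.exp _), ← Real.exp_add]
        ring_nf
      have i2 : IntegrableOn (fun s : ℝ => ‖m0 s - fS Z s‖ ^ 2) (Ioc 0 X) := by
        refine Integrable.mono' (g := fun s => 2 * ‖m0 s‖ ^ 2 + 2 * ‖fS Z s‖ ^ 2)
          ((hi0.const_mul 2).add (i1.const_mul 2))
          (((m0_meas.sub hcf.measurable).norm.pow_const 2).aestronglyMeasurable)
          (Eventually.of_forall fun s => ?_)
        rw [Real.norm_of_nonneg (by positivity)]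
        have h5 := norm_sub_le (m0 s) (fS Z s)
        have h6 := norm_nonneg (m0 s - fS Z s)
        nlinarith [sq_nonneg (‖m0 s‖ - ‖fS Z s‖), norm_nonneg (m0 s), norm_nonneg (fS Z s)]
      have h7 : ∀ s : ℝ, ‖m0 s‖ ^ 2 ≤ (1 + ε) * ‖fS Z s‖ ^ 2 + (1 + 1 / ε) * ‖m0 s - fS Z s‖ ^ 2 := by
        intro s
        have h8 : ‖m0 s‖ ≤ ‖fS Z s‖ + ‖m0 s - fS Z s‖ := by
          have := norm_add_le (fS Z s) (m0 s - fS Z s)
          rwa [add_sub_cancel] at this
        set u := ‖fS Z s‖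
        set v := ‖m0 s - fS Z s‖
        have hu : 0 ≤ u := norm_nonneg _
        have hv : 0 ≤ v := norm_nonneg _
        have h9 : 2 * u * v ≤ ε * u ^ 2 + 1 / ε * v ^ 2 := by
          have h10 : 0 ≤ (ε * u - v) ^ 2 / ε := by positivity
          have h11 : (ε * u - v) ^ 2 / ε = ε * u ^ 2 - 2 * u * v + 1 / ε * v ^ 2 := by
            field_simp
            ring
          linarith
        have h12 : ‖m0 s‖ ^ 2 ≤ (u + v) ^ 2 := pow_le_pow_left₀ (norm_nonneg _) h8 2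
        nlinarith
      calc JJ X = ∫ s in Ioc (0:ℝ) X, ‖m0 s‖ ^ 2 := e1
        _ ≤ ∫ s in Ioc (0:ℝ) X, ((1 + ε) * ‖fS Z s‖ ^ 2 + (1 + 1 / ε) * ‖m0 s - fS Z s‖ ^ 2) :=
            integral_mono hi0 ((i1.const_mul _).add (i2.const_mul _)) h7
        _ = (1 + ε) * (∫ s in Ioc (0:ℝ) X, ‖fS Z s‖ ^ 2) +
            (1 + 1 / ε) * ∫ s in Ioc (0:ℝ) X, ‖m0 s - fS Z s‖ ^ 2 := by
            rw [integral_add (i1.const_mul _) (i2.const_mul _), integral_const_mul, integral_const_mul]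
        _ ≤ (1 + ε) * (S * X + CZ) + (1 + 1 / ε) * (D + C * X * r) := by
            gcongr
            refine h4.trans ?_
            have := hSZ Z hZ
            gcongr
    have hr2 : (1 + 1 / ε) * C * r = d / 4 := by
      rw [hr]; field_simp
    set E : ℝ := (1 + ε) * CZ + (1 + 1 / ε) * D with hE
    have hE0 : 0 ≤ E := by positivity
    filter_upwards [eventually_ge_atTop 8, eventually_gt_atTop (4 * E / d)] with X hX hXE
    have hX0 : 0 < X := by linarith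
    rw [div_lt_iff₀ hX0]
    have h1 := key X hX
    have h2 : E < d / 4 * X := by
      rw [div_lt_iff₀ hd0] at hXE
      linarith
    calc JJ X ≤ (1 + ε) * (S * X + CZ) + (1 + 1 / ε) * (D + C * X * r) := h1
      _ = S * X + ε * S * X + ((1 + 1 / ε) * C * r) * X + E := by rw [hE]; ring
      _ ≤ S * X + d / 4 * X + d / 4 * X + E := by
          rw [hr2]
          have := mul_le_mul_of_nonneg_right hεS hX0.le
          linarith
      _ < a * X := by
          have : a = S + d := by rw [hd]; ring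
          rw [this]
          nlinarith
  rw [tendsto_order]
  refine ⟨fun a ha => ?_, hup⟩
  -- lower bound
  have h1 : ∃ T : Finset Pz, a < ∑ p ∈ T, ‖Ar (p : ℂ)‖ ^ 2 :=
    (hsum.hasSum.eventually (lt_mem_nhds ha)).exists
  obtain ⟨T, hT⟩ := h1
  have hinj : Set.InjOn (fun p : Pz => (p : ℂ) + 1 / 2) T := fun p _ q _ h =>
    Subtype.ext (add_right_cancel h)
  obtain ⟨K, hK, hb⟩ := Pool.Agent.H295R2.bessel_fin (T.image (fun p : Pz => (p : ℂ) + 1 / 2)) (by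
    intro ρ hρ
    obtain ⟨p, _, rfl⟩ := Finset.mem_image.1 hρ
    have h2 : ((p : ℂ) + 1 / 2).re = 1 / 2 := by rw [Complex.add_re, p.2.1]; norm_num
    exact ⟨h2, p.2.2, (hR _ p.2.2 (by rw [h2]; norm_num) (by rw [h2]; norm_num)).2⟩)
  have h3 : ∑ ρ ∈ T.image (fun p : Pz => (p : ℂ) + 1 / 2), ‖Pool.Agent.H295R2.ww ρ‖ ^ 2 =
      ∑ p ∈ T, ‖Ar (p : ℂ)‖ ^ 2 := by
    rw [Finset.sum_image hinj]
    rfl
  rw [h3] at hb
  set A : ℝ := ∑ p ∈ T, ‖Ar (p : ℂ)‖ ^ 2 with hA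
  have hlim := Pool.Agent.H295R2.sqrt_lim
  have h4 := hup (S + 1) (by linarith)
  have h5 : Tendsto (fun L : ℝ => K * (1 + Real.sqrt ((S + 1) * L)) / L) atTop (𝓝 0) := by
    have h := Pool.Agent.H295R2.sqrt_lim K (S + 1)
    rwa [abs_of_nonneg (by linarith : 0 ≤ S + 1)] at h
  have hd : 0 < A - a := by linarith
  filter_upwards [h4, h5.eventually (gt_mem_nhds hd), eventually_gt_atTop 0] with X h6 h7 hX0
  rw [div_lt_iff₀ hX0] at h6 h7
  rw [lt_div_iff₀ hX0]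
  have h8 := hb X hX0.le
  have h9 : Real.sqrt (JJ X) ≤ Real.sqrt ((S + 1) * X) := Real.sqrt_le_sqrt h6.le
  nlinarith

end Pool.Agent.Helper90.WM
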