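import Pool.Agent.Helper90.WM.T3

/-!
# Sufficient conditions for the finiteness of the quadratic form
-/

set_option autoImplicit false

open Complex Filter Topology Set MeasureTheory H370
open Pool.Agent.H295R2 (Zs fz Mx mu m0 Nice Lap JJ avg phi step GR)
open scoped ENNReal

namespace Pool.Agent.Helper90.WM

theorem GQ_of_log (h : Summable (fun p : Pz => ‖Ar p‖ ^ 2 * Real.log (|(p : ℂ).im| + 3))) :
    GQ (fun p => ‖Ar p‖ₑ) ≠ ⊤ := by
  obtain ⟨C, hC0, hC⟩ := GQ_le
  refine ne_top_of_le_ne_top ?_ (hC _)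
  have e : ∀ p : Pz, ‖Ar p‖ₑ ^ 2 * ENNReal.ofReal (C * Real.log (|(p : ℂ).im| + 3)) =
      ENNReal.ofReal (C * (‖Ar p‖ ^ 2 * Real.log (|(p : ℂ).im| + 3))) := by
    intro p
    rw [← ofReal_norm, ← ENNReal.ofReal_pow (norm_nonneg _), ← ENNReal.ofReal_mul (by positivity)]
    congr 1
    ring
  simp_rw [e]
  have h0 : ∀ p : Pz, 0 ≤ Real.log (|(p : ℂ).im| + 3) := fun p =>
    Real.log_nonneg (by linarith [abs_nonneg (p : ℂ).im])
  rw [← ENNReal.ofReal_tsum_of_nonneg (fun p => by have := h0 p; positivity) (h.mul_left C)]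
  exact ENNReal.ofReal_ne_top

/-- the sum over a block -/
noncomputable def blkS (c : Pz → ℝ≥0∞) (n : ℤ) : ℝ≥0∞ := ∑' q : {q : Pz // ⌊(q : ℂ).im⌋ = n}, c q

theorem tsum_blocks (g : Pz → ℝ≥0∞) : ∑' q : Pz, g q =
    ∑' n : ℤ, ∑' q : {q : Pz // ⌊(q : ℂ).im⌋ = n}, g q := by
  rw [← (Equiv.sigmaFiberEquiv (fun q : Pz => ⌊(q : ℂ).im⌋)).tsum_eq, ENNReal.tsum_sigma']
  rfl

theorem gauss_block {p q : ℂ} : Real.exp (-(1 / 2) * (p.im - q.im) ^ 2) ≤
    Real.exp 2 * Real.exp (-|((⌊q.im⌋ - ⌊p.im⌋ : ℤ) : ℝ)|) := by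
  rw [← Real.exp_add]
  apply Real.exp_le_exp.2
  have a1 := Int.floor_le q.im
  have a2 := Int.lt_floor_add_one q.im
  have b1 := Int.floor_le p.im
  have b2 := Int.lt_floor_add_one p.im
  push_cast
  have h2 : |(⌊q.im⌋ : ℝ) - ⌊p.im⌋| ≤ |p.im - q.im| + 1 := by
    rw [abs_le]
    have h3 := neg_abs_le (p.im - q.im)
    have h4 := le_abs_self (p.im - q.im)
    constructor <;> linarith
  have h5 : (p.im - q.im) ^ 2 = |p.im - q.im| ^ 2 := (sq_abs _).symm
  rw [h5]
  nlinarith [sq_nonneg (|p.im - q.im| - 1)]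

theorem GQ_of_pairs (c : Pz → ℝ≥0∞)
    (h : ∑' p : Pz, ∑' q : Pz, (if |(p : ℂ).im - (q : ℂ).im| ≤ 1 then c p * c q else 0) ≠ ⊤) :
    GQ c ≠ ⊤ := by
  classical
  set A : ℤ → ℝ≥0∞ := blkS c with hA
  set w : ℤ → ℝ≥0∞ := fun m => ENNReal.ofReal (Real.exp 2 * Real.exp (-|(m : ℝ)|)) with hw
  -- the diagonal blocks
  have h1 : ∑' n : ℤ, A n ^ 2 ≤
      ∑' p : Pz, ∑' q : Pz, (if |(p : ℂ).im - (q : ℂ).im| ≤ 1 then c p * c q else 0) := by
    rw [tsum_blocks (fun p => ∑' q : Pz, (if |(p : ℂ).im - (q : ℂ).im| ≤ 1 then c p * c q else 0))]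
    refine ENNReal.tsum_le_tsum fun n => ?_
    have e1 : A n ^ 2 = ∑' p : {p : Pz // ⌊(p : ℂ).im⌋ = n}, ∑' q : {q : Pz // ⌊(q : ℂ).im⌋ = n},
        c p * c q := by
      rw [sq]
      simp only [hA]
      unfold blkS
      rw [← ENNReal.tsum_mul_right]
      refine tsum_congr fun p => ?_
      rw [ENNReal.tsum_mul_left]
    rw [e1]
    refine ENNReal.tsum_le_tsum fun p => ?_
    rw [tsum_blocks]
    refine le_trans ?_ (ENNReal.le_tsum n)
    refine ENNReal.tsum_le_tsum fun q => ?_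
    have a1 := Int.floor_le ((q : Pz) : ℂ).im
    have a2 := Int.lt_floor_add_one ((q : Pz) : ℂ).im
    have b1 := Int.floor_le ((p : Pz) : ℂ).im
    have b2 := Int.lt_floor_add_one ((p : Pz) : ℂ).im
    rw [q.2] at a1 a2
    rw [p.2] at b1 b2
    rw [if_pos (by rw [abs_le]; constructor <;> linarith)]
  have hS : ∑' m : ℤ, w m ≠ ⊤ := by
    have hs : Summable (fun m : ℤ => Real.exp 2 * Real.exp (-|(m : ℝ)|)) := by
      refine Summable.of_nonneg_of_le (fun m => by positivity) (fun m => ?_)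
        (exp_summable.mul_left (Real.exp 2))
      refine mul_le_mul_of_nonneg_left (Real.exp_le_exp.2 ?_) (Real.exp_pos _).le
      have := abs_nonneg (m : ℝ)
      linarith
    simp only [hw]
    rw [← ENNReal.ofReal_tsum_of_nonneg (fun m => by positivity) hs]
    exact ENNReal.ofReal_ne_top
  have h2 : GQ c ≤ ∑' m : ℤ, ∑' n : ℤ, A m * A n * w (n - m) := by
    unfold GQ
    rw [tsum_blocks]
    refine ENNReal.tsum_le_tsum fun m => ?_
    calc ∑' p : {p : Pz // ⌊(p : ℂ).im⌋ = m}, ∑' q : Pz, c p * c q *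
          ENNReal.ofReal (Real.exp (-(1 / 2) * (((p : Pz) : ℂ).im - (q : ℂ).im) ^ 2))
        ≤ ∑' p : {p : Pz // ⌊(p : ℂ).im⌋ = m}, c p * ∑' n : ℤ, A n * w (n - m) := by
          refine ENNReal.tsum_le_tsum fun p => ?_
          rw [tsum_blocks, ← ENNReal.tsum_mul_left]
          refine ENNReal.tsum_le_tsum fun n => ?_
          simp only [hA]
          unfold blkS
          rw [← ENNReal.tsum_mul_right, ← ENNReal.tsum_mul_left]
          refine ENNReal.tsum_le_tsum fun q => ?_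
          rw [mul_assoc]
          gcongr
          simp only [hw]
          apply ENNReal.ofReal_le_ofReal
          have := gauss_block (p := ((p : Pz) : ℂ)) (q := ((q : Pz) : ℂ))
          rw [p.2, q.2] at this
          exact this
      _ = ∑' n : ℤ, A m * A n * w (n - m) := by
          rw [ENNReal.tsum_mul_right, ← ENNReal.tsum_mul_left]
          refine tsum_congr fun n => ?_
          simp only [hA]
          unfold blkS
          rw [mul_assoc]
  have h3 : ∀ a b : ℝ≥0∞, a * b ≤ a ^ 2 + b ^ 2 := by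
    intro a b
    rcases le_total a b with h | h
    · calc a * b ≤ b * b := by gcongr
        _ = b ^ 2 := (sq b).symm
        _ ≤ _ := le_add_self
    · calc a * b ≤ a * a := by gcongr
        _ = a ^ 2 := (sq a).symm
        _ ≤ _ := le_self_add
  have hwe : ∀ m n : ℤ, w (n - m) = w (m - n) := by
    intro m n
    simp only [hw]
    have : ((n - m : ℤ) : ℝ) = -((m - n : ℤ) : ℝ) := by push_cast; ring
    rw [this, abs_neg]
  have hshift : ∀ m : ℤ, ∑' n : ℤ, w (n - m) = ∑' n : ℤ, w n := fun m =>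
    (Equiv.subRight m).tsum_eq w
  have h4 : ∑' m : ℤ, ∑' n : ℤ, A m * A n * w (n - m) ≤ 2 * ((∑' n : ℤ, A n ^ 2) * ∑' n : ℤ, w n) := by
    calc ∑' m : ℤ, ∑' n : ℤ, A m * A n * w (n - m)
        ≤ ∑' m : ℤ, ∑' n : ℤ, (A m ^ 2 * w (n - m) + A n ^ 2 * w (n - m)) := by
          refine ENNReal.tsum_le_tsum fun m => ENNReal.tsum_le_tsum fun n => ?_
          rw [← add_mul]
          gcongr
          exact h3 _ _
      _ = (∑' m : ℤ, ∑' n : ℤ, A m ^ 2 * w (n - m)) + ∑' m : ℤ, ∑' n : ℤ, A n ^ 2 * w (n - m) := by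
          rw [← ENNReal.tsum_add]
          refine tsum_congr fun m => ?_
          rw [← ENNReal.tsum_add]
      _ = (∑' m : ℤ, ∑' n : ℤ, A m ^ 2 * w (n - m)) + ∑' m : ℤ, ∑' n : ℤ, A m ^ 2 * w (n - m) := by
          congr 1
          rw [ENNReal.tsum_comm]
          refine tsum_congr fun m => tsum_congr fun n => ?_
          rw [hwe]
      _ = _ := by
          rw [← two_mul]
          congr 1
          rw [← ENNReal.tsum_mul_right]
          refine tsum_congr fun m => ?_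
          rw [ENNReal.tsum_mul_left, hshift]
  refine ne_top_of_le_ne_top ?_ (h2.trans h4)
  exact ENNReal.mul_ne_top (by simp) (ENNReal.mul_ne_top (ne_top_of_le_ne_top h h1) hS)

end Pool.Agent.Helper90.WM
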