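import Pool.Agent.Helper90.WM.T4

/-!
# The moment condition `J_{-1}(T) ≪ T² / (log T)^{2+ε}`
-/

set_option autoImplicit false

open Complex Filter Topology Set MeasureTheory H370
open Pool.Agent.H295R2 (Zs fz Mx mu m0 Nice Lap JJ avg phi step GR)
open scoped ENNReal

namespace Pool.Agent.Helper90.WM

theorem deriv_zeta_conj (s : ℂ) : deriv riemannZeta ((starRingEnd ℂ) s) = (starRingEnd ℂ) (deriv riemannZeta s) := by
  have h1 : (starRingEnd ℂ) ∘ riemannZeta ∘ (starRingEnd ℂ) = riemannZeta := by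
    funext z
    simp only [Function.comp_apply]
    rw [riemannZeta_conj, Complex.conj_conj]
  have h2 := congrFun (deriv_conj_conj (f := riemannZeta)) ((starRingEnd ℂ) s)
  rw [h1] at h2
  rw [h2]
  simp

/-- `1 / |ζ'(ρ)|²` -/
noncomputable def Zd (p : ℂ) : ℝ := 1 / ‖deriv riemannZeta (p + 1 / 2)‖ ^ 2

theorem Zd_conj (p : ℂ) : Zd ((starRingEnd ℂ) p) = Zd p := by
  unfold Zd
  have h1 : (starRingEnd ℂ) p + 1 / 2 = (starRingEnd ℂ) (p + 1 / 2) := by
    rw [map_add]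
    congr 1
    rw [map_div₀, map_one, Complex.conj_ofNat]
  rw [h1, deriv_zeta_conj, Complex.norm_conj]

theorem Zd_nonneg (p : ℂ) : 0 ≤ Zd p := by unfold Zd; positivity

theorem Ar_sq {p : ℂ} : ‖Ar p‖ ^ 2 = Zd p / ‖p + 1 / 2‖ ^ 2 := by
  unfold Ar Zd
  rw [norm_div, norm_one, norm_mul, div_pow, one_pow, mul_pow, div_div, mul_comm]

/-- the sum over `0 < |γ| ≤ T` from the sum over `0 < γ ≤ T` -/
theorem two_sided {T B : ℝ}
    (hB : ∀ Z : Finset ℂ, (∀ p ∈ Z, p ∈ Pz ∧ 0 < p.im ∧ p.im ≤ T) → ∑ p ∈ Z, Zd p ≤ B)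
    (Z : Finset ℂ) (hZ : ∀ p ∈ Z, p ∈ Pz ∧ 0 < |p.im| ∧ |p.im| ≤ T) : ∑ p ∈ Z, Zd p ≤ 2 * B := by
  classical
  have h1 := hB (Z.filter fun p => 0 < p.im) (by
    intro p hp
    rw [Finset.mem_filter] at hp
    obtain ⟨h2, h3, h4⟩ := hZ p hp.1
    exact ⟨h2, hp.2, (le_abs_self _).trans h4⟩)
  have h2 := hB ((Z.filter fun p => ¬ 0 < p.im).image (starRingEnd ℂ)) (by
    intro p hp
    obtain ⟨q, hq, rfl⟩ := Finset.mem_image.1 hp
    rw [Finset.mem_filter] at hq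
    obtain ⟨h2, h3, h4⟩ := hZ q hq.1
    have h5 : q.im < 0 := lt_of_le_of_ne (not_lt.1 hq.2) (fun h => by rw [h, abs_zero] at h3; exact lt_irrefl _ h3)
    refine ⟨Pz_conj h2, ?_, ?_⟩
    · rw [Complex.conj_im]; linarith
    · rw [Complex.conj_im]; exact (neg_le_abs _).trans h4)
  rw [Finset.sum_image fun p _ q _ h => (starRingEnd ℂ).injective h] at h2
  simp_rw [Zd_conj] at h2
  have h3 := Finset.sum_filter_add_sum_filter_not Z (fun p => 0 < p.im) Zd
  linarith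

/-- the dyadic index of a zero -/
noncomputable def dy (p : Pz) : ℕ := Nat.log 2 (⌊|(p : ℂ).im|⌋₊ + 1)

theorem dy_upper (p : Pz) : |(p : ℂ).im| < 2 ^ (dy p + 1) := by
  have h1 := Nat.lt_pow_succ_log_self (b := 2) (by norm_num) (⌊|(p : ℂ).im|⌋₊ + 1)
  have h2 := Nat.lt_floor_add_one |(p : ℂ).im|
  have h3 : ((⌊|(p : ℂ).im|⌋₊ + 1 : ℕ) : ℝ) < 2 ^ (dy p + 1) := by exact_mod_cast h1
  push_cast at h3
  linarith

theorem dy_lower (p : Pz) : (2 : ℝ) ^ dy p ≤ |(p : ℂ).im| + 1 := by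
  have h1 := Nat.pow_log_le_self 2 (x := ⌊|(p : ℂ).im|⌋₊ + 1) (by omega)
  have h2 := Nat.floor_le (abs_nonneg (p : ℂ).im)
  have h3 : (2 : ℝ) ^ dy p ≤ ((⌊|(p : ℂ).im|⌋₊ + 1 : ℕ) : ℝ) := by exact_mod_cast h1
  push_cast at h3
  linarith

theorem tsum_dy (g : Pz → ℝ≥0∞) : ∑' q : Pz, g q = ∑' n : ℕ, ∑' q : {q : Pz // dy q = n}, g q := by
  rw [← (Equiv.sigmaFiberEquiv dy).tsum_eq, ENNReal.tsum_sigma']
  rfl

theorem log_of_J {C ε : ℝ} (hε : 0 < ε)
    (h : ∀ T : ℝ, 2 ≤ T → ∀ Z : Finset ℂ, (∀ p ∈ Z, p ∈ Pz ∧ 0 < p.im ∧ p.im ≤ T) →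
      ∑ p ∈ Z, Zd p ≤ C * T ^ 2 / Real.log T ^ (2 + ε)) :
    Summable (fun p : Pz => ‖Ar p‖ ^ 2 * Real.log (|(p : ℂ).im| + 3)) := by
  classical
  have hC0 : 0 ≤ C := by
    have h1 := h 2 le_rfl ∅ (by simp)
    rw [Finset.sum_empty] at h1
    have h2 : 0 < Real.log 2 := Real.log_pos (by norm_num)
    have h3 : 0 < Real.log 2 ^ (2 + ε) := Real.rpow_pos_of_pos h2 _
    rw [le_div_iff₀ h3, zero_mul] at h1
    linarith
  set g : Pz → ℝ := fun p => ‖Ar p‖ ^ 2 * Real.log (|(p : ℂ).im| + 3) with hg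
  have hg0 : ∀ p, 0 ≤ g p := fun p => by
    have : 0 ≤ Real.log (|(p : ℂ).im| + 3) := Real.log_nonneg (by linarith [abs_nonneg (p : ℂ).im])
    simp only [hg]
    positivity
  -- the blocks
  have hblock : ∀ n : ℕ, 1 ≤ n → ∑' q : {q : Pz // dy q = n}, ENNReal.ofReal (g q) ≤
      ENNReal.ofReal (384 * C * (Real.log 2) ^ (-(1 + ε)) * (1 / |(n : ℝ) + 1| ^ (1 + ε))) := by
    intro n hn
    rw [ENNReal.tsum_eq_iSup_sum]
    refine iSup_le fun S => ?_
    rw [← ENNReal.ofReal_sum_of_nonneg (f := fun q : {q : Pz // dy q = n} => g q) fun q _ => hg0 q]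
    apply ENNReal.ofReal_le_ofReal
    have hn1 : (1 : ℝ) ≤ n := by exact_mod_cast hn
    have hl2 : 0 < Real.log 2 := Real.log_pos (by norm_num)
    have hl21 : Real.log 2 ≤ 1 := by linarith [Real.log_two_lt_d9]
    set T : ℝ := 2 ^ (n + 1) with hT
    have hT0 : 0 < T := by positivity
    have hT2 : 2 ≤ T := by
      rw [hT, pow_succ]
      have : (1 : ℝ) ≤ 2 ^ n := one_le_pow₀ (by norm_num)
      linarith
    have hlogT : Real.log T = (n + 1) * Real.log 2 := by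
      rw [hT, Real.log_pow]; push_cast; ring
    have h2n : (2 : ℝ) ≤ 2 ^ n := by
      calc (2 : ℝ) = 2 ^ 1 := (pow_one 2).symm
        _ ≤ 2 ^ n := pow_le_pow_right₀ (by norm_num) hn
    -- each zero
    have h1 : ∀ q ∈ S, g q ≤ (16 / T ^ 2 * (3 * ((n : ℝ) + 1) * Real.log 2)) * Zd ((q : Pz) : ℂ) := by
      intro q _
      have hq1 := dy_upper (q : Pz)
      have hq2 := dy_lower (q : Pz)
      rw [q.2] at hq1 hq2
      have hnorm : T / 4 ≤ ‖((q : Pz) : ℂ) + 1 / 2‖ := by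
        have h3 : |(((q : Pz) : ℂ) + 1 / 2).im| = |((q : Pz) : ℂ).im| := by
          congr 1
          rw [Complex.add_im]; norm_num
        have h4 := Complex.abs_im_le_norm (((q : Pz) : ℂ) + 1 / 2)
        rw [h3] at h4
        have h5 : T / 4 = 2 ^ n / 2 := by rw [hT, pow_succ]; ring
        rw [h5]
        linarith
      have hlog : Real.log (|((q : Pz) : ℂ).im| + 3) ≤ 3 * ((n : ℝ) + 1) * Real.log 2 := by
        have h6 : |((q : Pz) : ℂ).im| + 3 ≤ T * T * T := by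
          have : |((q : Pz) : ℂ).im| ≤ T := hq1.le
          nlinarith [mul_pos hT0 hT0]
        calc Real.log (|((q : Pz) : ℂ).im| + 3) ≤ Real.log (T * T * T) :=
              Real.log_le_log (by positivity) h6
          _ = 3 * Real.log T := by
              rw [Real.log_mul (by positivity) hT0.ne', Real.log_mul hT0.ne' hT0.ne']; ring
          _ = _ := by rw [hlogT]; ring
      have hZ0 := Zd_nonneg ((q : Pz) : ℂ)
      simp only [hg]
      rw [Ar_sq]
      have h7 : Zd ((q : Pz) : ℂ) / ‖((q : Pz) : ℂ) + 1 / 2‖ ^ 2 ≤ Zd ((q : Pz) : ℂ) * (16 / T ^ 2) := by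
        have h8 : (T / 4) ^ 2 ≤ ‖((q : Pz) : ℂ) + 1 / 2‖ ^ 2 := pow_le_pow_left₀ (by positivity) hnorm 2
        calc Zd ((q : Pz) : ℂ) / ‖((q : Pz) : ℂ) + 1 / 2‖ ^ 2 ≤ Zd ((q : Pz) : ℂ) / (T / 4) ^ 2 := by
              gcongr
          _ = _ := by field_simp; norm_num
      have h9 : 0 ≤ Real.log (|((q : Pz) : ℂ).im| + 3) :=
        Real.log_nonneg (by linarith [abs_nonneg ((q : Pz) : ℂ).im])
      calc Zd ((q : Pz) : ℂ) / ‖((q : Pz) : ℂ) + 1 / 2‖ ^ 2 * Real.log (|((q : Pz) : ℂ).im| + 3)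
          ≤ (Zd ((q : Pz) : ℂ) * (16 / T ^ 2)) * (3 * ((n : ℝ) + 1) * Real.log 2) := by gcongr
        _ = _ := by ring
    -- the sum of `Zd`
    have h2 : ∑ q ∈ S, Zd ((q : Pz) : ℂ) ≤ 2 * (C * T ^ 2 / Real.log T ^ (2 + ε)) := by
      have h3 := two_sided (h T hT2) (S.image fun q : {q : Pz // dy q = n} => ((q : Pz) : ℂ)) (by
        intro p hp
        obtain ⟨q, _, rfl⟩ := Finset.mem_image.1 hp
        have hq1 := dy_upper (q : Pz)
        have hq2 := dy_lower (q : Pz)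
        rw [q.2] at hq1 hq2
        exact ⟨q.1.2, by linarith, hq1.le⟩)
      rwa [Finset.sum_image fun q _ r _ h => Subtype.ext (Subtype.ext h)] at h3
    have hn0 : (0 : ℝ) < (n : ℝ) + 1 := by positivity
    calc ∑ q ∈ S, g q ≤ ∑ q ∈ S, (16 / T ^ 2 * (3 * ((n : ℝ) + 1) * Real.log 2)) * Zd ((q : Pz) : ℂ) :=
          Finset.sum_le_sum h1
      _ = (16 / T ^ 2 * (3 * ((n : ℝ) + 1) * Real.log 2)) * ∑ q ∈ S, Zd ((q : Pz) : ℂ) := by
          rw [Finset.mul_sum]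
      _ ≤ (16 / T ^ 2 * (3 * ((n : ℝ) + 1) * Real.log 2)) * (2 * (C * T ^ 2 / Real.log T ^ (2 + ε))) := by
          gcongr
      _ = 96 * C * (((n : ℝ) + 1) * Real.log 2 / (((n : ℝ) + 1) * Real.log 2) ^ (2 + ε)) := by
          rw [hlogT]
          field_simp
          ring
      _ = 96 * C * ((Real.log 2) ^ (-(1 + ε)) * (1 / |(n : ℝ) + 1| ^ (1 + ε))) := by
          congr 1
          have h4 : ((n : ℝ) + 1) * Real.log 2 / (((n : ℝ) + 1) * Real.log 2) ^ (2 + ε) =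
              (((n : ℝ) + 1) * Real.log 2) ^ (-(1 + ε)) := by
            have h5 : 0 < ((n : ℝ) + 1) * Real.log 2 := by positivity
            rw [div_eq_iff (Real.rpow_pos_of_pos h5 _).ne', ← Real.rpow_add h5]
            have : -(1 + ε) + (2 + ε) = 1 := by ring
            rw [this, Real.rpow_one]
          rw [h4, Real.mul_rpow hn0.le hl2.le, Real.rpow_neg hn0.le, abs_of_pos hn0, one_div]
          ring
      _ ≤ _ := by
          have : 0 ≤ (Real.log 2) ^ (-(1 + ε)) * (1 / |(n : ℝ) + 1| ^ (1 + ε)) := by positivity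
          nlinarith [mul_nonneg hC0 this]
  -- the block 0
  have hzero : ∑' q : {q : Pz // dy q = 0}, ENNReal.ofReal (g q) ≠ ⊤ := by
    have hfin : Finite {q : Pz // dy q = 0} := by
      have h1 : (below 2 : Set ℂ).Finite := (below 2).finite_toSet
      refine Finite.of_injective (fun q : {q : Pz // dy q = 0} => (⟨((q : Pz) : ℂ), ?_⟩ : (below 2 : Set ℂ))) ?_
      · have := dy_upper (q : Pz)
        rw [q.2] at this
        rw [Finset.mem_coe, mem_below]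
        exact ⟨q.1.2, by norm_num at this ⊢; exact this.le⟩
      · intro q r hqr
        have h := congrArg (fun x : (below 2 : Set ℂ) => (x : ℂ)) hqr
        exact Subtype.ext (Subtype.ext h)
    have := Fintype.ofFinite {q : Pz // dy q = 0}
    rw [tsum_fintype]
    exact ENNReal.sum_ne_top.2 fun q _ => ENNReal.ofReal_ne_top
  have hs : Summable (fun n : ℕ => 384 * C * (Real.log 2) ^ (-(1 + ε)) * (1 / |(n : ℝ) + 1| ^ (1 + ε))) :=
    ((Real.summable_one_div_nat_add_rpow 1 (1 + ε)).2 (by linarith)).mul_left _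
  have htot : ∑' q : Pz, ENNReal.ofReal (g q) ≠ ⊤ := by
    rw [tsum_dy]
    have h1 : ∑' n : ℕ, ∑' q : {q : Pz // dy q = n}, ENNReal.ofReal (g q) ≤
        (∑' q : {q : Pz // dy q = 0}, ENNReal.ofReal (g q)) +
        ∑' n : ℕ, ENNReal.ofReal (384 * C * (Real.log 2) ^ (-(1 + ε)) * (1 / |(n : ℝ) + 1| ^ (1 + ε))) := by
      rw [tsum_eq_zero_add' ENNReal.summable]
      refine add_le_add le_rfl ?_
      calc ∑' n : ℕ, ∑' q : {q : Pz // dy q = n + 1}, ENNReal.ofReal (g q)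
          ≤ ∑' n : ℕ, ENNReal.ofReal (384 * C * (Real.log 2) ^ (-(1 + ε)) *
              (1 / |((n + 1 : ℕ) : ℝ) + 1| ^ (1 + ε))) :=
            ENNReal.tsum_le_tsum fun n => hblock (n + 1) (by omega)
        _ ≤ _ := by
            rw [tsum_eq_zero_add' (f := fun n : ℕ => ENNReal.ofReal (384 * C * (Real.log 2) ^ (-(1 + ε)) *
              (1 / |(n : ℝ) + 1| ^ (1 + ε)))) ENNReal.summable]
            exact le_add_self
    refine ne_top_of_le_ne_top (ENNReal.add_ne_top.2 ⟨hzero, ?_⟩) h1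
    rw [← ENNReal.ofReal_tsum_of_nonneg (fun n => by positivity) hs]
    exact ENNReal.ofReal_ne_top
  have h2 := ENNReal.summable_toReal htot
  exact h2.congr fun p => ENNReal.toReal_ofReal (hg0 p)

end Pool.Agent.Helper90.WM
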