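import Pool.Agent.Helper90.WM.Res
import Pool.Graph.R_seed8.H295R2.WM8
import Pool.Graph.R_seed8.H370R2.DirGood

/-!
# The function `1 / (s ζ(s))` near the critical line, under the Riemann hypothesis
-/

set_option autoImplicit false

open Complex Filter Topology Set MeasureTheory
open Pool.Agent.H295R2 (Zs fz)

namespace Pool.Agent.Helper90.WM

/-- every zero in the critical strip is on the critical line and simple -/
def RHSimple : Prop :=
  ∀ ρ : ℂ, riemannZeta ρ = 0 → 0 < ρ.re → ρ.re < 1 → ρ.re = 1 / 2 ∧ deriv riemannZeta ρ ≠ 0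

theorem RHSimple.free (h : RHSimple) : ∀ s : ℂ, 1 / 2 < s.re → Zs s ≠ 0 := by
  intro s hs h0
  obtain ⟨h1, h2, h3⟩ := Pool.Agent.H295R2.zeta_of_Zs h0 (by linarith)
  have := (h s h1 h2 h3).1
  linarith

/-- `1 / (s ζ(s))` at `s = w + 1/2` -/
noncomputable def F (w : ℂ) : ℂ := fz (w + 1 / 2) / (w + 1 / 2)

theorem F_diff {w : ℂ} (h0 : -1 / 2 < w.re) (hz : Zs (w + 1 / 2) ≠ 0) : DifferentiableAt ℂ F w := by
  have h1 : w + 1 / 2 ≠ 0 := by
    intro h
    have := congrArg Complex.re h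
    norm_num at this
    linarith
  unfold F
  have h2 : DifferentiableAt ℂ (fun w : ℂ => fz (w + 1 / 2)) w :=
    DifferentiableAt.comp w (Pool.Agent.H295R2.fz_differentiableAt hz) (by fun_prop)
  exact h2.div (by fun_prop) h1

/-- the zeros of `Zs` in the strip -/
theorem zero_line (h : RHSimple) {w : ℂ} (h0 : -1 / 2 < w.re) (hz : Zs (w + 1 / 2) = 0) :
    w.re = 0 ∧ riemannZeta (w + 1 / 2) = 0 ∧ deriv riemannZeta (w + 1 / 2) ≠ 0 := by
  have h2 : 0 < (w + 1 / 2).re := by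
    rw [Complex.add_re]; norm_num; linarith
  obtain ⟨h1, h2, h3⟩ := Pool.Agent.H295R2.zeta_of_Zs hz h2
  have h4 := h _ h1 h2 h3
  refine ⟨?_, h1, h4.2⟩
  have h5 := h4.1
  rw [Complex.add_re] at h5
  norm_num at h5
  linarith

theorem deriv_Zs {ρ : ℂ} (h1 : ρ ≠ 1) (hz : riemannZeta ρ = 0) :
    deriv Zs ρ = (ρ - 1) * deriv riemannZeta ρ := by
  have h2 : Zs =ᶠ[𝓝 ρ] fun s => (s - 1) * riemannZeta s := by
    filter_upwards [isOpen_ne.mem_nhds h1] with s hs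
    exact (Pool.Agent.H295R2.Zs_eq hs).symm
  rw [h2.deriv_eq]
  have h3 : HasDerivAt (fun s : ℂ => (s - 1) * riemannZeta s)
      (1 * riemannZeta ρ + (ρ - 1) * deriv riemannZeta ρ) ρ :=
    ((hasDerivAt_id ρ).sub_const 1).mul (differentiableAt_riemannZeta h1).hasDerivAt
  rw [h3.deriv, hz, mul_zero, zero_add]

/-- the residues of `F` -/
theorem F_res {p : ℂ} (hp : p.re = 0) (hz : riemannZeta (p + 1 / 2) = 0)
    (hd : deriv riemannZeta (p + 1 / 2) ≠ 0) :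
    Tendsto (fun w => (w - p) * F w) (𝓝[≠] p)
      (𝓝 (1 / ((p + 1 / 2) * deriv riemannZeta (p + 1 / 2)))) := by
  have hne1 : p + 1 / 2 ≠ 1 := by
    intro h
    have := congrArg Complex.re h
    norm_num [hp] at this
  have hne0 : p + 1 / 2 ≠ 0 := by
    intro h
    have := congrArg Complex.re h
    norm_num [hp] at this
  have hne2 : p - 1 / 2 ≠ 0 := by
    intro h
    apply hne1
    linear_combination h
  have hZ0 : Zs (p + 1 / 2) = 0 := by rw [← Pool.Agent.H295R2.Zs_eq hne1, hz, mul_zero]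
  have hZd : HasDerivAt (fun w : ℂ => Zs (w + 1 / 2)) (deriv Zs (p + 1 / 2)) p := by
    have h1 : HasDerivAt Zs (deriv Zs (p + 1 / 2)) (p + 1 / 2) :=
      (Pool.Agent.H295R2.Zs_differentiable _).hasDerivAt
    have h2 := h1.comp p ((hasDerivAt_id p).add_const (1 / 2 : ℂ))
    rw [mul_one] at h2
    exact h2
  rw [deriv_Zs hne1 hz] at hZd
  have hne3 : (p + 1 / 2 - 1) * deriv riemannZeta (p + 1 / 2) ≠ 0 := by
    refine mul_ne_zero ?_ hd
    intro h
    apply hne2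
    linear_combination h
  have h3 := (hasDerivAt_iff_tendsto_slope.1 hZd).inv₀ hne3
  have h4 : Tendsto (fun w : ℂ => (w - 1 / 2) / (w + 1 / 2)) (𝓝[≠] p) (𝓝 ((p - 1 / 2) / (p + 1 / 2))) := by
    have : ContinuousAt (fun w : ℂ => (w - 1 / 2) / (w + 1 / 2)) p :=
      ContinuousAt.div (by fun_prop) (by fun_prop) hne0
    exact this.tendsto.mono_left nhdsWithin_le_nhds
  have h5 := h4.mul h3
  have e : (p - 1 / 2) / (p + 1 / 2) * ((p + 1 / 2 - 1) * deriv riemannZeta (p + 1 / 2))⁻¹ =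
      1 / ((p + 1 / 2) * deriv riemannZeta (p + 1 / 2)) := by
    have h6 : p + 1 / 2 - 1 = p - 1 / 2 := by ring
    rw [h6]
    generalize hA : p - 1 / 2 = A at hne2 ⊢
    generalize hB : p + 1 / 2 = B at hne0 ⊢
    generalize deriv riemannZeta B = D
    field_simp
  rw [e] at h5
  refine h5.congr' ?_
  filter_upwards [self_mem_nhdsWithin] with w hw
  have hw' : w - p ≠ 0 := sub_ne_zero.2 hw
  simp only [slope_def_field, hZ0, sub_zero, F, fz]
  have e2 : w + 1 / 2 - 1 = w - 1 / 2 := by ring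
  rw [e2, inv_div]
  rcases eq_or_ne (Zs (w + 1 / 2)) 0 with h0 | h0
  · rw [h0]; simp
  · rcases eq_or_ne (w + 1 / 2) 0 with h00 | h00
    · rw [h00]; simp
    · field_simp

/-- finitely many zeros in a compact set -/
theorem finite_zeros {f : ℂ → ℂ} (hf : Differentiable ℂ f) {z₁ : ℂ} (hne : f z₁ ≠ 0) {K : Set ℂ}
    (hK : IsCompact K) : (K ∩ {z | f z = 0}).Finite := by
  by_contra hinf
  obtain ⟨z₀, -, hz⟩ := Set.Infinite.exists_accPt_of_subset_isCompact hinf hK inter_subset_left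
  have h1 : ∃ᶠ z in 𝓝[≠] z₀, f z = 0 := by
    have := accPt_iff_frequently_nhdsNE.1 hz
    exact this.mono fun z hz => hz.2
  have h2 : AnalyticOnNhd ℂ f univ := fun z _ => hf.analyticAt z
  have h3 := h2.eqOn_zero_of_preconnected_of_frequently_eq_zero isPreconnected_univ (mem_univ z₀) h1
  exact hne (h3 (mem_univ z₁))

theorem beta_bound (b u : ℝ) : ∃ K : ℝ, 0 ≤ K ∧ ∀ w : ℂ, w.re = b → ‖betaIntegral w u‖ ≤ K := by
  refine ⟨∫ x in (0:ℝ)..1, x ^ (b - 1) * (1 - x) ^ (u - 1), ?_, fun w hw => ?_⟩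
  · apply intervalIntegral.integral_nonneg zero_le_one
    intro x hx
    exact mul_nonneg (Real.rpow_nonneg hx.1 _) (Real.rpow_nonneg (by linarith [hx.2]) _)
  · unfold betaIntegral
    refine (intervalIntegral.norm_integral_le_integral_norm zero_le_one).trans (le_of_eq ?_)
    rw [intervalIntegral.integral_of_le zero_le_one, intervalIntegral.integral_of_le zero_le_one]
    rw [MeasureTheory.integral_Ioc_eq_integral_Ioo, MeasureTheory.integral_Ioc_eq_integral_Ioo]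
    refine MeasureTheory.setIntegral_congr_fun measurableSet_Ioo fun x hx => ?_
    rw [norm_mul, Complex.norm_cpow_eq_rpow_re_of_pos hx.1]
    have h1 : (1 : ℂ) - (x : ℂ) = ((1 - x : ℝ) : ℂ) := by push_cast; ring
    rw [h1, Complex.norm_cpow_eq_rpow_re_of_pos (by linarith [hx.2])]
    simp [hw]

/-- `ζ(3/4 - iy) ≪ ζ(1/4 + iy)` -/
theorem zeta_left : ∃ K : ℝ, 0 < K ∧ ∀ y : ℝ,
    ‖riemannZeta (3 / 4 - y * I)‖ ≤ K * ‖riemannZeta (1 / 4 + y * I)‖ := by
  obtain ⟨B, hB0, hB⟩ := beta_bound (1 / 8) (1 / 4)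
  have hG4 : 0 < ‖Gamma (((1 / 4 : ℝ)) : ℂ)‖ := by
    rw [norm_pos_iff]
    apply Gamma_ne_zero_of_re_pos
    norm_num
  refine ⟨Real.pi ^ (-(1 / 8) : ℝ) * ((B + 1) / ‖Gamma (((1 / 4 : ℝ)) : ℂ)‖) / Real.pi ^ (-(3 / 8) : ℝ),
    by positivity, fun y => ?_⟩
  set s : ℂ := 1 / 4 + y * I with hs
  have hsre : s.re = 1 / 4 := by simp [hs]
  have hs0 : s ≠ 0 := by
    intro h; rw [h] at hsre; norm_num at hsre
  have h1s : 1 - s ≠ 0 := by
    intro h
    have : (1 - s).re = 0 := by rw [h]; rfl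
    rw [Complex.sub_re, hsre] at this
    norm_num at this
  have e1 : (3 / 4 - y * I : ℂ) = 1 - s := by rw [hs]; ring
  rw [e1, riemannZeta_def_of_ne_zero h1s, riemannZeta_def_of_ne_zero hs0, completedRiemannZeta_one_sub,
    norm_div, norm_div]
  have hg : ‖Gammaℝ s‖ ≤ Real.pi ^ (-(1 / 8) : ℝ) * ((B + 1) / ‖Gamma (((1 / 4 : ℝ)) : ℂ)‖) /
      Real.pi ^ (-(3 / 8) : ℝ) * ‖Gammaℝ (1 - s)‖ := by
    rw [Gammaℝ_def, Gammaℝ_def, norm_mul, norm_mul, Complex.norm_cpow_eq_rpow_re_of_pos Real.pi_pos,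
      Complex.norm_cpow_eq_rpow_re_of_pos Real.pi_pos]
    have r1 : (-s / 2).re = -(1 / 8) := by
      rw [show -s / 2 = -(s / ((2 : ℝ) : ℂ)) by push_cast; ring, Complex.neg_re, Complex.div_ofReal_re, hsre]
      norm_num
    have r2 : (-(1 - s) / 2).re = -(3 / 8) := by
      rw [show -(1 - s) / 2 = -((1 - s) / ((2 : ℝ) : ℂ)) by push_cast; ring, Complex.neg_re,
        Complex.div_ofReal_re, Complex.sub_re, hsre]
      norm_num
    rw [r1, r2]
    have r3 : (s / 2).re = 1 / 8 := by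
      rw [show s / 2 = s / ((2 : ℝ) : ℂ) by push_cast; ring, Complex.div_ofReal_re, hsre]
      norm_num
    have hbeta := Gamma_mul_Gamma_eq_betaIntegral (s := s / 2) (t := ((1 / 4 : ℝ) : ℂ)) (by rw [r3]; norm_num)
      (by norm_num)
    have e3 : (1 - s) / 2 = (starRingEnd ℂ) (s / 2 + ((1 / 4 : ℝ) : ℂ)) := by
      apply Complex.ext
      · rw [Complex.conj_re, Complex.add_re, r3, show (1 - s) / 2 = (1 - s) / ((2 : ℝ) : ℂ) by push_cast; ring,
          Complex.div_ofReal_re, Complex.sub_re, hsre, Complex.ofReal_re]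
        norm_num
      · rw [Complex.conj_im, Complex.add_im, show (1 - s) / 2 = (1 - s) / ((2 : ℝ) : ℂ) by push_cast; ring,
          show s / 2 = s / ((2 : ℝ) : ℂ) by push_cast; ring,
          Complex.div_ofReal_im, Complex.div_ofReal_im, Complex.sub_im, Complex.ofReal_im, Complex.one_im]
        ring
    have e4 : ‖Gamma ((1 - s) / 2)‖ = ‖Gamma (s / 2 + ((1 / 4 : ℝ) : ℂ))‖ := by
      rw [e3, Gamma_conj, Complex.norm_conj]
    have h5 : ‖Gamma (s / 2)‖ ≤ (B + 1) / ‖Gamma (((1 / 4 : ℝ)) : ℂ)‖ * ‖Gamma ((1 - s) / 2)‖ := by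
      rw [e4, div_mul_eq_mul_div, le_div_iff₀ hG4, ← norm_mul, hbeta, norm_mul, mul_comm]
      exact mul_le_mul_of_nonneg_right ((hB _ r3).trans (by linarith)) (norm_nonneg _)
    have hpi : (0:ℝ) < Real.pi ^ (-(3 / 8) : ℝ) := by positivity
    calc Real.pi ^ (-(1 / 8) : ℝ) * ‖Gamma (s / 2)‖
        ≤ Real.pi ^ (-(1 / 8) : ℝ) * ((B + 1) / ‖Gamma (((1 / 4 : ℝ)) : ℂ)‖ * ‖Gamma ((1 - s) / 2)‖) :=
          mul_le_mul_of_nonneg_left h5 (by positivity)
      _ = _ := by field_simp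
  have hgs : 0 < ‖Gammaℝ s‖ := by
    rw [norm_pos_iff]
    exact Gammaℝ_ne_zero_of_re_pos (by rw [hsre]; norm_num)
  have hg1 : 0 < ‖Gammaℝ (1 - s)‖ := by
    rw [norm_pos_iff]
    exact Gammaℝ_ne_zero_of_re_pos (by rw [Complex.sub_re, hsre]; norm_num)
  rw [← mul_div_assoc, div_le_div_iff₀ hg1 hgs]
  calc ‖completedRiemannZeta s‖ * ‖Gammaℝ s‖ ≤ ‖completedRiemannZeta s‖ *
        (Real.pi ^ (-(1 / 8) : ℝ) * ((B + 1) / ‖Gamma (((1 / 4 : ℝ)) : ℂ)‖) /
      Real.pi ^ (-(3 / 8) : ℝ) * ‖Gammaℝ (1 - s)‖) := mul_le_mul_of_nonneg_left hg (norm_nonneg _)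
    _ = _ := by ring

theorem one_add_le {a y : ℝ} (ha : 1 / 4 ≤ a) : (1 + |y|) ≤ 5 * ‖(a : ℂ) + y * I‖ := by
  have h1 : |((a : ℂ) + y * I).re| ≤ ‖(a : ℂ) + y * I‖ := Complex.abs_re_le_norm _
  have h2 : |((a : ℂ) + y * I).im| ≤ ‖(a : ℂ) + y * I‖ := Complex.abs_im_le_norm _
  simp at h1 h2
  have h3 := le_abs_self a
  linarith

/-- `F` on the two lines -/
theorem F_lines (h : RHSimple) : ∃ C : ℝ, 0 < C ∧ ∀ y : ℝ,
    ‖F ((1 / 4 : ℝ) + y * I)‖ ≤ C * (1 + |y|) ^ (-(3 / 4) : ℝ) ∧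
    ‖F ((-(1 / 4) : ℝ) + y * I)‖ ≤ C * (1 + |y|) ^ (-(3 / 4) : ℝ) := by
  obtain ⟨C, hC0, hC⟩ := Pool.Agent.H295R2.fz_bound (θ := 1 / 2) (σ := 3 / 4) (ε := 1 / 4)
    (by norm_num) h.free (by norm_num) (by norm_num)
  obtain ⟨K, hK0, hK⟩ := zeta_left
  have hpow : ∀ y : ℝ, (1 + |y|) ^ (-(3 / 4) : ℝ) = (1 + |y|) ^ (1 / 4 : ℝ) / (1 + |y|) := by
    intro y
    have hpos : 0 < 1 + |y| := by positivity
    rw [eq_div_iff hpos.ne']
    nth_rw 2 [← Real.rpow_one (1 + |y|)]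
    rw [← Real.rpow_add hpos]
    norm_num
  have main : ∀ (a : ℝ) (y : ℝ) (w : ℂ) (C' : ℝ), 0 ≤ C' → 1 / 4 ≤ a → w + 1 / 2 = (a : ℂ) + y * I →
      ‖fz (w + 1 / 2)‖ ≤ C' * (1 + |y|) ^ (1 / 4 : ℝ) → ‖F w‖ ≤ 5 * C' * (1 + |y|) ^ (-(3 / 4) : ℝ) := by
    intro a y w C' hC' ha hw hfz
    have hpos : 0 < 1 + |y| := by positivity
    have h1 := one_add_le (y := y) ha
    have h2 : 0 < ‖(a : ℂ) + y * I‖ := by linarith
    unfold F
    rw [norm_div, hpow]
    rw [hw] at hfz ⊢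
    rw [div_le_iff₀ h2]
    calc ‖fz ((a : ℂ) + y * I)‖ ≤ C' * (1 + |y|) ^ (1 / 4 : ℝ) := hfz
      _ = C' * (1 + |y|) ^ (1 / 4 : ℝ) / (1 + |y|) * (1 + |y|) := by field_simp
      _ ≤ C' * (1 + |y|) ^ (1 / 4 : ℝ) / (1 + |y|) * (5 * ‖(a : ℂ) + y * I‖) := by gcongr
      _ = _ := by ring
  refine ⟨5 * C + 5 * (K * C), by positivity, fun y => ?_⟩
  have hp : 0 ≤ (1 + |y|) ^ (-(3 / 4) : ℝ) := by positivity
  constructor
  · have h1 := main (3 / 4) y ((1 / 4 : ℝ) + y * I) C hC0.le (by norm_num) (by push_cast; ring) (by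
      have h2 := hC ((1 / 4 : ℝ) + y * I + 1 / 2) (by simp; norm_num) (by simp; norm_num)
      have h3 : ((1 / 4 : ℝ) + y * I + 1 / 2 : ℂ).im = y := by simp
      rwa [h3] at h2)
    nlinarith [mul_pos hK0 hC0]
  · have h1 := main (1 / 4) y ((-(1 / 4) : ℝ) + y * I) (K * C) (by positivity) le_rfl
      (by push_cast; ring) (by
      have e1 : ((-(1 / 4) : ℝ) + y * I + 1 / 2 : ℂ) = 1 / 4 + y * I := by push_cast; ring
      rw [e1]
      have hne : (1 / 4 + y * I : ℂ) ≠ 1 := by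
        intro h
        have := congrArg Complex.re h
        norm_num at this
      have hne' : (3 / 4 - y * I : ℂ) ≠ 1 := by
        intro h
        have := congrArg Complex.re h
        norm_num at this
      have h2 := hC (3 / 4 - y * I) (by simp) (by simp; norm_num)
      have h3 : (3 / 4 - y * I : ℂ).im = -y := by simp
      rw [h3, abs_neg, Pool.Agent.H295R2.fz_eq hne', norm_inv] at h2
      rw [Pool.Agent.H295R2.fz_eq hne, norm_inv]
      have hz : riemannZeta (3 / 4 - y * I) ≠ 0 := by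
        intro h0
        apply h.free (3 / 4 - y * I) (by simp; norm_num)
        rw [← Pool.Agent.H295R2.Zs_eq hne', h0, mul_zero]
      have h4 := hK y
      have h5 : 0 < ‖riemannZeta (3 / 4 - y * I)‖ := norm_pos_iff.2 hz
      have h6 : 0 < ‖riemannZeta (1 / 4 + y * I)‖ := by
        by_contra hcon
        have : ‖riemannZeta (1 / 4 + y * I)‖ = 0 := le_antisymm (not_lt.1 hcon) (norm_nonneg _)
        rw [this, mul_zero] at h4
        linarith
      have h7 : ‖riemannZeta (1 / 4 + y * I)‖⁻¹ ≤ K * ‖riemannZeta (3 / 4 - y * I)‖⁻¹ := by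
        rw [← div_eq_mul_inv, inv_le_comm₀ h6 (by positivity), inv_div, div_le_iff₀ hK0, mul_comm _ K]
        exact h4
      calc ‖riemannZeta (1 / 4 + y * I)‖⁻¹ ≤ K * ‖riemannZeta (3 / 4 - y * I)‖⁻¹ := h7
        _ ≤ K * (C * (1 + |y|) ^ (1 / 4 : ℝ)) := mul_le_mul_of_nonneg_left h2 hK0.le
        _ = _ := by ring)
    nlinarith

end Pool.Agent.Helper90.WM
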